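import Pool.Agent.Q195.EW.MV

set_option autoImplicit false

/-! Project EW (helper80), job SUP: large values of Dirichlet polynomials in windows. -/

open MeasureTheory Complex Filter
open Pool.Agent.Q80.EW

namespace Pool.Agent.Q195.EW

noncomputable section

/-- the coefficients of the derivative -/
def dc (g : ℕ → ℂ) (n : ℕ) : ℂ := -(I * Real.log n) * g n

lemma FF_deriv (X : ℕ) (g : ℕ → ℂ) (t : ℝ) : HasDerivAt (FF X g) (FF X (dc g) t) t := by
  unfold FF
  refine HasDerivAt.fun_sum fun n _ => ?_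
  have h1 : HasDerivAt (fun t : ℝ => (-(I * (Real.log n * t : ℝ)) : ℂ)) (-(I * Real.log n)) t := by
    have h := ((hasDerivAt_id t).ofReal_comp.const_mul ((-(I * Real.log n)) : ℂ))
    simp only [id, mul_one, Complex.ofReal_one] at h
    refine h.congr_of_eventuallyEq (Eventually.of_forall fun s => ?_)
    push_cast
    ring
  have h2 := (h1.cexp).const_mul (g n)
  refine h2.congr_deriv ?_
  unfold dc
  ring

lemma NN_dc (X : ℕ) (g : ℕ → ℂ) : NN X (dc g) ≤ (Real.log X) ^ 2 * NN X g := by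
  unfold NN
  rw [Finset.mul_sum]
  refine Finset.sum_le_sum fun n hn => ?_
  rw [Finset.mem_Icc] at hn
  have h1 : (1 : ℝ) ≤ n := by exact_mod_cast hn.1
  have h2 : (n : ℝ) ≤ X := by exact_mod_cast hn.2
  have h3 := Real.log_le_log (by linarith) h2
  have h4 := Real.log_nonneg h1
  rw [dc, norm_mul, norm_neg, norm_mul, Complex.norm_I, one_mul, Complex.norm_real, Real.norm_eq_abs, mul_pow, sq_abs]
  exact mul_le_mul_of_nonneg_right (pow_le_pow_left₀ h4 h3 2) (by positivity)

/-- the majorant -/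
def ww (X : ℕ) (g : ℕ → ℂ) (x : ℝ) : ℝ := ‖FF X g x‖ ^ 2 + 2 * (‖FF X g x‖ * ‖FF X (dc g) x‖)

lemma ww_cont (X : ℕ) (g : ℕ → ℂ) : Continuous (ww X g) := by
  have h1 := FF_cont X g
  have h2 := FF_cont X (dc g)
  unfold ww
  fun_prop

lemma ww_nonneg (X : ℕ) (g : ℕ → ℂ) (x : ℝ) : 0 ≤ ww X g x := by unfold ww; positivity

lemma sup_le (X : ℕ) (g : ℕ → ℂ) {U t h : ℝ} (hU : 1 ≤ U) (h0 : 0 ≤ h) (h1 : h ≤ U) :
    ‖FF X g (t + h)‖ ^ 2 ≤ ∫ x in t..(t + U), ww X g x := by
  have c1 := FF_cont X g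
  have c2 := FF_cont X (dc g)
  set B : ℝ := ∫ x in t..(t + U), 2 * (‖FF X g x‖ * ‖FF X (dc g) x‖) with hB
  have hd : ∀ s : ℝ, HasDerivAt (fun s => ‖FF X g s‖ ^ 2) (2 * inner ℝ (FF X g s) (FF X (dc g) s)) s := fun s =>
    (FF_deriv X g s).norm_sq
  have hcd : Continuous (fun s => 2 * inner ℝ (FF X g s) (FF X (dc g) s)) := by fun_prop
  have hxy : ∀ y ∈ Set.Icc t (t + U), ‖FF X g (t + h)‖ ^ 2 ≤ ‖FF X g y‖ ^ 2 + B := by
    intro y hy
    have e : ∫ s in y..(t + h), 2 * inner ℝ (FF X g s) (FF X (dc g) s) = ‖FF X g (t + h)‖ ^ 2 - ‖FF X g y‖ ^ 2 :=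
      intervalIntegral.integral_eq_sub_of_hasDerivAt (fun s _ => hd s) (hcd.intervalIntegrable _ _)
    have h2 : |∫ s in y..(t + h), 2 * inner ℝ (FF X g s) (FF X (dc g) s)| ≤ B := by
      have h3 : ∀ s : ℝ, ‖2 * inner ℝ (FF X g s) (FF X (dc g) s)‖ ≤ 2 * (‖FF X g s‖ * ‖FF X (dc g) s‖) := by
        intro s
        rw [norm_mul, Real.norm_eq_abs, Real.norm_eq_abs, abs_of_pos (by norm_num : (0 : ℝ) < 2)]
        exact mul_le_mul_of_nonneg_left (abs_real_inner_le_norm _ _) (by norm_num)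
      have hci : Continuous (fun s => 2 * (‖FF X g s‖ * ‖FF X (dc g) s‖)) := by fun_prop
      rw [hB, intervalIntegral.integral_of_le (by linarith : t ≤ t + U), ← Real.norm_eq_abs]
      refine (intervalIntegral.norm_integral_le_integral_norm_uIoc).trans ?_
      refine (setIntegral_mono (hcd.norm.integrableOn_uIoc) hci.integrableOn_uIoc h3).trans ?_
      refine setIntegral_mono_set hci.integrableOn_Ioc (Eventually.of_forall fun s => by positivity) ?_
      refine Eventually.of_forall fun s hs => ?_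
      have hs' : s ∈ Set.uIoc y (t + h) := hs
      show s ∈ Set.Ioc t (t + U)
      rw [Set.mem_uIoc] at hs'
      clear hs
      rcases hs' with hs | hs
      · exact ⟨by linarith [hy.1, hs.1], by linarith [hs.2]⟩
      · exact ⟨by linarith [hs.1], by linarith [hs.2, hy.2]⟩
    rw [e] at h2
    have := (abs_le.1 h2).2
    linarith
  have hint : ∫ y in t..(t + U), ‖FF X g (t + h)‖ ^ 2 ≤ ∫ y in t..(t + U), (‖FF X g y‖ ^ 2 + B) := by
    refine intervalIntegral.integral_mono_on (by linarith) (by simp) (Continuous.intervalIntegrable (by fun_prop) _ _) ?_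
    intro y hy
    exact hxy y hy
  rw [intervalIntegral.integral_const, intervalIntegral.integral_add (Continuous.intervalIntegrable (by fun_prop) _ _)
    (by simp), intervalIntegral.integral_const] at hint
  simp only [add_sub_cancel_left, smul_eq_mul] at hint
  have hsum : ∫ x in t..(t + U), ww X g x = (∫ y in t..(t + U), ‖FF X g y‖ ^ 2) + B := by
    unfold ww
    rw [intervalIntegral.integral_add (Continuous.intervalIntegrable (by fun_prop) _ _)
      (Continuous.intervalIntegrable (by fun_prop) _ _)]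
  rw [hsum]
  have hA : 0 ≤ ∫ y in t..(t + U), ‖FF X g y‖ ^ 2 :=
    intervalIntegral.integral_nonneg (by linarith) fun _ _ => by positivity
  have hU0 : 0 < U := by linarith
  have h5 : U * ‖FF X g (t + h)‖ ^ 2 ≤ U * ((∫ y in t..(t + U), ‖FF X g y‖ ^ 2) + B) := by
    nlinarith
  exact le_of_mul_le_mul_left h5 hU0

/-- the integral over a sliding window -/
lemma slide {w : ℝ → ℝ} (hw : Continuous w) (h0 : ∀ x, 0 ≤ w x) {A B U : ℝ} (hAB : A ≤ B) (hU : 0 ≤ U) :
    Continuous (fun t => ∫ x in t..(t + U), w x) ∧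
    ∫ t in A..B, (∫ x in t..(t + U), w x) ≤ U * ∫ x in A..(B + U), w x := by
  set W : ℝ → ℝ := fun t => ∫ x in A..t, w x with hW
  have hWd : ∀ t, HasDerivAt W (w t) t := fun t =>
    intervalIntegral.integral_hasDerivAt_right (hw.intervalIntegrable _ _) (hw.stronglyMeasurableAtFilter _ _)
      hw.continuousAt
  have hWc : Continuous W := continuous_iff_continuousAt.2 fun t => (hWd t).continuousAt
  have e : ∀ t, ∫ x in t..(t + U), w x = W (t + U) - W t := by
    intro t
    rw [hW]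
    simp only
    rw [intervalIntegral.integral_interval_sub_left (hw.intervalIntegrable _ _) (hw.intervalIntegrable _ _)]
  have hmono : ∀ s t, s ≤ t → W s ≤ W t := by
    intro s t hst
    have : W t - W s = ∫ x in s..t, w x := by
      rw [hW]
      simp only
      rw [intervalIntegral.integral_interval_sub_left (hw.intervalIntegrable _ _) (hw.intervalIntegrable _ _)]
    have h2 : 0 ≤ ∫ x in s..t, w x := intervalIntegral.integral_nonneg hst fun _ _ => h0 _
    linarith
  constructor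
  · simp only [e]
    fun_prop
  · simp only [e]
    have i1 : ∀ a b : ℝ, IntervalIntegrable W volume a b := fun a b => hWc.intervalIntegrable _ _
    have i2 : IntervalIntegrable (fun t => W (t + U)) volume A B := Continuous.intervalIntegrable (by fun_prop) _ _
    rw [intervalIntegral.integral_sub i2 (i1 _ _), intervalIntegral.integral_comp_add_right]
    have e2 : (∫ x in (A + U)..(B + U), W x) - ∫ x in A..B, W x =
        (∫ x in B..(B + U), W x) - ∫ x in A..(A + U), W x := by
      have h1 := intervalIntegral.integral_add_adjacent_intervals (i1 A (A + U)) (i1 (A + U) (B + U))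
      have h2 := intervalIntegral.integral_add_adjacent_intervals (i1 A B) (i1 B (B + U))
      linarith
    rw [e2]
    have h3 : ∫ x in B..(B + U), W x ≤ ∫ x in B..(B + U), W (B + U) :=
      intervalIntegral.integral_mono_on (by linarith) (i1 _ _) (by simp) fun x hx => hmono _ _ hx.2
    have h4 : ∫ x in A..(A + U), W A ≤ ∫ x in A..(A + U), W x :=
      intervalIntegral.integral_mono_on (by linarith) (by simp) (i1 _ _) fun x hx => hmono _ _ hx.1
    rw [intervalIntegral.integral_const] at h3 h4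
    simp only [add_sub_cancel_left, smul_eq_mul] at h3 h4
    have hWA : W A = 0 := by simp [hW]
    have hWB : W (B + U) = ∫ x in A..(B + U), w x := rfl
    rw [hWA] at h4
    rw [hWB] at h3
    linarith

lemma ww_int (X : ℕ) (hX : 1 ≤ X) (g : ℕ → ℂ) {T : ℝ} (hT : (X : ℝ) ≤ T) :
    ∫ x in T..(4 * T), ww X g x ≤ 189 * (T * (1 + Real.log X) * NN X g) := by
  have c1 := FF_cont X g
  have c2 := FF_cont X (dc g)
  have hX1 : (1 : ℝ) ≤ X := by exact_mod_cast hX
  have hlog := Real.log_nonneg hX1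
  set L : ℝ := 1 + Real.log X with hL
  have hL1 : 1 ≤ L := by linarith
  have hT0 : 0 < T := by linarith
  have hN : 0 ≤ NN X g := Finset.sum_nonneg fun _ _ => sq_nonneg _
  have hTT : T ≤ 4 * T := by linarith
  have h1 := (abs_le.1 (mean X hX g hTT)).2
  have h2 := (abs_le.1 (mean X hX (dc g) hTT)).2
  have h3 := NN_dc X g
  have hN' : 0 ≤ NN X (dc g) := Finset.sum_nonneg fun _ _ => sq_nonneg _
  have h1' : ∫ t in T..(4 * T), ‖FF X g t‖ ^ 2 ≤ 63 * T * NN X g := by
    have : (X : ℝ) * NN X g ≤ T * NN X g := mul_le_mul_of_nonneg_right hT hN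
    linarith
  have h2' : ∫ t in T..(4 * T), ‖FF X (dc g) t‖ ^ 2 ≤ 63 * T * (L ^ 2 * NN X g) := by
    have h5 : (X : ℝ) * NN X (dc g) ≤ T * NN X (dc g) := mul_le_mul_of_nonneg_right hT hN'
    have h6 : NN X (dc g) ≤ L ^ 2 * NN X g := by
      refine h3.trans (mul_le_mul_of_nonneg_right ?_ hN)
      exact pow_le_pow_left₀ hlog (by linarith) 2
    nlinarith
  have h4 : ∫ x in T..(4 * T), ww X g x ≤
      ∫ x in T..(4 * T), ((1 + L) * ‖FF X g x‖ ^ 2 + L⁻¹ * ‖FF X (dc g) x‖ ^ 2) := by
    refine intervalIntegral.integral_mono_on hTT ((ww_cont X g).intervalIntegrable _ _)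
      (Continuous.intervalIntegrable (by fun_prop) _ _) fun x _ => ?_
    unfold ww
    have hL0 : 0 < L := by linarith
    have : 2 * (‖FF X g x‖ * ‖FF X (dc g) x‖) ≤ L * ‖FF X g x‖ ^ 2 + L⁻¹ * ‖FF X (dc g) x‖ ^ 2 := by
      have h7 : 0 ≤ L⁻¹ * (L * ‖FF X g x‖ - ‖FF X (dc g) x‖) ^ 2 := by positivity
      have h8 : L⁻¹ * (L * ‖FF X g x‖ - ‖FF X (dc g) x‖) ^ 2 =
          L * ‖FF X g x‖ ^ 2 + L⁻¹ * ‖FF X (dc g) x‖ ^ 2 - 2 * (‖FF X g x‖ * ‖FF X (dc g) x‖) := by
        field_simp
        ring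
      linarith
    linarith
  refine h4.trans ?_
  rw [intervalIntegral.integral_add (Continuous.intervalIntegrable (by fun_prop) _ _)
    (Continuous.intervalIntegrable (by fun_prop) _ _), intervalIntegral.integral_const_mul,
    intervalIntegral.integral_const_mul]
  have hL0 : 0 < L := by linarith
  have h9 : L⁻¹ * ∫ t in T..(4 * T), ‖FF X (dc g) t‖ ^ 2 ≤ 63 * T * (L * NN X g) := by
    rw [inv_mul_le_iff₀ hL0]
    nlinarith
  have h10 : (1 + L) * ∫ t in T..(4 * T), ‖FF X g t‖ ^ 2 ≤ (2 * L) * (63 * T * NN X g) := by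
    refine mul_le_mul (by linarith) h1' ?_ (by positivity)
    exact intervalIntegral.integral_nonneg hTT fun _ _ => by positivity
  nlinarith

theorem t_SUP : J_SUP := by
  refine ⟨200, by norm_num, fun X f hX hf T U lam hU hUT hXT hlam => ?_⟩
  set g := nc f with hg
  have hT1 : 1 ≤ T := hU.trans hUT
  have hX1 : (1 : ℝ) ≤ X := by exact_mod_cast hX
  have hlog := Real.log_nonneg hX1
  obtain ⟨hHc, hHi⟩ := slide (ww_cont X g) (ww_nonneg X g) (A := T) (B := 3 * T) (U := U) (by linarith) (by linarith)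
  set H : ℝ → ℝ := fun t => ∫ x in t..(t + U), ww X g x with hH
  have hH0 : ∀ t, 0 ≤ H t := fun t => intervalIntegral.integral_nonneg (by linarith) fun _ _ => ww_nonneg _ _ _
  have hsub : {t : ℝ | t ∈ Set.Icc T (3 * T) ∧ ∃ h ∈ Set.Icc (0 : ℝ) U, lam < ‖dp f (t + h)‖ ^ 2} ⊆
      {t : ℝ | lam ≤ H t} ∩ Set.Icc T (3 * T) := by
    rintro t ⟨ht, h, hh, hlt⟩
    refine ⟨?_, ht⟩
    rw [dp_eq hf] at hlt
    exact (hlt.trans_le (sup_le X g hU hh.1 hh.2)).le
  have hint : IntegrableOn H (Set.Icc T (3 * T)) := hHc.integrableOn_Icc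
  have hmk := mul_meas_ge_le_integral_of_nonneg (μ := volume.restrict (Set.Icc T (3 * T)))
    (Eventually.of_forall hH0) hint lam
  have h1 : (volume {t : ℝ | t ∈ Set.Icc T (3 * T) ∧ ∃ h ∈ Set.Icc (0 : ℝ) U, lam < ‖dp f (t + h)‖ ^ 2}).toReal ≤
      (volume.restrict (Set.Icc T (3 * T))).real {t : ℝ | lam ≤ H t} := by
    rw [Measure.real, Measure.restrict_apply' measurableSet_Icc]
    refine ENNReal.toReal_mono ?_ (measure_mono hsub)
    refine ((measure_mono Set.inter_subset_right).trans_lt ?_).ne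
    simp
  rw [integral_Icc_eq_integral_Ioc, ← intervalIntegral.integral_of_le (by linarith)] at hmk
  have h2 : ∫ x in T..(3 * T + U), ww X g x ≤ ∫ x in T..(4 * T), ww X g x := by
    have i1 : ∀ a b : ℝ, IntervalIntegrable (ww X g) volume a b := fun a b => (ww_cont X g).intervalIntegrable _ _
    have h3 := intervalIntegral.integral_add_adjacent_intervals (i1 T (3 * T + U)) (i1 (3 * T + U) (4 * T))
    have h4 : 0 ≤ ∫ x in (3 * T + U)..(4 * T), ww X g x :=
      intervalIntegral.integral_nonneg (by linarith) fun _ _ => ww_nonneg _ _ _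
    linarith
  have h3 := ww_int X hX g hXT
  have hnm : nm f = NN X g := nm_eq hf
  have hN : 0 ≤ NN X g := Finset.sum_nonneg fun _ _ => sq_nonneg _
  rw [le_div_iff₀ hlam, hnm]
  have hP : 0 ≤ T * (1 + Real.log X) * NN X g := by positivity
  have h5 : lam * (volume.restrict (Set.Icc T (3 * T))).real {t : ℝ | lam ≤ H t} ≤
      U * (189 * (T * (1 + Real.log X) * NN X g)) :=
    hmk.trans (hHi.trans (mul_le_mul_of_nonneg_left (h2.trans h3) (by linarith)))
  have h6 : (volume {t : ℝ | t ∈ Set.Icc T (3 * T) ∧ ∃ h ∈ Set.Icc (0 : ℝ) U, lam < ‖dp f (t + h)‖ ^ 2}).toReal * lam ≤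
      lam * (volume.restrict (Set.Icc T (3 * T))).real {t : ℝ | lam ≤ H t} := by
    rw [mul_comm]
    exact mul_le_mul_of_nonneg_left h1 hlam.le
  have hU0 : 0 ≤ U := by linarith
  have h7 : 0 ≤ U * (T * (1 + Real.log X) * NN X g) := by positivity
  nlinarith

end

end Pool.Agent.Q195.EW
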