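import Mathlib

set_option autoImplicit false

/-!
Two sided mean value theorem for exponential sums with the frequencies `log n` (no logarithmic loss), by smoothing with a
Gaussian at the scale of the spacing.
-/

open MeasureTheory Complex Filter

namespace Pool.Agent.Q195.EW

noncomputable section

theorem gauss_real_int {V : ℝ} (hV : 0 < V) (t₀ : ℝ) :
    Integrable (fun t : ℝ => Real.exp (-((t - t₀) / V) ^ 2)) := by
  have h := (integrable_exp_neg_mul_sq (b := (V ^ 2)⁻¹) (by positivity)).comp_sub_right t₀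
  refine h.congr (Eventually.of_forall fun t => ?_)
  simp only
  congr 1
  rw [div_pow]; ring

theorem gauss_int {V : ℝ} (hV : 0 < V) (t₀ ω : ℝ) :
    Integrable (fun t : ℝ => cexp (-(I * (ω * t : ℝ))) * (Real.exp (-((t - t₀) / V) ^ 2) : ℂ)) := by
  have h := gauss_real_int hV t₀
  refine h.mono' (by fun_prop) (Eventually.of_forall fun t => ?_)
  rw [norm_mul, Complex.norm_real, Complex.norm_exp, Real.norm_eq_abs, abs_of_pos (Real.exp_pos _)]
  simp

theorem gauss_eq {V : ℝ} (hV : 0 < V) (t₀ ω : ℝ) :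
    ∫ t : ℝ, cexp (-(I * (ω * t : ℝ))) * (Real.exp (-((t - t₀) / V) ^ 2) : ℂ) =
      ((Real.sqrt Real.pi * V * Real.exp (-(V * ω) ^ 2 / 4) : ℝ) : ℂ) * cexp (-(I * (ω * t₀ : ℝ))) := by
  have hV' : (V : ℂ) ≠ 0 := by exact_mod_cast hV.ne'
  have hb : 0 < ((((V ^ 2)⁻¹ : ℝ) : ℂ)).re := by
    rw [ofReal_re]; positivity
  have h1 := fourierIntegral_gaussian hb (-(ω : ℂ))
  have h2 : ∫ t : ℝ, cexp (-(I * (ω * t : ℝ))) * (Real.exp (-((t - t₀) / V) ^ 2) : ℂ) =
      ∫ x : ℝ, cexp (-(I * (ω * t₀ : ℝ))) *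
        (cexp (I * (-(ω : ℂ)) * x) * cexp (-(((V ^ 2)⁻¹ : ℝ) : ℂ) * x ^ 2)) := by
    rw [← integral_sub_right_eq_self (μ := volume) (fun x : ℝ => cexp (-(I * (ω * t₀ : ℝ))) *
        (cexp (I * (-(ω : ℂ)) * x) * cexp (-(((V ^ 2)⁻¹ : ℝ) : ℂ) * x ^ 2))) t₀]
    refine integral_congr_ae (Eventually.of_forall fun t => ?_)
    simp only
    rw [Complex.ofReal_exp, ← Complex.exp_add, ← Complex.exp_add, ← Complex.exp_add]
    congr 1
    push_cast
    field_simp
    ring
  rw [h2, integral_const_mul, h1]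
  have h3 : ((Real.pi : ℂ) / (((V ^ 2)⁻¹ : ℝ) : ℂ)) ^ (1 / 2 : ℂ) = ((Real.sqrt Real.pi * V : ℝ) : ℂ) := by
    have e : ((Real.pi : ℂ) / (((V ^ 2)⁻¹ : ℝ) : ℂ)) = ((Real.pi * V ^ 2 : ℝ) : ℂ) := by
      push_cast; rw [div_inv_eq_mul]
    have e2 : (1 / 2 : ℂ) = ((1 / 2 : ℝ) : ℂ) := by push_cast; rfl
    rw [e, e2, ← Complex.ofReal_cpow (by positivity), ← Real.sqrt_eq_rpow,
      Real.sqrt_mul Real.pi_pos.le, Real.sqrt_sq hV.le]
  rw [h3]
  have h4 : cexp (-(-(ω : ℂ)) ^ 2 / (4 * (((V ^ 2)⁻¹ : ℝ) : ℂ))) = ((Real.exp (-(V * ω) ^ 2 / 4) : ℝ) : ℂ) := by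
    rw [Complex.ofReal_exp]
    congr 1
    push_cast
    field_simp
  rw [h4]
  push_cast
  ring

lemma log_gap {X m n : ℕ} (hm : 1 ≤ m) (hn : n ≤ X) (hmn : m < n) :
    ((n : ℝ) - m) / X ≤ Real.log n - Real.log m := by
  have hm0 : (0 : ℝ) < m := by exact_mod_cast hm
  have hn0 : (0 : ℝ) < n := by exact_mod_cast (hm.trans hmn.le)
  have hX0 : (0 : ℝ) < X := by exact_mod_cast ((hm.trans hmn.le).trans hn)
  have h1 : 1 - (m : ℝ) / n ≤ Real.log n - Real.log m := by
    have := Real.log_le_sub_one_of_pos (div_pos hm0 hn0)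
    rw [Real.log_div hm0.ne' hn0.ne'] at this
    linarith
  have h2 : ((n : ℝ) - m) / X ≤ ((n : ℝ) - m) / n := by
    have : (m : ℝ) < n := by exact_mod_cast hmn
    have hnX : (n : ℝ) ≤ X := by exact_mod_cast hn
    apply div_le_div_of_nonneg_left (by linarith) hn0 hnX
  have h3 : ((n : ℝ) - m) / n = 1 - (m : ℝ) / n := by
    field_simp
  linarith

lemma log_gap_abs {X m n : ℕ} (hm : m ∈ Finset.Icc 1 X) (hn : n ∈ Finset.Icc 1 X)
    (hmn : m ≠ n) : |(m : ℝ) - n| / X ≤ |Real.log m - Real.log n| := by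
  rw [Finset.mem_Icc] at hm hn
  rcases lt_or_gt_of_ne hmn with h | h
  · have := log_gap hm.1 hn.2 h
    have h' : (m : ℝ) < n := by exact_mod_cast h
    rw [abs_of_neg (by linarith : (m : ℝ) - n < 0), neg_sub, abs_sub_comm]
    exact this.trans (le_abs_self _)
  · have := log_gap hn.1 hm.2 h
    have h' : (n : ℝ) < m := by exact_mod_cast h
    rw [abs_of_pos (by linarith : (0 : ℝ) < (m : ℝ) - n)]
    exact this.trans (le_abs_self _)

/-- the weight -/
def wt (m n : ℕ) : ℝ := (4 / 5 : ℝ) ^ (m - n + (n - m))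

lemma wt_comm (m n : ℕ) : wt m n = wt n m := by
  unfold wt
  rw [add_comm]

lemma wt_nonneg (m n : ℕ) : 0 ≤ wt m n := by unfold wt; positivity

lemma wt_abs (m n : ℕ) : ((m - n + (n - m) : ℕ) : ℝ) = |(m : ℝ) - n| := by
  rcases le_total m n with h | h
  · rw [Nat.sub_eq_zero_of_le h, zero_add, Nat.cast_sub h, abs_sub_comm, abs_of_nonneg]
    have : (m : ℝ) ≤ n := by exact_mod_cast h
    linarith
  · rw [Nat.sub_eq_zero_of_le h, add_zero, Nat.cast_sub h, abs_of_nonneg]
    have : (n : ℝ) ≤ m := by exact_mod_cast h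
    linarith

lemma geo_le (N : ℕ) : ∑ k ∈ Finset.range N, (4 / 5 : ℝ) ^ k ≤ 5 := by
  have h := Summable.sum_le_tsum (f := fun k : ℕ => (4 / 5 : ℝ) ^ k) (Finset.range N) (fun _ _ => by positivity)
    (summable_geometric_of_lt_one (by norm_num) (by norm_num))
  rw [tsum_geometric_of_lt_one (by norm_num) (by norm_num)] at h
  norm_num at h ⊢
  linarith

lemma wt_row (s : Finset ℕ) (m : ℕ) : ∑ n ∈ s, wt m n ≤ 10 := by
  have h1 : ∑ n ∈ s.filter (fun n => n ≤ m), wt m n ≤ 5 := by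
    have : ∑ n ∈ s.filter (fun n => n ≤ m), wt m n =
        ∑ k ∈ (s.filter (fun n => n ≤ m)).image (fun n => m - n), (4 / 5 : ℝ) ^ k := by
      rw [Finset.sum_image]
      · refine Finset.sum_congr rfl fun n hn => ?_
        rw [Finset.mem_filter] at hn
        unfold wt
        rw [Nat.sub_eq_zero_of_le hn.2, add_zero]
      · intro a ha b hb hab
        simp only [Finset.coe_filter, Set.mem_ofPred_eq] at ha hb hab
        omega
    rw [this]
    refine (Finset.sum_le_sum_of_subset_of_nonneg (t := Finset.range (m + 1)) ?_ fun _ _ _ => by positivity).trans (geo_le _)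
    intro k hk
    simp only [Finset.mem_image, Finset.mem_filter] at hk
    obtain ⟨n, ⟨_, hn⟩, rfl⟩ := hk
    rw [Finset.mem_range]; omega
  have h2 : ∑ n ∈ s.filter (fun n => ¬ n ≤ m), wt m n ≤ 5 := by
    have : ∑ n ∈ s.filter (fun n => ¬ n ≤ m), wt m n =
        ∑ k ∈ (s.filter (fun n => ¬ n ≤ m)).image (fun n => n - m), (4 / 5 : ℝ) ^ k := by
      rw [Finset.sum_image]
      · refine Finset.sum_congr rfl fun n hn => ?_
        rw [Finset.mem_filter] at hn
        unfold wt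
        rw [Nat.sub_eq_zero_of_le (by omega : m ≤ n), zero_add]
      · intro a ha b hb hab
        simp only [Finset.coe_filter, Set.mem_ofPred_eq] at ha hb hab
        omega
    rw [this]
    refine (Finset.sum_le_sum_of_subset_of_nonneg (t := Finset.range (s.sup id + 1)) ?_ fun _ _ _ => by positivity).trans (geo_le _)
    intro k hk
    simp only [Finset.mem_image, Finset.mem_filter] at hk
    obtain ⟨n, ⟨hs, hn⟩, rfl⟩ := hk
    rw [Finset.mem_range]
    have : n ≤ s.sup id := Finset.le_sup (f := id) hs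
    omega
  have := Finset.sum_filter_add_sum_filter_not s (fun n => n ≤ m) (fun n => wt m n)
  linarith

lemma schur (s : Finset ℕ) (x : ℕ → ℝ) : ∑ m ∈ s, ∑ n ∈ s, x m * x n * wt m n ≤ 10 * ∑ n ∈ s, x n ^ 2 := by
  have h1 : ∀ m ∈ s, ∀ n ∈ s, x m * x n * wt m n ≤ (x m ^ 2 / 2) * wt m n + (x n ^ 2 / 2) * wt m n := by
    intro m _ n _
    have := wt_nonneg m n
    nlinarith [mul_nonneg (sq_nonneg (x m - x n)) this]
  refine (Finset.sum_le_sum fun m hm => Finset.sum_le_sum fun n hn => h1 m hm n hn).trans ?_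
  simp_rw [Finset.sum_add_distrib]
  have h2 : ∑ m ∈ s, ∑ n ∈ s, x m ^ 2 / 2 * wt m n ≤ 5 * ∑ n ∈ s, x n ^ 2 := by
    rw [Finset.mul_sum]
    refine Finset.sum_le_sum fun m _ => ?_
    rw [← Finset.mul_sum]
    have := wt_row s m
    nlinarith [sq_nonneg (x m)]
  have h3 : ∑ m ∈ s, ∑ n ∈ s, x n ^ 2 / 2 * wt m n ≤ 5 * ∑ n ∈ s, x n ^ 2 := by
    rw [Finset.sum_comm, Finset.mul_sum]
    refine Finset.sum_le_sum fun n _ => ?_
    rw [← Finset.mul_sum]
    have h := wt_row s n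
    have e : ∑ m ∈ s, wt m n = ∑ m ∈ s, wt n m := Finset.sum_congr rfl fun m _ => wt_comm m n
    rw [e]
    nlinarith [sq_nonneg (x n)]
  linarith

lemma exp_le_wt {X m n : ℕ} (hm : m ∈ Finset.Icc 1 X) (hn : n ∈ Finset.Icc 1 X) :
    Real.exp (-((X : ℝ) * (Real.log m - Real.log n)) ^ 2 / 4) ≤ wt m n := by
  by_cases hmn : m = n
  · subst hmn
    simp [wt]
  have hX : (0 : ℝ) < X := by
    have := Finset.mem_Icc.1 hm
    exact_mod_cast (by omega : 0 < X)
  have h1 := log_gap_abs hm hn hmn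
  set k : ℕ := m - n + (n - m) with hk
  have hk1 : 1 ≤ k := by omega
  have hk1' : (1 : ℝ) ≤ k := by exact_mod_cast hk1
  have hab : |(m : ℝ) - n| = k := by rw [hk, wt_abs]
  rw [hab, div_le_iff₀ hX] at h1
  have h2 : (k : ℝ) ^ 2 ≤ ((X : ℝ) * (Real.log m - Real.log n)) ^ 2 := by
    rw [mul_pow, ← sq_abs (Real.log m - Real.log n), ← mul_pow]
    refine pow_le_pow_left₀ (by positivity) ?_ 2
    linarith
  have h3 : Real.exp (-(1 / 4 : ℝ)) ≤ 4 / 5 := by
    rw [Real.exp_neg]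
    rw [inv_le_comm₀ (Real.exp_pos _) (by norm_num)]
    have := Real.add_one_le_exp (1 / 4 : ℝ)
    linarith
  calc Real.exp (-((X : ℝ) * (Real.log m - Real.log n)) ^ 2 / 4) ≤ Real.exp ((k : ℝ) * (-(1 / 4 : ℝ))) := by
        apply Real.exp_le_exp.2
        nlinarith
    _ = Real.exp (-(1 / 4 : ℝ)) ^ k := by rw [← Real.exp_nat_mul]
    _ ≤ (4 / 5) ^ k := pow_le_pow_left₀ (Real.exp_pos _).le h3 k
    _ = wt m n := rfl

/-- the exponential sum -/
def FF (X : ℕ) (f : ℕ → ℂ) (t : ℝ) : ℂ := ∑ n ∈ Finset.Icc 1 X, f n * cexp (-(I * (Real.log n * t : ℝ)))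

/-- its mean square -/
def NN (X : ℕ) (f : ℕ → ℂ) : ℝ := ∑ n ∈ Finset.Icc 1 X, ‖f n‖ ^ 2

/-- the smoothed mean square -/
def GG (X : ℕ) (f : ℕ → ℂ) (s : ℝ) : ℂ := ∑ m ∈ Finset.Icc 1 X, ∑ n ∈ Finset.Icc 1 X,
  f m * (starRingEnd ℂ) (f n) * ((Real.exp (-((X : ℝ) * (Real.log m - Real.log n)) ^ 2 / 4) : ℂ) *
    cexp (-(I * ((Real.log m - Real.log n) * s : ℝ))))

lemma FF_cont (X : ℕ) (f : ℕ → ℂ) : Continuous (FF X f) := by
  unfold FF; fun_prop

lemma GG_cont (X : ℕ) (f : ℕ → ℂ) : Continuous (GG X f) := by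
  unfold GG; fun_prop

lemma FF_sq (X : ℕ) (f : ℕ → ℂ) (t : ℝ) : ((‖FF X f t‖ ^ 2 : ℝ) : ℂ) =
    ∑ m ∈ Finset.Icc 1 X, ∑ n ∈ Finset.Icc 1 X, f m * (starRingEnd ℂ) (f n) *
      cexp (-(I * ((Real.log m - Real.log n) * t : ℝ))) := by
  have e1 : ((‖FF X f t‖ ^ 2 : ℝ) : ℂ) = FF X f t * (starRingEnd ℂ) (FF X f t) := by
    rw [Complex.mul_conj, Complex.normSq_eq_norm_sq]
  rw [e1]
  unfold FF
  rw [map_sum, Finset.sum_mul_sum]
  refine Finset.sum_congr rfl fun i _ => Finset.sum_congr rfl fun j _ => ?_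
  have e2 : (starRingEnd ℂ) (cexp (-(I * (Real.log j * t : ℝ)))) = cexp (I * (Real.log j * t : ℝ)) := by
    rw [← Complex.exp_conj, map_neg, map_mul, Complex.conj_I, Complex.conj_ofReal]
    congr 1
    ring
  have e3 : cexp (-(I * ((Real.log i - Real.log j) * t : ℝ))) =
      cexp (-(I * (Real.log i * t : ℝ))) * cexp (I * (Real.log j * t : ℝ)) := by
    rw [← Complex.exp_add]; congr 1; push_cast; ring
  rw [map_mul, e2, e3]
  ring

lemma smooth_int (X : ℕ) (hX : 1 ≤ X) (f : ℕ → ℂ) (s : ℝ) :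
    Integrable (fun t : ℝ => ‖FF X f t‖ ^ 2 * Real.exp (-((t - s) / X) ^ 2)) ∧
    ((∫ t : ℝ, ‖FF X f t‖ ^ 2 * Real.exp (-((t - s) / X) ^ 2) : ℝ) : ℂ) =
      ((Real.sqrt Real.pi * X : ℝ) : ℂ) * GG X f s := by
  have hV : (0 : ℝ) < X := by exact_mod_cast hX
  have key : ∀ t : ℝ, (((‖FF X f t‖ ^ 2 * Real.exp (-((t - s) / X) ^ 2) : ℝ)) : ℂ) =
      ∑ i ∈ Finset.Icc 1 X, ∑ j ∈ Finset.Icc 1 X, f i * (starRingEnd ℂ) (f j) *
        (cexp (-(I * ((Real.log i - Real.log j) * t : ℝ))) * (Real.exp (-((t - s) / X) ^ 2) : ℂ)) := by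
    intro t
    rw [Complex.ofReal_mul, FF_sq, Finset.sum_mul]
    refine Finset.sum_congr rfl fun i _ => ?_
    rw [Finset.sum_mul]
    refine Finset.sum_congr rfl fun j _ => ?_
    ring
  have hintc : ∀ i j : ℕ, Integrable (fun t : ℝ => f i * (starRingEnd ℂ) (f j) *
        (cexp (-(I * ((Real.log i - Real.log j) * t : ℝ))) * (Real.exp (-((t - s) / X) ^ 2) : ℂ))) :=
    fun i j => (gauss_int hV s (Real.log i - Real.log j)).const_mul _
  have hint2 : Integrable (fun t : ℝ => (((‖FF X f t‖ ^ 2 * Real.exp (-((t - s) / X) ^ 2) : ℝ)) : ℂ)) := by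
    simp_rw [key]
    exact integrable_finsetSum _ fun i _ => integrable_finsetSum _ fun j _ => hintc i j
  refine ⟨hint2.re.congr (Eventually.of_forall fun t => Complex.ofReal_re _), ?_⟩
  rw [← integral_complex_ofReal]
  simp_rw [key]
  rw [integral_finsetSum _ fun i _ => integrable_finsetSum _ fun j _ => hintc i j]
  unfold GG
  rw [Finset.mul_sum]
  refine Finset.sum_congr rfl fun i _ => ?_
  rw [integral_finsetSum _ fun j _ => hintc i j, Finset.mul_sum]
  refine Finset.sum_congr rfl fun j _ => ?_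
  rw [integral_const_mul, gauss_eq hV]
  push_cast
  ring

lemma GG_norm (X : ℕ) (f : ℕ → ℂ) (s : ℝ) : ‖GG X f s‖ ≤ 10 * NN X f := by
  unfold GG NN
  refine le_trans ?_ (schur (Finset.Icc 1 X) fun n => ‖f n‖)
  refine (norm_sum_le _ _).trans (Finset.sum_le_sum fun m hm => (norm_sum_le _ _).trans
    (Finset.sum_le_sum fun n hn => ?_))
  rw [norm_mul, norm_mul, norm_mul, RCLike.norm_conj, Complex.norm_real, Real.norm_eq_abs, abs_of_pos (Real.exp_pos _),
    Complex.norm_exp]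
  simp only [neg_re, mul_re, I_re, ofReal_re, zero_mul, I_im, ofReal_im, mul_zero, sub_self, neg_zero, Real.exp_zero, mul_one]
  exact mul_le_mul_of_nonneg_left (exp_le_wt hm hn) (by positivity)

lemma smooth_le (X : ℕ) (hX : 1 ≤ X) (f : ℕ → ℂ) (s : ℝ) :
    ∫ t : ℝ, ‖FF X f t‖ ^ 2 * Real.exp (-((t - s) / X) ^ 2) ≤ Real.sqrt Real.pi * X * (10 * NN X f) := by
  have h := (smooth_int X hX f s).2
  have h2 := congrArg norm h
  rw [norm_mul, Complex.norm_real, Complex.norm_real, Real.norm_eq_abs, Real.norm_eq_abs,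
    abs_of_nonneg (by positivity : 0 ≤ Real.sqrt Real.pi * X)] at h2
  refine (le_abs_self _).trans ?_
  rw [h2]
  exact mul_le_mul_of_nonneg_left (GG_norm X f s) (by positivity)

lemma GG_int (X : ℕ) (f : ℕ → ℂ) (a b : ℝ) :
    ‖(∫ s in a..b, GG X f s) - ((b - a : ℝ) : ℂ) * NN X f‖ ≤ 20 * X * NN X f := by
  have h1 : (∫ s in a..b, GG X f s) = ∑ m ∈ Finset.Icc 1 X, ∑ n ∈ Finset.Icc 1 X,
      f m * (starRingEnd ℂ) (f n) * ((Real.exp (-((X : ℝ) * (Real.log m - Real.log n)) ^ 2 / 4) : ℂ) *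
        ∫ s in a..b, cexp (-(I * ((Real.log m - Real.log n) * s : ℝ)))) := by
    unfold GG
    rw [intervalIntegral.integral_finsetSum]
    · refine Finset.sum_congr rfl fun m hm => ?_
      rw [intervalIntegral.integral_finsetSum]
      · refine Finset.sum_congr rfl fun n hn => ?_
        rw [intervalIntegral.integral_const_mul, intervalIntegral.integral_const_mul]
      · intro n hn
        exact Continuous.intervalIntegrable (by fun_prop) _ _
    · intro m hm
      exact Continuous.intervalIntegrable (by fun_prop) _ _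
  have h2 : ((b - a : ℝ) : ℂ) * NN X f = ∑ m ∈ Finset.Icc 1 X, ∑ n ∈ Finset.Icc 1 X,
      f m * (starRingEnd ℂ) (f n) * ((Real.exp (-((X : ℝ) * (Real.log m - Real.log n)) ^ 2 / 4) : ℂ) *
        if m = n then ((b - a : ℝ) : ℂ) else 0) := by
    unfold NN
    push_cast
    rw [Finset.mul_sum]
    refine Finset.sum_congr rfl fun m hm => ?_
    simp only [mul_ite, mul_zero]
    rw [Finset.sum_ite_eq, if_pos hm, Complex.mul_conj']
    simp
    ring
  rw [h1, h2, ← Finset.sum_sub_distrib]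
  simp_rw [← Finset.sum_sub_distrib, ← mul_sub]
  have h3 := schur (Finset.Icc 1 X) fun n => ‖f n‖
  have h4 : ‖∑ m ∈ Finset.Icc 1 X, ∑ n ∈ Finset.Icc 1 X,
      f m * (starRingEnd ℂ) (f n) * ((Real.exp (-((X : ℝ) * (Real.log m - Real.log n)) ^ 2 / 4) : ℂ) *
        ((∫ s in a..b, cexp (-(I * ((Real.log m - Real.log n) * s : ℝ)))) -
          if m = n then ((b - a : ℝ) : ℂ) else 0))‖ ≤
      2 * X * ∑ m ∈ Finset.Icc 1 X, ∑ n ∈ Finset.Icc 1 X, ‖f m‖ * ‖f n‖ * wt m n := by
    rw [Finset.mul_sum]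
    refine (norm_sum_le _ _).trans (Finset.sum_le_sum fun m hm => ?_)
    rw [Finset.mul_sum]
    refine (norm_sum_le _ _).trans (Finset.sum_le_sum fun n hn => ?_)
    have hX : (0 : ℝ) < X := by
      have := Finset.mem_Icc.1 hm
      exact_mod_cast (by omega : 0 < X)
    rw [norm_mul, norm_mul, norm_mul, RCLike.norm_conj, Complex.norm_real, Real.norm_eq_abs, abs_of_pos (Real.exp_pos _)]
    have h5 : ‖(∫ s in a..b, cexp (-(I * ((Real.log m - Real.log n) * s : ℝ)))) -
          (if m = n then ((b - a : ℝ) : ℂ) else 0)‖ ≤ 2 * X := by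
      by_cases hmn : m = n
      · subst hmn
        simp
      · rw [if_neg hmn, sub_zero]
        have hg := log_gap_abs hm hn hmn
        have h1k : 1 ≤ |(m : ℝ) - n| := by
          rw [← wt_abs]
          have : 1 ≤ m - n + (n - m) := by omega
          exact_mod_cast this
        have hg2 : 1 / (X : ℝ) ≤ |Real.log m - Real.log n| :=
          (div_le_div_of_nonneg_right h1k hX.le).trans hg
        have hne : Real.log m - Real.log n ≠ 0 := by
          intro h0
          rw [h0, abs_zero] at hg2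
          have : (0 : ℝ) < 1 / X := by positivity
          linarith
        have hc : (-(I * ((Real.log m - Real.log n : ℝ) : ℂ))) ≠ 0 := by
          rw [neg_ne_zero]
          exact mul_ne_zero I_ne_zero (by exact_mod_cast hne)
        have e : (fun s : ℝ => cexp (-(I * ((Real.log m - Real.log n) * s : ℝ)))) =
            fun s : ℝ => cexp ((-(I * ((Real.log m - Real.log n : ℝ) : ℂ))) * s) := by
          funext s
          congr 1
          push_cast
          ring
        rw [e, integral_exp_mul_complex hc, norm_div, norm_neg, norm_mul, Complex.norm_I, one_mul, Complex.norm_real,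
          Real.norm_eq_abs, div_le_iff₀ (abs_pos.2 hne)]
        have h6 : ‖cexp ((-(I * ((Real.log m - Real.log n : ℝ) : ℂ))) * b) -
            cexp ((-(I * ((Real.log m - Real.log n : ℝ) : ℂ))) * a)‖ ≤ 2 := by
          refine (norm_sub_le _ _).trans ?_
          have e5 : ∀ y : ℝ, ‖cexp ((-(I * ((Real.log m - Real.log n : ℝ) : ℂ))) * y)‖ = 1 := by
            intro y
            have : (-(I * ((Real.log m - Real.log n : ℝ) : ℂ))) * y = ((-((Real.log m - Real.log n) * y) : ℝ) : ℂ) * I := by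
              push_cast; ring
            rw [this, Complex.norm_exp_ofReal_mul_I]
          rw [e5, e5]
          norm_num
        refine h6.trans ?_
        rw [div_le_iff₀ hX] at hg2
        nlinarith
    calc ‖f m‖ * ‖f n‖ * (Real.exp (-((X : ℝ) * (Real.log m - Real.log n)) ^ 2 / 4) * _) ≤
        ‖f m‖ * ‖f n‖ * (wt m n * (2 * X)) := by
          refine mul_le_mul_of_nonneg_left (mul_le_mul (exp_le_wt hm hn) h5 (norm_nonneg _) (wt_nonneg _ _)) (by positivity)
      _ = _ := by ring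
  refine h4.trans ?_
  have hX : (0 : ℝ) ≤ X := by positivity
  unfold NN
  nlinarith

/-- the smoothed indicator function -/
def KK (X a b t : ℝ) : ℝ := 1 / (Real.sqrt Real.pi * X) * ∫ s in a..b, Real.exp (-((t - s) / X) ^ 2)

lemma tail_eq {V : ℝ} (hV : 0 < V) (c : ℝ) : ∫ s in Set.Ioi c, Real.exp (-((s - c) / V) ^ 2) = Real.sqrt Real.pi * V / 2 := by
  have h := integral_gaussian_Ioi ((V ^ 2)⁻¹)
  have h2 : ∫ s in Set.Ioi c, Real.exp (-((s - c) / V) ^ 2) = ∫ x in Set.Ioi (0 : ℝ), Real.exp (-(V ^ 2)⁻¹ * x ^ 2) := by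
    have := (measurePreserving_sub_right volume c).setIntegral_preimage_emb
      (measurableEmbedding_subRight c) (fun x : ℝ => Real.exp (-(V ^ 2)⁻¹ * x ^ 2)) (Set.Ioi 0)
    rw [← this]
    have e : (fun x : ℝ => x - c) ⁻¹' Set.Ioi 0 = Set.Ioi c := by
      ext x; simp
    rw [e]
    refine integral_congr_ae (Eventually.of_forall fun s => ?_)
    simp only
    congr 1
    rw [div_pow]; ring
  rw [h2, h, div_inv_eq_mul, Real.sqrt_mul Real.pi_pos.le, Real.sqrt_sq hV.le]

lemma tail_le {V : ℝ} (hV : 0 < V) {c t : ℝ} (h : t ≤ c) :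
    ∫ s in Set.Ioi c, Real.exp (-((t - s) / V) ^ 2) ≤ Real.sqrt Real.pi * V / 2 * Real.exp (-((t - c) / V) ^ 2) := by
  rw [← tail_eq hV c, ← integral_mul_const]
  have hi : ∀ u : ℝ, Integrable (fun s : ℝ => Real.exp (-((s - u) / V) ^ 2)) := fun u => gauss_real_int hV u
  have hi' : Integrable (fun s : ℝ => Real.exp (-((t - s) / V) ^ 2)) := by
    refine (hi t).congr (Eventually.of_forall fun s => ?_)
    simp only
    congr 2
    rw [div_pow, div_pow, ← neg_sub s t, neg_sq]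
  refine setIntegral_mono_on hi'.integrableOn ((hi c).mul_const _).integrableOn measurableSet_Ioi fun s hs => ?_
  rw [← Real.exp_add]
  apply Real.exp_le_exp.2
  have hs' : c < s := hs
  have : ((s - c) / V) ^ 2 + ((t - c) / V) ^ 2 ≤ ((t - s) / V) ^ 2 := by
    rw [div_pow, div_pow, div_pow, ← add_div]
    apply div_le_div_of_nonneg_right _ (by positivity)
    nlinarith [mul_nonneg (sub_nonneg.2 hs'.le) (sub_nonneg.2 h)]
  linarith

lemma gauss_int' {V : ℝ} (hV : 0 < V) (t : ℝ) : Integrable (fun s : ℝ => Real.exp (-((t - s) / V) ^ 2)) := by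
  refine (gauss_real_int hV t).congr (Eventually.of_forall fun s => ?_)
  simp only
  congr 2
  rw [div_pow, div_pow, ← neg_sub s t, neg_sq]

lemma tail_le' {V : ℝ} (hV : 0 < V) {c t : ℝ} (h : c ≤ t) :
    ∫ s in Set.Iic c, Real.exp (-((t - s) / V) ^ 2) ≤ Real.sqrt Real.pi * V / 2 * Real.exp (-((t - c) / V) ^ 2) := by
  have h1 := tail_le hV (c := -c) (t := -t) (by linarith)
  have h2 := integral_comp_neg_Iic c (fun s : ℝ => Real.exp (-((-t - s) / V) ^ 2))
  have e : ∀ s : ℝ, Real.exp (-((-t - -s) / V) ^ 2) = Real.exp (-((t - s) / V) ^ 2) := by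
    intro s
    congr 2
    rw [div_pow, div_pow]
    congr 1
    ring
  simp only [e] at h2
  rw [← h2] at h1
  refine h1.trans (le_of_eq ?_)
  congr 2
  rw [div_pow, div_pow]
  congr 2
  ring

lemma tot_eq {V : ℝ} (hV : 0 < V) (t : ℝ) : ∫ s : ℝ, Real.exp (-((t - s) / V) ^ 2) = Real.sqrt Real.pi * V := by
  have h := integral_gaussian ((V ^ 2)⁻¹)
  rw [div_inv_eq_mul, Real.sqrt_mul Real.pi_pos.le, Real.sqrt_sq hV.le] at h
  rw [← h, ← integral_sub_left_eq_self (fun x : ℝ => Real.exp (-(V ^ 2)⁻¹ * x ^ 2)) volume t]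
  refine integral_congr_ae (Eventually.of_forall fun s => ?_)
  simp only
  congr 1
  rw [div_pow]; ring

lemma KK_diff {V : ℝ} (hV : 0 < V) {a b : ℝ} (hab : a ≤ b) (t : ℝ) :
    |KK V a b t - (Set.Ioc a b).indicator (fun _ => (1 : ℝ)) t| ≤
      Real.exp (-((t - a) / V) ^ 2) + Real.exp (-((t - b) / V) ^ 2) := by
  have hc : 0 < Real.sqrt Real.pi * V := by positivity
  have hi := gauss_int' hV t
  have pa := Real.exp_pos (-((t - a) / V) ^ 2)
  have pb := Real.exp_pos (-((t - b) / V) ^ 2)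
  have hKK : KK V a b t * (Real.sqrt Real.pi * V) = ∫ s in a..b, Real.exp (-((t - s) / V) ^ 2) := by
    unfold KK
    field_simp
  have e1 : ∫ s in a..b, Real.exp (-((t - s) / V) ^ 2) = (∫ s in Set.Ioi a, Real.exp (-((t - s) / V) ^ 2)) -
      ∫ s in Set.Ioi b, Real.exp (-((t - s) / V) ^ 2) := by
    rw [intervalIntegral.integral_of_le hab, ← Set.Ioc_union_Ioi_eq_Ioi hab,
      setIntegral_union (by
        rw [Set.disjoint_left]
        intro x hx hx'
        exact absurd hx.2 (not_le.2 hx')) measurableSet_Ioi hi.integrableOn hi.integrableOn]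
    ring
  have e2 : ∀ c : ℝ, (∫ s in Set.Iic c, Real.exp (-((t - s) / V) ^ 2)) +
      ∫ s in Set.Ioi c, Real.exp (-((t - s) / V) ^ 2) = Real.sqrt Real.pi * V := by
    intro c
    rw [← tot_eq hV t, ← intervalIntegral.integral_Iic_add_Ioi hi.integrableOn hi.integrableOn]
  have n1 : ∀ c : ℝ, 0 ≤ ∫ s in Set.Ioi c, Real.exp (-((t - s) / V) ^ 2) := fun c =>
    setIntegral_nonneg measurableSet_Ioi fun _ _ => (Real.exp_pos _).le
  have n2 : ∀ c : ℝ, 0 ≤ ∫ s in Set.Iic c, Real.exp (-((t - s) / V) ^ 2) := fun c =>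
    setIntegral_nonneg measurableSet_Iic fun _ _ => (Real.exp_pos _).le
  have n3 : 0 ≤ ∫ s in a..b, Real.exp (-((t - s) / V) ^ 2) :=
    intervalIntegral.integral_nonneg hab fun _ _ => (Real.exp_pos _).le
  rw [← mul_le_mul_iff_of_pos_right hc, ← abs_of_pos hc, ← abs_mul, abs_of_pos hc, sub_mul, hKK]
  by_cases h1 : t ≤ a
  · rw [Set.indicator_of_notMem (by rintro ⟨h, _⟩; linarith), zero_mul, sub_zero, abs_of_nonneg n3, e1]
    have := tail_le hV h1
    have := n1 b
    nlinarith [mul_pos hc pa, mul_pos hc pb]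
  · push Not at h1
    by_cases h2 : t ≤ b
    · rw [Set.indicator_of_mem (by exact ⟨h1, h2⟩), one_mul]
      have ha := tail_le' hV h1.le
      have hb := tail_le hV h2
      have ea := e2 a
      have na := n2 a
      have nb := n1 b
      rw [e1, abs_le]
      constructor <;> nlinarith [mul_pos hc pa, mul_pos hc pb]
    · push Not at h2
      rw [Set.indicator_of_notMem (by rintro ⟨_, h⟩; linarith), zero_mul, sub_zero, abs_of_nonneg n3, e1]
      have hb := tail_le' hV h2.le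
      have ea := e2 a
      have eb := e2 b
      have na := n2 a
      nlinarith [mul_pos hc pa, mul_pos hc pb]

lemma fubini_int (X : ℕ) (hX : 1 ≤ X) (f : ℕ → ℂ) (a b : ℝ) :
    Integrable (Function.uncurry fun s t : ℝ => ‖FF X f t‖ ^ 2 * Real.exp (-((t - s) / X) ^ 2))
      ((volume.restrict (Set.Ioc a b)).prod volume) := by
  have hFc := FF_cont X f
  have hc : Continuous (Function.uncurry fun s t : ℝ => ‖FF X f t‖ ^ 2 * Real.exp (-((t - s) / X) ^ 2)) := by
    unfold Function.uncurry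
    fun_prop
  rw [integrable_prod_iff hc.aestronglyMeasurable]
  refine ⟨Eventually.of_forall fun s => (smooth_int X hX f s).1, ?_⟩
  have e : (fun s : ℝ => ∫ t : ℝ, ‖Function.uncurry (fun s t : ℝ => ‖FF X f t‖ ^ 2 * Real.exp (-((t - s) / X) ^ 2)) (s, t)‖) =
      fun s : ℝ => Real.sqrt Real.pi * X * (GG X f s).re := by
    funext s
    have h := congrArg Complex.re (smooth_int X hX f s).2
    rw [Complex.re_ofReal_mul, Complex.ofReal_re] at h
    rw [← h]
    refine integral_congr_ae (Eventually.of_forall fun t => ?_)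
    simp only [Function.uncurry_apply_pair]
    rw [Real.norm_of_nonneg (by positivity)]
  rw [e]
  have hG := GG_cont X f
  exact (Continuous.integrableOn_Ioc (by fun_prop))

lemma KK_int (X : ℕ) (hX : 1 ≤ X) (f : ℕ → ℂ) {a b : ℝ} (hab : a ≤ b) :
    Integrable (fun t : ℝ => ‖FF X f t‖ ^ 2 * KK X a b t) ∧
    ((∫ t : ℝ, ‖FF X f t‖ ^ 2 * KK X a b t : ℝ) : ℂ) = ∫ s in a..b, GG X f s := by
  have hX' : (0 : ℝ) < X := by exact_mod_cast hX
  have hc : 0 < Real.sqrt Real.pi * X := by positivity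
  have hF := fubini_int X hX f a b
  have e : ∀ t : ℝ, ‖FF X f t‖ ^ 2 * KK X a b t = 1 / (Real.sqrt Real.pi * X) *
      ∫ s in Set.Ioc a b, ‖FF X f t‖ ^ 2 * Real.exp (-((t - s) / X) ^ 2) := by
    intro t
    unfold KK
    rw [intervalIntegral.integral_of_le hab, integral_const_mul]
    ring
  simp only [e]
  refine ⟨(hF.integral_prod_right).const_mul _, ?_⟩
  rw [integral_const_mul]
  have h := integral_integral_swap hF
  rw [← h, intervalIntegral.integral_of_le hab]
  have h2 : ∫ s in Set.Ioc a b, (∫ t : ℝ, ‖FF X f t‖ ^ 2 * Real.exp (-((t - s) / X) ^ 2)) =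
      ∫ s in Set.Ioc a b, Real.sqrt Real.pi * X * (GG X f s).re := by
    refine integral_congr_ae (Eventually.of_forall fun s => ?_)
    have h := congrArg Complex.re (smooth_int X hX f s).2
    rw [Complex.re_ofReal_mul, Complex.ofReal_re] at h
    exact h
  rw [h2, integral_const_mul, ← mul_assoc, one_div, inv_mul_cancel₀ hc.ne', one_mul, ← integral_complex_ofReal]
  refine integral_congr_ae (Eventually.of_forall fun s => ?_)
  simp only
  have h := (smooth_int X hX f s).2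
  have hr : ((((GG X f s).re : ℝ)) : ℂ) = GG X f s := by
    rw [← Complex.conj_eq_iff_re]
    have h3 : GG X f s = (((∫ t : ℝ, ‖FF X f t‖ ^ 2 * Real.exp (-((t - s) / X) ^ 2)) / (Real.sqrt Real.pi * X) : ℝ) : ℂ) := by
      rw [Complex.ofReal_div, h, mul_comm, mul_div_assoc, div_self (by exact_mod_cast hc.ne'), mul_one]
    rw [h3, Complex.conj_ofReal]
  exact hr

/-- the mean value theorem -/
theorem mean (X : ℕ) (hX : 1 ≤ X) (f : ℕ → ℂ) {a b : ℝ} (hab : a ≤ b) :
    |(∫ t in a..b, ‖FF X f t‖ ^ 2) - (b - a) * NN X f| ≤ 60 * X * NN X f := by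
  have hX' : (0 : ℝ) < X := by exact_mod_cast hX
  have hN : 0 ≤ NN X f := Finset.sum_nonneg fun _ _ => sq_nonneg _
  obtain ⟨hKi, hKe⟩ := KK_int X hX f hab
  have h1 : |(∫ t : ℝ, ‖FF X f t‖ ^ 2 * KK X a b t) - (b - a) * NN X f| ≤ 20 * X * NN X f := by
    have h := GG_int X f a b
    rw [← hKe, ← Complex.ofReal_mul, ← Complex.ofReal_sub, Complex.norm_real] at h
    exact h
  have hFc := FF_cont X f
  have hind : IntegrableOn (fun t : ℝ => ‖FF X f t‖ ^ 2) (Set.Ioc a b) :=
    Continuous.integrableOn_Ioc (by fun_prop)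
  have hind2 : Integrable (fun t : ℝ => ‖FF X f t‖ ^ 2 * (Set.Ioc a b).indicator (fun _ => (1 : ℝ)) t) := by
    refine ((integrable_indicator_iff measurableSet_Ioc).2 hind).congr (Eventually.of_forall fun t => ?_)
    by_cases ht : t ∈ Set.Ioc a b
    · simp [Set.indicator_of_mem ht]
    · simp [Set.indicator_of_notMem ht]
  have h2 : (∫ t in a..b, ‖FF X f t‖ ^ 2) = ∫ t : ℝ, ‖FF X f t‖ ^ 2 * (Set.Ioc a b).indicator (fun _ => (1 : ℝ)) t := by
    rw [intervalIntegral.integral_of_le hab, ← integral_indicator measurableSet_Ioc]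
    refine integral_congr_ae (Eventually.of_forall fun t => ?_)
    by_cases ht : t ∈ Set.Ioc a b
    · simp [Set.indicator_of_mem ht]
    · simp [Set.indicator_of_notMem ht]
  obtain ⟨ia, _⟩ := smooth_int X hX f a
  obtain ⟨ib, _⟩ := smooth_int X hX f b
  have h3 : |(∫ t : ℝ, ‖FF X f t‖ ^ 2 * KK X a b t) - ∫ t in a..b, ‖FF X f t‖ ^ 2| ≤
      2 * (Real.sqrt Real.pi * X * (10 * NN X f)) := by
    rw [h2, ← integral_sub hKi hind2, ← Real.norm_eq_abs]
    have hsum : ∫ t : ℝ, (‖FF X f t‖ ^ 2 * Real.exp (-((t - a) / X) ^ 2) +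
        ‖FF X f t‖ ^ 2 * Real.exp (-((t - b) / X) ^ 2)) ≤ 2 * (Real.sqrt Real.pi * X * (10 * NN X f)) := by
      rw [integral_add ia ib]
      have := smooth_le X hX f a
      have := smooth_le X hX f b
      linarith
    refine le_trans ?_ hsum
    refine norm_integral_le_of_norm_le (ia.add ib) (Eventually.of_forall fun t => ?_)
    rw [← mul_sub, norm_mul, Real.norm_eq_abs, Real.norm_eq_abs, abs_of_nonneg (by positivity : 0 ≤ ‖FF X f t‖ ^ 2)]
    rw [← mul_add]
    exact mul_le_mul_of_nonneg_left (KK_diff hX' hab t) (by positivity)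
  have hpi : Real.sqrt Real.pi ≤ 2 := by
    rw [Real.sqrt_le_left (by norm_num)]
    have := Real.pi_le_four
    linarith
  have h4 : 2 * (Real.sqrt Real.pi * X * (10 * NN X f)) ≤ 40 * X * NN X f := by
    have : 0 ≤ X * NN X f := by positivity
    nlinarith
  rw [abs_le] at h1 h3 ⊢
  constructor <;> linarith [h1.1, h1.2, h3.1, h3.2]

end

end Pool.Agent.Q195.EW
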