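import Pool.Agent.Q80.EW.Stm
import Pool.Agent.Q195.EW.GMV

set_option autoImplicit false

/-! Project EW (helper80), job MV: the mean value theorem of Montgomery and Vaughan for the Dirichlet polynomials `dp`. -/

open MeasureTheory Complex Filter
open Pool.Agent.Q80.EW

namespace Pool.Agent.Q195.EW

noncomputable section

/-- the normalised coefficients -/
def nc (f : ArithmeticFunction ℂ) (n : ℕ) : ℂ := f n / ((Real.sqrt n : ℝ) : ℂ)

lemma cpow_half (n : ℕ) (hn : n ≠ 0) (t : ℝ) :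
    (n : ℂ) ^ ((1 / 2 : ℂ) + (t : ℂ) * I) = ((Real.sqrt n : ℝ) : ℂ) * cexp (I * (Real.log n * t : ℝ)) := by
  have hn' : (n : ℂ) ≠ 0 := by exact_mod_cast hn
  have hn0 : (0 : ℝ) < n := by exact_mod_cast Nat.pos_of_ne_zero hn
  rw [Complex.cpow_add _ _ hn']
  congr 1
  · have e2 : (1 / 2 : ℂ) = ((1 / 2 : ℝ) : ℂ) := by push_cast; rfl
    rw [e2, Real.sqrt_eq_rpow, Complex.ofReal_cpow hn0.le]
    rfl
  · rw [Complex.cpow_def_of_ne_zero hn', ← Complex.natCast_log]
    congr 1
    push_cast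
    ring

lemma dp_eq {X : ℕ} {f : ArithmeticFunction ℂ} (h : FS X f) (t : ℝ) : dp f t = FF X (nc f) t := by
  unfold dp LSeries FF
  rw [tsum_eq_sum (s := Finset.Icc 1 X)]
  · refine Finset.sum_congr rfl fun n hn => ?_
    have hn0 : n ≠ 0 := by
      have := Finset.mem_Icc.1 hn
      omega
    have hs : ((Real.sqrt n : ℝ) : ℂ) ≠ 0 := by
      have : (0 : ℝ) < n := by exact_mod_cast Nat.pos_of_ne_zero hn0
      exact_mod_cast (Real.sqrt_pos.2 this).ne'
    rw [LSeries.term_of_ne_zero hn0, cpow_half n hn0, Complex.exp_neg, nc]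
    field_simp
  · intro n hn
    rw [Finset.mem_Icc] at hn
    by_cases hn0 : n = 0
    · simp [hn0]
    · have : f n = 0 := h n (by omega)
      rw [LSeries.term_of_ne_zero hn0, this, zero_div]

lemma nm_eq {X : ℕ} {f : ArithmeticFunction ℂ} (h : FS X f) : nm f = NN X (nc f) := by
  unfold nm NN
  rw [tsum_eq_sum (s := Finset.Icc 1 X)]
  · refine Finset.sum_congr rfl fun n hn => ?_
    rw [nc, norm_div, div_pow, Complex.norm_real, Real.norm_eq_abs, sq_abs, Real.sq_sqrt (Nat.cast_nonneg n)]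
  · intro n hn
    rw [Finset.mem_Icc] at hn
    by_cases hn0 : n = 0
    · simp [hn0]
    · have : f n = 0 := h n (by omega)
      simp [this]

lemma nm_sum {X : ℕ} {f : ArithmeticFunction ℂ} (h : FS X f) : nm f = ∑ n ∈ Finset.Icc 1 X, ‖f n‖ ^ 2 / (n : ℝ) := by
  unfold nm
  rw [tsum_eq_sum (s := Finset.Icc 1 X)]
  intro n hn
  rw [Finset.mem_Icc] at hn
  by_cases hn0 : n = 0
  · simp [hn0]
  · have : f n = 0 := h n (by omega)
    simp [this]

theorem t_MV : J_MV := by
  refine ⟨60, by norm_num, fun X f h a b hab => ?_⟩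
  simp_rw [dp_eq h]
  rw [nm_eq h]
  rcases Nat.eq_zero_or_pos X with h0 | h0
  · subst h0
    simp [FF, NN]
  · exact mean X h0 (nc f) hab

end

end Pool.Agent.Q195.EW
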