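import Pool.Agent.Q80.EW.Stm5

set_option autoImplicit false

/-! Project EWD (helper80), job CEP: complex Euler products. -/

open MeasureTheory Complex Filter
open Pool.Agent.Q80.EW

namespace Pool.Agent.Q195.EW

noncomputable section

lemma norm_one_add (z : ℂ) : ‖1 + z‖ ≤ Real.exp (z.re + ‖z‖ ^ 2 / 2) := by
  have h1 : ‖1 + z‖ ^ 2 = 1 + (2 * z.re + ‖z‖ ^ 2) := by
    rw [← Complex.normSq_eq_norm_sq, ← Complex.normSq_eq_norm_sq, Complex.normSq_apply, Complex.normSq_apply]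
    simp only [Complex.add_re, Complex.add_im, Complex.one_re, Complex.one_im]
    ring
  have h2 : ‖1 + z‖ ^ 2 ≤ Real.exp (z.re + ‖z‖ ^ 2 / 2) ^ 2 := by
    rw [h1, ← Real.exp_nat_mul]
    have := Real.add_one_le_exp (2 * z.re + ‖z‖ ^ 2)
    refine (le_of_eq (by ring)).trans (this.trans (le_of_eq ?_))
    congr 1
    push_cast
    ring
  exact (pow_le_pow_iff_left₀ (norm_nonneg _) (Real.exp_pos _).le two_ne_zero).1 h2

/-- the majorant series -/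
def cs (k : ℕ) : ℝ := ((k : ℝ) + 3) ^ 6 * (1 / 2) ^ k

lemma cs_sum : Summable cs := by
  have h := summable_pow_mul_geometric_of_norm_lt_one (R := ℝ) 6 (r := 1 / 2) (by norm_num)
  have h2 := ((summable_nat_add_iff 3).2 h).mul_left 8
  refine h2.congr fun k => ?_
  unfold cs
  push_cast
  rw [pow_add]
  ring

lemma cs_nonneg (k : ℕ) : 0 ≤ cs k := by unfold cs; positivity

/-- one local factor -/
lemma local_factor {K : ℝ} (hK : 0 < K) {F : ℕ → ℂ} (hF1 : F 1 = 1) {p : ℕ} (hp : p.Prime)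
    (hb : ∀ k : ℕ, ‖F (p ^ k)‖ ≤ K ^ 2 * ((k : ℝ) + 1) ^ 6 / (p : ℝ) ^ k) :
    Summable (fun k : ℕ => ‖F (p ^ k)‖) ∧
    ‖∑' k : ℕ, F (p ^ k)‖ ≤ Real.exp ((F p).re +
      (K ^ 2 * (∑' k, cs k) + (64 * K ^ 2 + K ^ 2 * (∑' k, cs k)) ^ 2 / 2) * ((p : ℝ) ^ 2)⁻¹) := by
  have hp2 : (2 : ℝ) ≤ p := by exact_mod_cast hp.two_le
  have hp0 : (0 : ℝ) < p := by linarith
  set c : ℝ := ∑' k, cs k with hc
  have hc0 : 0 ≤ c := tsum_nonneg cs_nonneg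
  have hb2 : ∀ k : ℕ, ‖F (p ^ (k + 2))‖ ≤ K ^ 2 * ((p : ℝ) ^ 2)⁻¹ * cs k := by
    intro k
    refine (hb (k + 2)).trans ?_
    have h1 : (2 : ℝ) ^ k ≤ (p : ℝ) ^ k := pow_le_pow_left₀ (by norm_num) hp2 k
    have h2 : ((p : ℝ) ^ k)⁻¹ ≤ (1 / 2) ^ k := by
      rw [one_div, inv_pow]
      exact inv_anti₀ (by positivity) h1
    unfold cs
    have e : ((k + 2 : ℕ) : ℝ) + 1 = (k : ℝ) + 3 := by push_cast; ring
    rw [e, pow_add, div_eq_mul_inv, mul_inv]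
    have h3 : K ^ 2 * ((k : ℝ) + 3) ^ 6 * (((p : ℝ) ^ k)⁻¹ * ((p : ℝ) ^ 2)⁻¹) ≤
        K ^ 2 * ((k : ℝ) + 3) ^ 6 * ((1 / 2) ^ k * ((p : ℝ) ^ 2)⁻¹) := by
      refine mul_le_mul_of_nonneg_left (mul_le_mul_of_nonneg_right h2 (by positivity)) (by positivity)
    refine h3.trans (le_of_eq ?_)
    ring
  have hs2 : Summable (fun k : ℕ => ‖F (p ^ (k + 2))‖) :=
    Summable.of_nonneg_of_le (fun _ => norm_nonneg _) hb2 (cs_sum.mul_left _)
  have hs : Summable (fun k : ℕ => ‖F (p ^ k)‖) := (summable_nat_add_iff 2).1 hs2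
  refine ⟨hs, ?_⟩
  have e1 : ∑' k : ℕ, F (p ^ k) = 1 + (F p + ∑' k : ℕ, F (p ^ (k + 2))) := by
    rw [← hs.of_norm.sum_add_tsum_nat_add 2]
    simp [Finset.sum_range_succ, hF1]
    ring
  set R : ℂ := ∑' k : ℕ, F (p ^ (k + 2)) with hR
  have hRb : ‖R‖ ≤ K ^ 2 * c * ((p : ℝ) ^ 2)⁻¹ := by
    refine (norm_tsum_le_tsum_norm hs2).trans ?_
    refine (hs2.tsum_le_tsum hb2 (cs_sum.mul_left _)).trans ?_
    rw [tsum_mul_left]
    exact le_of_eq (by ring)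
  have hFp : ‖F p‖ ≤ 64 * K ^ 2 * (p : ℝ)⁻¹ := by
    have h := hb 1
    rw [pow_one, pow_one] at h
    refine h.trans (le_of_eq ?_)
    have e : (((1 : ℕ) : ℝ) + 1) ^ 6 = 64 := by norm_num
    rw [e, div_eq_mul_inv]
    ring
  rw [e1]
  refine (norm_one_add _).trans (Real.exp_le_exp.2 ?_)
  have hinv : ((p : ℝ) ^ 2)⁻¹ ≤ (p : ℝ)⁻¹ := by
    apply inv_anti₀ hp0
    nlinarith
  have h4 : ‖F p + R‖ ≤ (64 * K ^ 2 + K ^ 2 * c) * (p : ℝ)⁻¹ := by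
    refine (norm_add_le _ _).trans ?_
    have : K ^ 2 * c * ((p : ℝ) ^ 2)⁻¹ ≤ K ^ 2 * c * (p : ℝ)⁻¹ := mul_le_mul_of_nonneg_left hinv (by positivity)
    linarith
  have h5 : ‖F p + R‖ ^ 2 ≤ (64 * K ^ 2 + K ^ 2 * c) ^ 2 * ((p : ℝ) ^ 2)⁻¹ := by
    have := pow_le_pow_left₀ (norm_nonneg _) h4 2
    rwa [mul_pow, inv_pow] at this
  have h6 : (F p + R).re ≤ (F p).re + K ^ 2 * c * ((p : ℝ) ^ 2)⁻¹ := by
    rw [Complex.add_re]
    have := Complex.re_le_norm R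
    linarith
  linarith

theorem t_CEP : J_CEP := by
  intro K hK
  set E : ℝ := K ^ 2 * (∑' k, cs k) + (64 * K ^ 2 + K ^ 2 * (∑' k, cs k)) ^ 2 / 2 with hE
  have hc0 : 0 ≤ ∑' k, cs k := tsum_nonneg cs_nonneg
  have hE0 : 0 ≤ E := by positivity
  refine ⟨E + 1, by linarith, fun Z f g hf hg hsm hbd => ?_⟩
  set F : ℕ → ℂ := fun n => f n * (starRingEnd ℂ) (g n) / (n : ℂ) with hF
  have hF1 : F 1 = 1 := by simp [hF, hf.map_one, hg.map_one]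
  have hFm : ∀ {m n : ℕ}, Nat.Coprime m n → F (m * n) = F m * F n := by
    intro m n hmn
    simp only [hF]
    rw [hf.map_mul_of_coprime hmn, hg.map_mul_of_coprime hmn, map_mul]
    push_cast
    rw [div_mul_div_comm]
    ring
  have hFb : ∀ {p : ℕ}, p.Prime → ∀ k : ℕ, ‖F (p ^ k)‖ ≤ K ^ 2 * ((k : ℝ) + 1) ^ 6 / (p : ℝ) ^ k := by
    intro p hp k
    obtain ⟨h1, h2⟩ := hbd p k hp
    simp only [hF]
    rw [norm_div, norm_mul, RCLike.norm_conj]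
    have e : ‖((p ^ k : ℕ) : ℂ)‖ = (p : ℝ) ^ k := by
      push_cast
      rw [norm_pow, Complex.norm_natCast]
    rw [e]
    apply div_le_div_of_nonneg_right _ (by positivity)
    calc ‖f (p ^ k)‖ * ‖g (p ^ k)‖ ≤ (K * ((k : ℝ) + 1) ^ 3) * (K * ((k : ℝ) + 1) ^ 3) :=
          mul_le_mul h1 h2 (norm_nonneg _) (by positivity)
      _ = _ := by ring
  obtain ⟨_, h2⟩ := EulerProduct.summable_and_hasSum_smoothNumbers_prod_primesBelow_tsum hF1 hFm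
    (fun {p} hp => (local_factor hK hF1 hp (hFb hp)).1) Z
  have hsub : ∑' n : ℕ, F n = ∑' m : Z.smoothNumbers, F m := by
    symm
    apply tsum_subtype_eq_of_support_subset
    intro n hn
    rw [Function.mem_support] at hn
    apply hsm
    intro h0
    apply hn
    simp [hF, h0]
  rw [hsub, h2.tsum_eq, norm_prod]
  have h3 : ∏ p ∈ Z.primesBelow, ‖∑' k : ℕ, F (p ^ k)‖ ≤
      ∏ p ∈ Z.primesBelow, Real.exp ((F p).re + E * ((p : ℝ) ^ 2)⁻¹) :=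
    Finset.prod_le_prod (fun _ _ => norm_nonneg _) fun p hp =>
      (local_factor hK hF1 (Nat.prime_of_mem_primesBelow hp) (hFb (Nat.prime_of_mem_primesBelow hp))).2
  refine h3.trans ?_
  rw [← Real.exp_sum]
  apply Real.exp_le_exp.2
  rw [Finset.sum_add_distrib, ← Finset.mul_sum]
  have h4 : ∑ p ∈ Z.primesBelow, ((p : ℝ) ^ 2)⁻¹ ≤ 1 := by
    have h5 : ∑ p ∈ Z.primesBelow, ((p : ℝ) ^ 2)⁻¹ ≤ ∑ p ∈ Finset.Ioc 1 (Z + 1), ((p : ℝ) ^ 2)⁻¹ := by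
      refine Finset.sum_le_sum_of_subset_of_nonneg ?_ fun _ _ _ => by positivity
      intro p hp
      have h3 := Nat.prime_of_mem_primesBelow hp
      have h4 := Nat.lt_of_mem_primesBelow hp
      rw [Finset.mem_Ioc]
      exact ⟨h3.one_lt, by omega⟩
    have h6 := sum_Ioc_inv_sq_le_sub (α := ℝ) (k := 1) (n := Z + 1) one_ne_zero (by omega)
    have h7 : (0 : ℝ) ≤ ((Z + 1 : ℕ) : ℝ)⁻¹ := by positivity
    have h8 : ((1 : ℕ) : ℝ)⁻¹ = 1 := by simp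
    linarith
  have h5 : ∑ p ∈ Z.primesBelow, (F p).re = ∑ p ∈ Z.primesBelow, (f p * (starRingEnd ℂ) (g p)).re / (p : ℝ) := by
    refine Finset.sum_congr rfl fun p _ => ?_
    simp only [hF]
    rw [← Complex.ofReal_natCast, Complex.div_ofReal_re]
  rw [h5]
  have h6 := mul_le_mul_of_nonneg_left h4 hE0
  linarith

end

end Pool.Agent.Q195.EW
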