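import Pool.Agent.Q195.EW.MV

set_option autoImplicit false

/-! Project EW (helper80): smooth and rough parts. -/

open Pool.Agent.Q80.EW

namespace Pool.Agent.Q195.EW

noncomputable section

/-- no prime factor is smaller than `Z` -/
def Rg (Z b : ℕ) : Prop := b ≠ 0 ∧ ∀ p : ℕ, p.Prime → p ∣ b → Z ≤ p

lemma dec (Z : ℕ) : ∀ n : ℕ, n ≠ 0 → ∃ a b : ℕ, a ∈ Nat.smoothNumbers Z ∧ Rg Z b ∧ a * b = n := by
  intro n
  induction n using induction_on_primes with
  | zero => intro h; exact absurd rfl h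
  | one =>
    intro _
    refine ⟨1, 1, ?_, ⟨one_ne_zero, fun p hp h => ?_⟩, rfl⟩
    · rw [Nat.mem_smoothNumbers']
      intro p hp h
      exact absurd (Nat.dvd_one.1 h) hp.one_lt.ne'
    · exact absurd (Nat.dvd_one.1 h) hp.one_lt.ne'
  | prime_mul p m hp ih =>
    intro h
    have hm : m ≠ 0 := by
      rintro rfl
      exact h (by simp)
    obtain ⟨a, b, ha, hb, hab⟩ := ih hm
    by_cases hpZ : p < Z
    · refine ⟨p * a, b, ?_, hb, by rw [mul_assoc, hab]⟩
      refine Nat.mul_mem_smoothNumbers ?_ ha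
      rw [Nat.mem_smoothNumbers']
      intro q hq hqp
      rwa [(Nat.prime_dvd_prime_iff_eq hq hp).1 hqp]
    · refine ⟨a, p * b, ha, ⟨mul_ne_zero hp.ne_zero hb.1, fun q hq hqp => ?_⟩, by rw [← hab]; ring⟩
      rcases (Nat.Prime.dvd_mul hq).1 hqp with h1 | h1
      · rw [(Nat.prime_dvd_prime_iff_eq hq hp).1 h1]
        omega
      · exact hb.2 q hq h1

lemma cop {Z a b : ℕ} (ha : a ∈ Nat.smoothNumbers Z) (hb : Rg Z b) : Nat.Coprime a b := by
  apply Nat.Coprime.symm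
  apply Nat.coprime_of_dvd
  intro p hp h1 h2
  have := hb.2 p hp h1
  have := Nat.mem_smoothNumbers'.1 ha p hp h2
  omega

lemma uniq {Z a b a' b' : ℕ} (ha : a ∈ Nat.smoothNumbers Z) (hb : Rg Z b) (ha' : a' ∈ Nat.smoothNumbers Z)
    (hb' : Rg Z b') (h : a * b = a' * b') : a = a' ∧ b = b' := by
  have h1 : a ∣ a' := (cop ha hb').dvd_of_dvd_mul_right ⟨b, h.symm⟩
  have h2 : a' ∣ a := (cop ha' hb).dvd_of_dvd_mul_right ⟨b', h⟩
  have h3 : a = a' := Nat.dvd_antisymm h1 h2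
  subst h3
  exact ⟨rfl, Nat.eq_of_mul_eq_mul_left (Nat.pos_of_ne_zero ha.1) h⟩

/-- the polynomial `A' R` -/
def DD (l Z X : ℕ) : ArithmeticFunction ℂ := tr l (sm Z) * ro Z X

lemma sm_apply (Z n : ℕ) [Decidable (n ∈ Nat.smoothNumbers Z)] : sm Z n = if n ∈ Nat.smoothNumbers Z then 1 else 0 := by
  unfold sm
  simp only [ArithmeticFunction.coe_mk]
  congr

lemma ro_apply (Z X n : ℕ) [Decidable (Rg Z n ∧ n ≤ X)] : ro Z X n = if Rg Z n ∧ n ≤ X then 1 else 0 := by
  classical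
  unfold ro
  simp only [ArithmeticFunction.coe_mk]
  by_cases h : Rg Z n ∧ n ≤ X
  · rw [if_pos h, if_pos ⟨h.1.1, h.2, h.1.2⟩]
  · rw [if_neg h, if_neg]
    rintro ⟨h1, h2, h3⟩
    exact h ⟨⟨h1, h3⟩, h2⟩

open scoped Classical in
lemma DD_val {l Z X a b : ℕ} (ha : a ∈ Nat.smoothNumbers Z) (hb : Rg Z b) :
    DD l Z X (a * b) = if ArithmeticFunction.cardFactors a ≤ l ∧ b ≤ X then 1 else 0 := by
  unfold DD
  rw [ArithmeticFunction.mul_apply, Finset.sum_eq_single (a, b)]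
  · simp only
    unfold tr
    simp only [ArithmeticFunction.coe_mk]
    rw [sm_apply, ro_apply, if_pos ha]
    by_cases h1 : ArithmeticFunction.cardFactors a ≤ l
    · by_cases h2 : b ≤ X
      · rw [if_pos h1, if_pos ⟨hb, h2⟩, if_pos ⟨h1, h2⟩, mul_one]
      · rw [if_pos h1, if_neg (fun h => h2 h.2), if_neg (fun h => h2 h.2), mul_zero]
    · rw [if_neg h1, zero_mul, if_neg]
      rintro ⟨h2, _⟩
      exact h1 h2
  · rintro ⟨c, d⟩ hcd hne
    rw [Nat.mem_divisorsAntidiagonal] at hcd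
    simp only at hcd ⊢
    by_cases hc : c ∈ Nat.smoothNumbers Z
    · by_cases hd : Rg Z d
      · exfalso
        obtain ⟨e1, e2⟩ := uniq hc hd ha hb hcd.1
        exact hne (by rw [e1, e2])
      · rw [ro_apply, if_neg (fun h => hd h.1), mul_zero]
    · unfold tr
      simp only [ArithmeticFunction.coe_mk]
      rw [sm_apply, if_neg hc, ite_self, zero_mul]
  · intro h
    exfalso
    apply h
    rw [Nat.mem_divisorsAntidiagonal]
    exact ⟨rfl, mul_ne_zero ha.1 hb.1⟩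

lemma DD_01 (l Z X n : ℕ) : DD l Z X n = 0 ∨ DD l Z X n = 1 := by
  classical
  rcases eq_or_ne n 0 with rfl | hn
  · left; simp
  · obtain ⟨a, b, ha, hb, rfl⟩ := dec Z n hn
    rw [DD_val ha hb]
    split_ifs
    · right; rfl
    · left; rfl

lemma smooth_le_pow {Z : ℕ} : ∀ a : ℕ, a ∈ Nat.smoothNumbers Z → a ≤ Z ^ ArithmeticFunction.cardFactors a := by
  intro a
  induction a using induction_on_primes with
  | zero => intro h; exact absurd rfl h.1
  | one => intro _; simp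
  | prime_mul p m hp ih =>
    intro h
    have hm : m ∈ Nat.smoothNumbers Z := Nat.mem_smoothNumbers_of_dvd h (dvd_mul_left m p)
    have hpZ : p < Z := Nat.mem_smoothNumbers'.1 h p hp (dvd_mul_right p m)
    rw [ArithmeticFunction.cardFactors_mul hp.ne_zero hm.1, ArithmeticFunction.cardFactors_apply_prime hp, pow_add, pow_one]
    exact Nat.mul_le_mul hpZ.le (ih hm)

lemma DD_FS {l Z X : ℕ} (hZ : 1 ≤ Z) : FS (Z ^ l * X) (DD l Z X) := by
  classical
  intro n hn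
  rcases eq_or_ne n 0 with rfl | hn0
  · simp
  · obtain ⟨a, b, ha, hb, rfl⟩ := dec Z n hn0
    rw [DD_val ha hb, if_neg]
    rintro ⟨h1, h2⟩
    have h3 := smooth_le_pow a ha
    have h4 : Z ^ ArithmeticFunction.cardFactors a ≤ Z ^ l := Nat.pow_le_pow_right hZ h1
    have : a * b ≤ Z ^ l * X := Nat.mul_le_mul (h3.trans h4) h2
    omega

/-- the harmonic sum of the rough numbers -/
lemma rough_sum (Z X : ℕ) (hZ : 2 ≤ Z) :
    nm (ro Z X) * Real.log Z ≤ 1 + Real.log (Z * X : ℕ) := by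
  classical
  have hFS : FS X (ro Z X) := by
    intro n hn
    rw [ro_apply, if_neg (by rintro ⟨_, h⟩; omega)]
  rw [nm_sum hFS]
  have e1 : ∑ n ∈ Finset.Icc 1 X, ‖ro Z X n‖ ^ 2 / (n : ℝ) = ∑ b ∈ (Finset.Icc 1 X).filter (Rg Z), (1 : ℝ) / b := by
    rw [Finset.sum_filter]
    refine Finset.sum_congr rfl fun n hn => ?_
    rw [Finset.mem_Icc] at hn
    rw [ro_apply]
    by_cases h : Rg Z n
    · rw [if_pos ⟨h, hn.2⟩, if_pos h]; simp
    · rw [if_neg (fun h' => h h'.1), if_neg h]; simp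
  rw [e1]
  have h1 : Real.log Z ≤ ∑ a ∈ Finset.Icc 1 (Z - 1), (1 : ℝ) / a := by
    have h := log_add_one_le_harmonic (Z - 1)
    have e : Z - 1 + 1 = Z := by omega
    rw [e] at h
    refine h.trans (le_of_eq ?_)
    rw [harmonic_eq_sum_Icc]
    push_cast
    refine Finset.sum_congr rfl fun _ _ => by simp
  have h2 : (∑ b ∈ (Finset.Icc 1 X).filter (Rg Z), (1 : ℝ) / b) * ∑ a ∈ Finset.Icc 1 (Z - 1), (1 : ℝ) / a ≤
      ∑ n ∈ Finset.Icc 1 (Z * X), (1 : ℝ) / n := by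
    rw [Finset.sum_mul_sum, ← Finset.sum_product']
    have e3 : ∑ x ∈ (Finset.Icc 1 X).filter (Rg Z) ×ˢ Finset.Icc 1 (Z - 1), (1 : ℝ) / x.1 * (1 / x.2) =
        ∑ n ∈ ((Finset.Icc 1 X).filter (Rg Z) ×ˢ Finset.Icc 1 (Z - 1)).image (fun x => x.2 * x.1), (1 : ℝ) / n := by
      rw [Finset.sum_image]
      · refine Finset.sum_congr rfl fun x _ => ?_
        push_cast
        rw [one_div_mul_one_div, mul_comm]
      · rintro ⟨b, a⟩ h ⟨b', a'⟩ h' he
        simp only [Finset.coe_product, Set.mem_prod, Finset.mem_coe, Finset.mem_filter, Finset.mem_Icc] at h h' he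
        have ha : a ∈ Nat.smoothNumbers Z := Nat.mem_smoothNumbers_of_lt (by omega) (by omega)
        have ha' : a' ∈ Nat.smoothNumbers Z := Nat.mem_smoothNumbers_of_lt (by omega) (by omega)
        obtain ⟨e1, e2⟩ := uniq ha h.1.2 ha' h'.1.2 he
        rw [e1, e2]
    rw [e3]
    refine Finset.sum_le_sum_of_subset_of_nonneg ?_ fun _ _ _ => by positivity
    intro n hn
    simp only [Finset.mem_image, Finset.mem_product, Finset.mem_filter, Finset.mem_Icc] at hn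
    obtain ⟨⟨b, a⟩, ⟨⟨⟨hb1, hb2⟩, _⟩, ha1, ha2⟩, rfl⟩ := hn
    rw [Finset.mem_Icc]
    exact ⟨Nat.mul_pos (by omega) (by omega), Nat.mul_le_mul (by omega) hb2⟩
  have h3 : ∑ n ∈ Finset.Icc 1 (Z * X), (1 : ℝ) / n ≤ 1 + Real.log (Z * X : ℕ) := by
    have h := harmonic_le_one_add_log (Z * X)
    rw [harmonic_eq_sum_Icc] at h
    push_cast at h ⊢
    simpa using h
  have h4 : 0 ≤ ∑ b ∈ (Finset.Icc 1 X).filter (Rg Z), (1 : ℝ) / b := Finset.sum_nonneg fun _ _ => by positivity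
  exact (mul_le_mul_of_nonneg_left h1 h4).trans (h2.trans h3)

end

end Pool.Agent.Q195.EW
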