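import Pool.Agent.Q80.EW.Stm5

set_option autoImplicit false

/-! Project EWD (helper80), job ETc: the truncated exponential against the exponential, complex form. -/

open Filter Topology
open Pool.Agent.Q80.EW

namespace Pool.Agent.Q195.EW

theorem exp21 : Real.exp (21 / 10) ≤ 10 := by
  have h1 := Real.exp_one_lt_d9
  have e : Real.exp (21 / 10) = Real.exp 1 ^ 2 * Real.exp (1 / 10) := by
    rw [← Real.exp_nat_mul, ← Real.exp_add]; norm_num
  have h2 : Real.exp (1 / 10) ≤ 10 / 9 := by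
    have h3 := Real.add_one_le_exp (-(1 / 10 : ℝ))
    have h4 : Real.exp (1 / 10) * Real.exp (-(1 / 10)) = 1 := by rw [← Real.exp_add]; simp
    have h5 := Real.exp_pos (1 / 10 : ℝ)
    nlinarith
  have h3 : Real.exp 1 ^ 2 ≤ 7.4 := by
    have := Real.exp_pos 1
    nlinarith
  rw [e]
  have := Real.exp_pos (1 / 10 : ℝ)
  nlinarith

theorem etc_all (l : ℕ) (w : ℂ) (hw : ‖w‖ ≤ (l : ℝ) / 10) :
    ‖eT l w - Complex.exp w‖ ≤ Real.exp (-(l : ℝ)) * ‖Complex.exp w‖ := by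
  have hl : (0 : ℝ) ≤ l := Nat.cast_nonneg l
  have h1 : ‖Complex.exp w - eT l w‖ ≤ ‖w‖ ^ (l + 1) / ((l + 1).factorial : ℝ) * 2 := by
    unfold eT
    apply Complex.exp_bound'
    rw [div_le_iff₀ (by positivity)]
    push_cast
    linarith
  have h2 : ‖w‖ ^ (l + 1) / ((l + 1).factorial : ℝ) ≤ (1 / 10) ^ (l + 1) * Real.exp l := by
    have h3 := Real.pow_div_factorial_le_exp (l : ℝ) hl (l + 1)
    have h4 : ‖w‖ ^ (l + 1) ≤ ((l : ℝ) / 10) ^ (l + 1) := pow_le_pow_left₀ (norm_nonneg _) hw _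
    have e : ((l : ℝ) / 10) ^ (l + 1) = (1 / 10) ^ (l + 1) * (l : ℝ) ^ (l + 1) := by
      rw [← mul_pow]; ring
    rw [e] at h4
    calc ‖w‖ ^ (l + 1) / ((l + 1).factorial : ℝ) ≤ (1 / 10) ^ (l + 1) * (l : ℝ) ^ (l + 1) / ((l + 1).factorial : ℝ) :=
          div_le_div_of_nonneg_right h4 (by positivity)
      _ = (1 / 10) ^ (l + 1) * ((l : ℝ) ^ (l + 1) / ((l + 1).factorial : ℝ)) := by ring
      _ ≤ _ := mul_le_mul_of_nonneg_left h3 (by positivity)
  have h5 : Real.exp (-(l : ℝ) / 10) ≤ ‖Complex.exp w‖ := by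
    rw [Complex.norm_exp]
    apply Real.exp_le_exp.2
    have := (abs_le.1 (Complex.abs_re_le_norm w)).1
    linarith
  rw [norm_sub_rev]
  refine h1.trans ?_
  have h6 : (1 / 10 : ℝ) ^ (l + 1) * Real.exp l * 2 ≤ Real.exp (-(l : ℝ)) * Real.exp (-(l : ℝ) / 10) := by
    have h7 : Real.exp (21 / 10) ^ l ≤ 10 ^ l := pow_le_pow_left₀ (Real.exp_pos _).le exp21 l
    have e1 : Real.exp (21 / 10) ^ l = Real.exp l * (Real.exp l * Real.exp ((l : ℝ) / 10)) := by
      rw [← Real.exp_nat_mul, ← Real.exp_add, ← Real.exp_add]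
      congr 1
      ring
    have e2 : Real.exp (-(l : ℝ)) * Real.exp (-(l : ℝ) / 10) = (Real.exp l * Real.exp ((l : ℝ) / 10))⁻¹ := by
      rw [← Real.exp_add, ← Real.exp_add, ← Real.exp_neg]
      congr 1
      ring
    rw [e2, one_div, inv_pow, inv_mul_eq_div, div_mul_eq_mul_div]
    rw [div_le_iff₀ (by positivity), inv_mul_eq_div, le_div_iff₀ (by positivity)]
    rw [e1] at h7
    have h8 : (10 : ℝ) ^ (l + 1) = 10 * 10 ^ l := by ring
    rw [h8]
    have h9 : (0 : ℝ) < 10 ^ l := by positivity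
    nlinarith
  calc ‖w‖ ^ (l + 1) / ((l + 1).factorial : ℝ) * 2 ≤ (1 / 10) ^ (l + 1) * Real.exp l * 2 := by linarith
    _ ≤ Real.exp (-(l : ℝ)) * Real.exp (-(l : ℝ) / 10) := h6
    _ ≤ _ := mul_le_mul_of_nonneg_left h5 (Real.exp_pos _).le

theorem t_ETc : J_ETc := Eventually.of_forall fun l w hw => etc_all l w hw

end Pool.Agent.Q195.EW
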