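import Pool.Agent.Q195.EW.Rk

set_option autoImplicit false

/-! Project EW (helper80): the scales. -/

open Pool.Agent.Q80.EW Filter Topology

namespace Pool.Agent.Q195.EW

noncomputable section

lemma La_tendsto : Tendsto La atTop atTop := Real.tendsto_log_atTop.comp Real.tendsto_log_atTop

/-- the basic facts at the scale `T` -/
structure Sca (T : ℝ) : Prop where
  T1 : 1 < T
  L1 : 1 ≤ Real.log T
  La1 : 1 ≤ La T
  eL : Real.exp (La T) = Real.log T
  Y0 : 0 ≤ Yt T
  YL : Yt T ≤ La T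
  zlow : Real.log T / La T ^ 2 ≤ Real.log (zc (Yt T))
  zup : Real.log (zc (Yt T)) ≤ Real.log T / La T ^ 2 + 1
  z2 : 2 ≤ zc (Yt T)
  llow : 400 * La T ≤ el T
  lup : (el T : ℝ) ≤ 401 * La T

lemma sca : ∀ᶠ T : ℝ in atTop, Sca T := by
  filter_upwards [eventually_gt_atTop 1, Real.tendsto_log_atTop.eventually_ge_atTop 1,
    La_tendsto.eventually_ge_atTop 1] with T h1 h2 h3
  have hL0 : 0 < Real.log T := by linarith
  have hl0 : 0 < La T := by linarith
  have eL : Real.exp (La T) = Real.log T := Real.exp_log hL0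
  have hlog : Real.log (La T) ≤ La T / 2 := by
    have e : Real.log (La T) = Real.log (La T / 2) + Real.log 2 := by
      rw [Real.log_div hl0.ne' (by norm_num)]; ring
    have h4 := Real.log_le_sub_one_of_pos (x := La T / 2) (by positivity)
    have h5 := Real.log_two_lt_d9
    linarith
  have hlog0 : 0 ≤ Real.log (La T) := Real.log_nonneg h3
  have hY : Real.exp (Yt T) = Real.log T / La T ^ 2 := by
    unfold Yt
    rw [Real.exp_sub, eL]
    congr 1
    rw [two_mul, Real.exp_add, Real.exp_log hl0]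
    ring
  have hE1 : 1 < Real.exp (Real.exp (Yt T)) := by
    rw [Real.one_lt_exp_iff]
    exact Real.exp_pos _
  have hz1 : Real.exp (Real.exp (Yt T)) ≤ (zc (Yt T) : ℝ) := Nat.le_ceil _
  have hz2 : (zc (Yt T) : ℝ) < Real.exp (Real.exp (Yt T)) + 1 := Nat.ceil_lt_add_one (by linarith)
  refine ⟨h1, h2, h3, eL, ?_, ?_, ?_, ?_, ?_, ?_, ?_⟩
  · unfold Yt; linarith
  · unfold Yt; linarith
  · have := Real.log_le_log (by positivity) hz1
    rwa [Real.log_exp, hY] at this
  · have h6 : (zc (Yt T) : ℝ) ≤ 2 * Real.exp (Real.exp (Yt T)) := by linarith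
    have := Real.log_le_log (by linarith) h6
    rw [Real.log_mul (by norm_num) (by positivity), Real.log_exp, hY] at this
    have h5 := Real.log_two_lt_d9
    linarith
  · have h : (1 : ℝ) < (zc (Yt T) : ℝ) := by linarith
    exact_mod_cast h
  · exact Nat.le_ceil _
  · have : (el T : ℝ) < 400 * La T + 1 := Nat.ceil_lt_add_one (by positivity)
    linarith

/-- `l log Z` is small -/
lemma llz {ε : ℝ} (hε : 0 < ε) : ∀ᶠ T : ℝ in atTop, (el T : ℝ) * Real.log (zc (Yt T)) ≤ ε * Real.log T := by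
  filter_upwards [sca, La_tendsto.eventually_ge_atTop (1604 / ε)] with T h hA
  have hl0 : 0 < La T := by linarith [h.La1]
  have hL0 : 0 < Real.log T := by linarith [h.L1]
  rw [div_le_iff₀ hε] at hA
  have hq : La T ^ 2 / 2 ≤ Real.log T := by
    rw [← h.eL]
    have := Real.quadratic_le_exp_of_nonneg hl0.le
    linarith
  have hz0 : 0 ≤ Real.log T / La T ^ 2 + 1 := by positivity
  calc (el T : ℝ) * Real.log (zc (Yt T)) ≤ (401 * La T) * (Real.log T / La T ^ 2 + 1) := by
        refine mul_le_mul h.lup h.zup ?_ (by positivity)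
        exact Real.log_natCast_nonneg _
    _ = 401 * (Real.log T / La T) + 401 * La T := by
        field_simp
    _ ≤ ε / 2 * Real.log T + ε / 2 * Real.log T := by
        refine add_le_add ?_ ?_
        · rw [mul_div_assoc', div_le_iff₀ hl0]
          have : 401 ≤ ε / 2 * La T := by linarith
          nlinarith
        · nlinarith
    _ = ε * Real.log T := by ring

lemma Nt_le {η T : ℝ} (hT : 1 < T) : (Nt η T : ℝ) ≤ T ^ (1 / 2 - 2 * η) :=
  Nat.floor_le (Real.rpow_nonneg (by linarith) _)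

lemma Nt_pos {η T : ℝ} (hT : 1 < T) (hη : η ≤ 1 / 100) : 1 ≤ Nt η T := by
  unfold Nt
  rw [Nat.one_le_floor_iff]
  exact Real.one_le_rpow hT.le (by linarith)

lemma log_Nt_le {η T : ℝ} (hT : 1 < T) (hη : η ≤ 1 / 100) : Real.log (Nt η T) ≤ (1 / 2 - 2 * η) * Real.log T := by
  have h := Real.log_le_log (by exact_mod_cast Nt_pos hT hη) (Nt_le (η := η) hT)
  rwa [Real.log_rpow (by linarith)] at h

lemma le_log_Nt {η T : ℝ} (hT : 1 < T) : (1 / 2 - 2 * η) * Real.log T ≤ Real.log ((Nt η T : ℝ) + 1) := by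
  have h : T ^ (1 / 2 - 2 * η) ≤ (Nt η T : ℝ) + 1 := (Nat.lt_floor_add_one _).le
  have h2 := Real.log_le_log (Real.rpow_pos_of_pos (by linarith) _) h
  rwa [Real.log_rpow (by linarith)] at h2

lemma dd_eq (η T : ℝ) : dd η T = DD (el T) (zc (Yt T)) (Nt η T) := rfl

/-- the missing terms up to `Nt` -/
lemma miss {η : ℝ} (hη0 : 0 < η) (hη : η ≤ 1 / 100) : ∀ᶠ T : ℝ in atTop,
    ∑ n ∈ Finset.Icc 1 (Nt η T), (1 - ‖dd η T n‖) / (n : ℝ) ≤ 1 := by
  obtain ⟨C, hC⟩ := t_MERT
  filter_upwards [sca, La_tendsto.eventually_ge_atTop (2 * |C| + 6)] with T h hA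
  rw [dd_eq]
  refine (missing _ _ _).trans ?_
  have hV : ∑ p ∈ (zc (Yt T)).primesBelow, (1 : ℝ) / p ≤ La T + |C| := by
    have h1 := (abs_le.1 (hC _ h.Y0)).2
    have h2 := le_abs_self C
    have h3 := h.YL
    have : ∑ p ∈ (zc (Yt T)).primesBelow, (1 : ℝ) / p = VV (Yt T) := rfl
    linarith
  have h45 : (4 / 5 : ℝ) ^ (el T) ≤ Real.exp (-(80 * La T)) := by
    have e1 : (4 / 5 : ℝ) ≤ Real.exp (-(1 / 5 : ℝ)) := by
      have := Real.add_one_le_exp (-(1 / 5 : ℝ))
      linarith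
    calc (4 / 5 : ℝ) ^ (el T) ≤ Real.exp (-(1 / 5 : ℝ)) ^ (el T) := pow_le_pow_left₀ (by norm_num) e1 _
      _ = Real.exp ((el T : ℝ) * (-(1 / 5 : ℝ))) := by rw [← Real.exp_nat_mul]
      _ ≤ _ := by
        apply Real.exp_le_exp.2
        have := h.llow
        linarith
  have hX : 1 + Real.log (Nt η T) ≤ Real.exp (La T + 1) := by
    have h1 := log_Nt_le h.T1 hη
    have h2 : (1 / 2 - 2 * η) * Real.log T ≤ Real.log T := by
      have := h.L1
      nlinarith
    have h3 : Real.exp (La T + 1) = Real.log T * Real.exp 1 := by rw [Real.exp_add, h.eL]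
    have h4 := Real.exp_one_gt_d9
    rw [h3]
    have := h.L1
    nlinarith
  have hXn : 0 ≤ 1 + Real.log (Nt η T) := by
    have := Real.log_natCast_nonneg (Nt η T)
    linarith
  calc (4 / 5 : ℝ) ^ (el T) * Real.exp (5 / 4 * ∑ p ∈ (zc (Yt T)).primesBelow, (1 : ℝ) / p + 5) *
        (1 + Real.log (Nt η T)) ≤
      Real.exp (-(80 * La T)) * Real.exp (5 / 4 * (La T + |C|) + 5) * Real.exp (La T + 1) := by
        refine mul_le_mul (mul_le_mul h45 (Real.exp_le_exp.2 (by linarith)) (Real.exp_pos _).le (Real.exp_pos _).le)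
          hX hXn (by positivity)
    _ = Real.exp (-(80 * La T) + (5 / 4 * (La T + |C|) + 5) + (La T + 1)) := by
        rw [← Real.exp_add, ← Real.exp_add]
    _ ≤ 1 := by
        rw [Real.exp_le_one_iff]
        have := abs_nonneg C
        linarith

lemma harm_up (N : ℕ) : ∑ n ∈ Finset.Icc 1 N, (1 : ℝ) / n ≤ 1 + Real.log N := by
  have h := harmonic_le_one_add_log N
  rw [harmonic_eq_sum_Icc] at h
  push_cast at h ⊢
  simpa using h

lemma harm_low (N : ℕ) : Real.log ((N : ℝ) + 1) ≤ ∑ n ∈ Finset.Icc 1 N, (1 : ℝ) / n := by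
  have h := log_add_one_le_harmonic N
  rw [harmonic_eq_sum_Icc] at h
  push_cast at h ⊢
  simpa using h

theorem t_DD : J_DD := by
  intro η hη0 hη
  filter_upwards [sca, llz hη0, miss hη0 hη, Real.tendsto_log_atTop.eventually_ge_atTop (1 / η)] with T h h2 h3 h4
  have hT0 : 0 < T := by linarith [h.T1]
  have hz0 : (0 : ℝ) < zc (Yt T) := by
    have := h.z2
    exact_mod_cast (by omega : 0 < zc (Yt T))
  refine ⟨fun n => DD_01 _ _ _ n, ?_, ?_⟩
  · intro n hn
    apply DD_FS (l := el T) (Z := zc (Yt T)) (X := Nt η T) (by linarith [h.z2])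
    have h5 : (((zc (Yt T)) ^ (el T) * Nt η T : ℕ) : ℝ) ≤ T ^ (1 / 2 - η) := by
      push_cast
      have e : T ^ (1 / 2 - η) = T ^ η * T ^ (1 / 2 - 2 * η) := by
        rw [← Real.rpow_add hT0]; congr 1; ring
      rw [e]
      refine mul_le_mul ?_ (Nt_le h.T1) (Nat.cast_nonneg _) (Real.rpow_nonneg hT0.le _)
      rw [← Real.rpow_natCast, Real.rpow_def_of_pos hz0, Real.rpow_def_of_pos hT0]
      apply Real.exp_le_exp.2
      linarith
    have h6 : (((zc (Yt T)) ^ (el T) * Nt η T : ℕ) : ℝ) < n := h5.trans_lt hn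
    exact_mod_cast h6
  · set N := ⌊Real.sqrt T⌋₊ with hN
    have hXN : Nt η T ≤ N := by
      unfold Nt
      rw [hN]
      apply Nat.floor_le_floor
      rw [Real.sqrt_eq_rpow]
      exact Real.rpow_le_rpow_of_exponent_le h.T1.le (by linarith)
    have h01 : ∀ n, ‖dd η T n‖ = 0 ∨ ‖dd η T n‖ = 1 := by
      intro n
      rcases DD_01 (el T) (zc (Yt T)) (Nt η T) n with h | h
      · left; rw [dd_eq, h, norm_zero]
      · right; rw [dd_eq, h, norm_one]
    have hsplit : Finset.Icc 1 N = Finset.Icc 1 (Nt η T) ∪ Finset.Icc (Nt η T + 1) N := by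
      ext n
      simp only [Finset.mem_union, Finset.mem_Icc]
      omega
    have hdisj : Disjoint (Finset.Icc 1 (Nt η T)) (Finset.Icc (Nt η T + 1) N) := by
      rw [Finset.disjoint_left]
      intro n hn hn'
      rw [Finset.mem_Icc] at hn hn'
      omega
    rw [hsplit, Finset.sum_union hdisj]
    have h5 : ∑ n ∈ Finset.Icc (Nt η T + 1) N, (1 - ‖dd η T n‖) / (n : ℝ) ≤ ∑ n ∈ Finset.Icc (Nt η T + 1) N, (1 : ℝ) / n := by
      refine Finset.sum_le_sum fun n _ => ?_
      apply div_le_div_of_nonneg_right _ (Nat.cast_nonneg n)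
      rcases h01 n with h | h <;> rw [h] <;> norm_num
    have h6 : ∑ n ∈ Finset.Icc (Nt η T + 1) N, (1 : ℝ) / n =
        ∑ n ∈ Finset.Icc 1 N, (1 : ℝ) / n - ∑ n ∈ Finset.Icc 1 (Nt η T), (1 : ℝ) / n := by
      rw [hsplit, Finset.sum_union hdisj]; ring
    have h7 := harm_up N
    have h8 := harm_low (Nt η T)
    have h9 := le_log_Nt (η := η) h.T1
    have h10 : Real.log N ≤ 1 / 2 * Real.log T := by
      have hN1 : (1 : ℝ) ≤ N := by
        have : 1 ≤ N := (Nt_pos h.T1 hη).trans hXN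
        exact_mod_cast this
      have h11 : (N : ℝ) ≤ Real.sqrt T := Nat.floor_le (Real.sqrt_nonneg _)
      have := Real.log_le_log (by linarith) h11
      rwa [Real.log_sqrt hT0.le, div_eq_mul_one_div, mul_comm] at this
    rw [div_le_iff₀ hη0] at h4
    nlinarith

theorem t_RHO : J_RHO := by
  refine ⟨3, fun η hη0 hη => ?_⟩
  filter_upwards [sca] with T h
  have hl0 : 0 < La T := by linarith [h.La1]
  have hL0 : 0 < Real.log T := by linarith [h.L1]
  have h1 := rough_sum (zc (Yt T)) (Nt η T) h.z2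
  have hz0 : (0 : ℝ) < zc (Yt T) := by
    have := h.z2
    exact_mod_cast (by omega : 0 < zc (Yt T))
  have hN0 : (0 : ℝ) < Nt η T := by exact_mod_cast Nt_pos h.T1 hη
  rw [Nat.cast_mul, Real.log_mul hz0.ne' hN0.ne'] at h1
  have h2 := log_Nt_le h.T1 hη
  have hlz : 0 < Real.log (zc (Yt T)) := lt_of_lt_of_le (by positivity) h.zlow
  have h3 : Real.log (Nt η T) ≤ Real.log T := by nlinarith
  have hlow := h.zlow
  rw [div_le_iff₀ (by positivity)] at hlow
  have hla : 1 ≤ La T ^ 2 := one_le_pow₀ h.La1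
  have h4 : nm (ro (zc (Yt T)) (Nt η T)) * Real.log (zc (Yt T)) ≤ 3 * La T ^ 2 * Real.log (zc (Yt T)) := by
    have hL1 := h.L1
    nlinarith
  exact le_of_mul_le_mul_right h4 hlz

theorem t_MASS : J_MASS := by
  intro η hη0 hη
  rw [Metric.tendsto_nhds]
  intro ε hε
  filter_upwards [sca, llz (half_pos hε), miss hη0 hη, Real.tendsto_log_atTop.eventually_ge_atTop (3 / ε)] with T h h2 h3 h4
  have hT0 : 0 < T := by linarith [h.T1]
  have hL0 : 0 < Real.log T := by linarith [h.L1]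
  have hz0 : (0 : ℝ) < zc (Yt T) := by
    have := h.z2
    exact_mod_cast (by omega : 0 < zc (Yt T))
  have hN0 : (0 : ℝ) < Nt η T := by exact_mod_cast Nt_pos h.T1 hη
  have h01 : ∀ n, ‖dd η T n‖ = 0 ∨ ‖dd η T n‖ = 1 := by
    intro n
    rcases DD_01 (el T) (zc (Yt T)) (Nt η T) n with h | h
    · left; rw [dd_eq, h, norm_zero]
    · right; rw [dd_eq, h, norm_one]
  have hFS : FS ((zc (Yt T)) ^ (el T) * Nt η T) (dd η T) := DD_FS (by linarith [h.z2])
  have e1 := nm_sum hFS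
  have hup : nm (dd η T) ≤ 1 + (el T * Real.log (zc (Yt T)) + Real.log (Nt η T)) := by
    rw [e1]
    have h5 := harm_up ((zc (Yt T)) ^ (el T) * Nt η T)
    push_cast at h5
    rw [Real.log_mul (by positivity) hN0.ne', Real.log_pow] at h5
    refine le_trans (Finset.sum_le_sum fun n _ => ?_) h5
    apply div_le_div_of_nonneg_right _ (Nat.cast_nonneg n)
    rcases h01 n with h | h <;> rw [h] <;> norm_num
  have hlow : (1 / 2 - 2 * η) * Real.log T - 1 ≤ nm (dd η T) := by
    rw [e1]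
    have h8 := harm_low (Nt η T)
    have h9 := le_log_Nt (η := η) h.T1
    have h10 : ∑ n ∈ Finset.Icc 1 (Nt η T), ‖dd η T n‖ ^ 2 / (n : ℝ) ≤
        ∑ n ∈ Finset.Icc 1 ((zc (Yt T)) ^ (el T) * Nt η T), ‖dd η T n‖ ^ 2 / (n : ℝ) := by
      refine Finset.sum_le_sum_of_subset_of_nonneg ?_ fun _ _ _ => by positivity
      intro n hn
      rw [Finset.mem_Icc] at hn ⊢
      refine ⟨hn.1, hn.2.trans ?_⟩
      exact Nat.le_mul_of_pos_left _ (pow_pos (by linarith [h.z2]) _)
    have h11 : ∑ n ∈ Finset.Icc 1 (Nt η T), ‖dd η T n‖ ^ 2 / (n : ℝ) =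
        ∑ n ∈ Finset.Icc 1 (Nt η T), (1 : ℝ) / n - ∑ n ∈ Finset.Icc 1 (Nt η T), (1 - ‖dd η T n‖) / (n : ℝ) := by
      rw [← Finset.sum_sub_distrib]
      refine Finset.sum_congr rfl fun n _ => ?_
      rcases h01 n with h | h <;> rw [h] <;> ring
    linarith
  have h5 := log_Nt_le h.T1 hη
  rw [div_le_iff₀ hε] at h4
  rw [Real.dist_eq, div_sub' hL0.ne', abs_div, abs_of_pos hL0, div_lt_iff₀ hL0, abs_lt]
  constructor <;> nlinarith

end

end Pool.Agent.Q195.EW
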