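import Pool.Agent.Q195.EW.MX0
import Pool.Agent.Q80.EW.Stm3

set_option autoImplicit false

/-! Project EWX (helper80), job MAINx: the law of `log |ζ|` under `|ζ|^2` in all windows. -/

open Filter Topology MeasureTheory Set
open Pool.Agent.Q80.EW
open Pool.Agent.Q237.EW.Red (Mu Mu_cont Mu_nonneg lower meas_mono meas_union)
open Pool.Agent.Q237.EW (erf_mono erf_lip erf_zero erf_tendsto erf_le_one erf_nonneg tendsto_S ze_cont)

namespace Pool.Agent.Q195.EW

noncomputable section

/-- the threshold -/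
def th (T x : ℝ) : ℝ := Real.exp (x * Real.sqrt (La T)) * Real.log T

/-- the restricted square -/
def gi (T x s : ℝ) : ℝ := Set.indicator {s | ‖ze s‖ ≤ Real.exp (x * Real.sqrt (La T)) * Real.log T} (fun s => ‖ze s‖ ^ 2) s

lemma MZ_eq (U T x t : ℝ) : MZ U T x t = 1 / (U * Real.log T) * ∫ u in t..(t + U), gi T x u := rfl

lemma gi_nonneg (T x s : ℝ) : 0 ≤ gi T x s := Set.indicator_nonneg (fun _ _ => by positivity) s

lemma gi_le (T x s : ℝ) : gi T x s ≤ ‖ze s‖ ^ 2 := Set.indicator_le_self' (fun _ _ => by positivity) s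

lemma gi_int (T x a b : ℝ) : IntervalIntegrable (gi T x) volume a b := by
  have hc : Continuous (fun s => ‖ze s‖ ^ 2) := ze_cont.norm.pow 2
  have hm : MeasurableSet {s | ‖ze s‖ ≤ Real.exp (x * Real.sqrt (La T)) * Real.log T} :=
    measurableSet_le ze_cont.norm.measurable measurable_const
  have h := hc.intervalIntegrable (μ := volume) a b
  rw [intervalIntegrable_iff] at h ⊢
  exact h.indicator hm

lemma gi_mono {T x y : ℝ} (hL : 0 ≤ Real.log T) (h : x ≤ y) (s : ℝ) : gi T x s ≤ gi T y s := by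
  unfold gi
  apply Set.indicator_le_indicator_of_subset
  · intro s hs
    have hs' : ‖ze s‖ ≤ Real.exp (x * Real.sqrt (La T)) * Real.log T := hs
    show ‖ze s‖ ≤ Real.exp (y * Real.sqrt (La T)) * Real.log T
    refine hs'.trans (mul_le_mul_of_nonneg_right (Real.exp_le_exp.2 ?_) hL)
    exact mul_le_mul_of_nonneg_right h (Real.sqrt_nonneg _)
  · intro s
    positivity

lemma MZ_mono {U T x y t : ℝ} (hL : 0 ≤ Real.log T) (hU : 0 ≤ U) (h : x ≤ y) : MZ U T x t ≤ MZ U T y t := by
  rw [MZ_eq, MZ_eq]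
  refine mul_le_mul_of_nonneg_left ?_ (by positivity)
  exact intervalIntegral.integral_mono_on (by linarith) (gi_int _ _ _ _) (gi_int _ _ _ _) fun s _ => gi_mono hL h s

lemma MZ_nonneg {U T x t : ℝ} (hL : 0 ≤ Real.log T) (hU : 0 ≤ U) : 0 ≤ MZ U T x t := by
  rw [MZ_eq]
  exact mul_nonneg (by positivity) (intervalIntegral.integral_nonneg (by linarith) fun s _ => gi_nonneg _ _ _)

lemma MZ_le_MM {U T x t : ℝ} (hL : 0 ≤ Real.log T) (hU : 0 ≤ U) : MZ U T x t ≤ MM U T t := by
  rw [MZ_eq]
  unfold MM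
  refine mul_le_mul_of_nonneg_left ?_ (by positivity)
  exact intervalIntegral.integral_mono_on (by linarith) (gi_int _ _ _ _)
    ((ze_cont.norm.pow 2).intervalIntegrable _ _) fun s _ => gi_le _ _ _

/-- the continuous cut -/
def cut (A B v : ℝ) : ℝ := max 0 (min 1 ((B - v) / (B - A)))

lemma cut_nonneg (A B v : ℝ) : 0 ≤ cut A B v := le_max_left _ _

lemma cut_le_one (A B v : ℝ) : cut A B v ≤ 1 := max_le zero_le_one (min_le_left _ _)

lemma cut_one {A B v : ℝ} (hAB : A < B) (h : v ≤ A) : cut A B v = 1 := by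
  unfold cut
  have : 1 ≤ (B - v) / (B - A) := by
    rw [le_div_iff₀ (by linarith)]
    linarith
  rw [min_eq_left this]
  exact max_eq_right zero_le_one

lemma cut_zero {A B v : ℝ} (hAB : A < B) (h : B ≤ v) : cut A B v = 0 := by
  unfold cut
  have : (B - v) / (B - A) ≤ 0 := div_nonpos_of_nonpos_of_nonneg (by linarith) (by linarith)
  rw [max_eq_left]
  exact (min_le_right _ _).trans this

/-- the continuous version of the restricted square -/
def gcc (T x δ s : ℝ) : ℝ := ‖ze s‖ ^ 2 * cut (th T x) (th T (x + δ)) ‖ze s‖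

lemma gcc_cont (T x δ : ℝ) : Continuous (gcc T x δ) := by
  unfold gcc cut
  have := ze_cont
  fun_prop

lemma gcc_nonneg (T x δ s : ℝ) : 0 ≤ gcc T x δ s := mul_nonneg (by positivity) (cut_nonneg _ _ _)

lemma gcc_le (T x δ s : ℝ) : gcc T x δ s ≤ ‖ze s‖ ^ 2 := by
  unfold gcc
  have := cut_le_one (th T x) (th T (x + δ)) ‖ze s‖
  have h2 : 0 ≤ ‖ze s‖ ^ 2 := by positivity
  nlinarith

lemma th_lt {T x δ : ℝ} (hL : 0 < Real.log T) (hS : 0 < Real.sqrt (La T)) (hδ : 0 < δ) : th T x < th T (x + δ) := by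
  unfold th
  apply mul_lt_mul_of_pos_right (Real.exp_lt_exp.2 ?_) hL
  nlinarith

lemma gi_le_gcc {T x δ : ℝ} (hL : 0 < Real.log T) (hS : 0 < Real.sqrt (La T)) (hδ : 0 < δ) (s : ℝ) :
    gi T x s ≤ gcc T x δ s := by
  unfold gi
  by_cases h : s ∈ {s | ‖ze s‖ ≤ Real.exp (x * Real.sqrt (La T)) * Real.log T}
  · rw [Set.indicator_of_mem h, gcc, cut_one (th_lt hL hS hδ) h, mul_one]
  · rw [Set.indicator_of_notMem h]
    exact gcc_nonneg _ _ _ _

lemma gcc_le_gi {T x δ : ℝ} (hL : 0 < Real.log T) (hS : 0 < Real.sqrt (La T)) (hδ : 0 < δ) (s : ℝ) :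
    gcc T x δ s ≤ gi T (x + δ) s := by
  unfold gi
  by_cases h : s ∈ {s | ‖ze s‖ ≤ Real.exp ((x + δ) * Real.sqrt (La T)) * Real.log T}
  · rw [Set.indicator_of_mem h]
    exact gcc_le _ _ _ _
  · rw [Set.indicator_of_notMem h, gcc, cut_zero (th_lt hL hS hδ), mul_zero]
    have h' : ¬ ‖ze s‖ ≤ Real.exp ((x + δ) * Real.sqrt (La T)) * Real.log T := h
    exact (not_le.1 h').le

lemma MZ_le_Mu {U T x δ t : ℝ} (hL : 0 < Real.log T) (hS : 0 < Real.sqrt (La T)) (hδ : 0 < δ) (hU : 0 ≤ U) :
    MZ U T x t ≤ Mu (gcc T x δ) (Real.log T) U t := by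
  rw [MZ_eq]
  unfold Mu
  refine mul_le_mul_of_nonneg_left ?_ (by positivity)
  exact intervalIntegral.integral_mono_on (by linarith) (gi_int _ _ _ _)
    ((gcc_cont _ _ _).intervalIntegrable _ _) fun s _ => gi_le_gcc hL hS hδ s

lemma Mu_le_MZ {U T x δ t : ℝ} (hL : 0 < Real.log T) (hS : 0 < Real.sqrt (La T)) (hδ : 0 < δ) (hU : 0 ≤ U) :
    Mu (gcc T x δ) (Real.log T) U t ≤ MZ U T (x + δ) t := by
  rw [MZ_eq]
  unfold Mu
  refine mul_le_mul_of_nonneg_left ?_ (by positivity)
  exact intervalIntegral.integral_mono_on (by linarith) ((gcc_cont _ _ _).intervalIntegrable _ _)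
    (gi_int _ _ _ _) fun s _ => gcc_le_gi hL hS hδ s

lemma Mu_sub (T x δ N U t : ℝ) : Mu (fun s => ‖ze s‖ ^ 2 - gcc T x δ s) N U t =
    Mu (fun s => ‖ze s‖ ^ 2) N U t - Mu (gcc T x δ) N U t := by
  unfold Mu
  have e := intervalIntegral.integral_sub (μ := volume) (a := t) (b := t + U) (f := fun s => ‖ze s‖ ^ 2) (g := gcc T x δ)
    ((ze_cont.norm.pow 2).intervalIntegrable _ _) ((gcc_cont _ _ _).intervalIntegrable _ _)
  simp only at e ⊢
  rw [e]
  ring

/-- saturation of `GX` -/
lemma GX_sat (x : ℝ) {a : ℝ} (ha : 0 < a) : ∃ Y : ℝ, 0 ≤ Y ∧ ∀ y z, Y ≤ y → y ≤ z → GX (z / 2) x ≤ GX (y / 2) x + a := by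
  have h1 : ∀ᶠ v : ℝ in atTop, 1 - a < erf v := erf_tendsto.eventually (lt_mem_nhds (by linarith))
  obtain ⟨V, hV⟩ := eventually_atTop.1 h1
  refine ⟨max 0 (max (2 * x) (V + x)), le_max_left _ _, fun y z hy hyz => ?_⟩
  have h2 : 2 * x ≤ y := (le_max_left _ _).trans ((le_max_right _ _).trans hy)
  have h3 : V + x ≤ y := (le_max_right _ _).trans ((le_max_right _ _).trans hy)
  have h4 := hV (y - x) (by linarith)
  have h5 := GX_le (b := z / 2) (x := x)
  have h6 : GX (y / 2) x = (erf x + erf (y - x)) / 2 := by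
    rw [GX_lo (by linarith)]
    congr 3
    ring
  rw [h6]
  linarith

/-- the law at one `x` -/
theorem perx (hLX : J_LAWx) (hM : J_MAIN) (x : ℝ) {ε : ℝ} (hε : 0 < ε) : ∀ᶠ T : ℝ in atTop, ∀ U : ℝ, 1 ≤ U → U ≤ T →
    (volume {t : ℝ | t ∈ Set.Icc T (2 * T) ∧
      ε < |MZ U T x t - GX (Real.log U / (2 * Real.sqrt (La T))) x|}).toReal ≤ ε * T := by
  set δ : ℝ := ε / 8 with hδ
  have hδ0 : 0 < δ := by positivity
  set a : ℝ := ε / 8 with ha
  have ha0 : 0 < a := by positivity
  have evS : ∀ᶠ T : ℝ in atTop, 0 < Real.sqrt (La T) := tendsto_S.eventually (eventually_gt_atTop 0)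
  have evLaw : ∀ y x κ : ℝ, 0 < y → 0 < κ → ∀ᶠ T : ℝ in atTop, (volume {t : ℝ | t ∈ Set.Icc T (3 * T) ∧
      κ < |MZ (Real.exp (y * Real.sqrt (La T))) T x t - GX (y / 2) x|}).toReal ≤ κ * T := by
    intro y x κ hy hκ
    have h := (hLX y x hy κ hκ).eventually (gt_mem_nhds hκ)
    filter_upwards [h, eventually_gt_atTop 0] with T hT hT0
    rw [div_lt_iff₀ hT0] at hT
    exact hT.le
  -- the lower bound
  have low1 := low_all (g := fun T => gcc T (x - δ) δ) (Eventually.of_forall fun T => gcc_cont _ _ _)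
    (Eventually.of_forall fun T t => gcc_nonneg _ _ _ _) (H := fun y => GX (max y 0 / 2) (x - δ))
    (by simp [GX]) (fun y _ => GX_nonneg (by positivity)) (fun y => GX_le.trans (by linarith [erf_le_one (x - δ)]))
    (fun y z hyz => by
      have h1 : max y 0 ≤ max z 0 := max_le_max_right 0 hyz
      have h2 : max z 0 - max y 0 ≤ z - y := by
        rcases le_total z 0 with h3 | h3
        · rw [max_eq_right h3, max_eq_right (hyz.trans h3)]; linarith
        · rw [max_eq_left h3]
          linarith [le_max_left y 0]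
      have := GX_lip_b (x := x - δ) (b := max y 0 / 2) (c := max z 0 / 2) (by linarith)
      linarith)
    (fun a ha => by
      obtain ⟨Y, hY0, hY⟩ := GX_sat (x - δ) ha
      refine ⟨Y, fun y z hy hyz => ?_⟩
      rw [max_eq_left (hY0.trans hy), max_eq_left (hY0.trans (hy.trans hyz))]
      exact hY y z hy hyz)
    (fun y hy κ hκ => by
      filter_upwards [evLaw y (x - δ) κ hy hκ, evS, eventually_gt_atTop 1] with T h hS hT1
      have hL : 0 < Real.log T := Real.log_pos hT1
      refine (meas_mono ?_).trans h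
      intro t _ ht
      rw [max_eq_left hy.le] at ht
      have h1 := MZ_le_Mu (U := Real.exp (y * Real.sqrt (La T))) (x := x - δ) (t := t) hL hS hδ0 (Real.exp_pos _).le
      rw [lt_abs]
      right
      linarith) ha0
  -- the lower bound for the complement
  have low2 := low_all (g := fun T => fun s => ‖ze s‖ ^ 2 - gcc T x δ s)
    (Eventually.of_forall fun T => (ze_cont.norm.pow 2).sub (gcc_cont _ _ _))
    (Eventually.of_forall fun T t => sub_nonneg.2 (gcc_le _ _ _ _))
    (H := fun y => erf (max y 0 / 2) - GX (max y 0 / 2) (x + δ))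
    (by simp [GX, erf_zero]) (fun y _ => sub_nonneg.2 (GX_le_erf (by positivity)))
    (fun y => by
      have h1 := erf_le_one (max y 0 / 2)
      have h2 := GX_nonneg (b := max y 0 / 2) (x := x + δ) (by positivity)
      linarith)
    (fun y z hyz => by
      have h1 : max y 0 ≤ max z 0 := max_le_max_right 0 hyz
      have h2 : max z 0 - max y 0 ≤ z - y := by
        rcases le_total z 0 with h3 | h3
        · rw [max_eq_right h3, max_eq_right (hyz.trans h3)]; linarith
        · rw [max_eq_left h3]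
          linarith [le_max_left y 0]
      have h3 := GX_mono_b (x := x + δ) (b := max y 0 / 2) (c := max z 0 / 2) (by linarith)
      have h4 := erf_lip (a := max y 0 / 2) (b := max z 0 / 2) (by linarith)
      linarith)
    (fun a ha => by
      have h1 : ∀ᶠ v : ℝ in atTop, 1 - a < erf v := erf_tendsto.eventually (lt_mem_nhds (by linarith))
      obtain ⟨V, hV⟩ := eventually_atTop.1 h1
      refine ⟨max 0 (2 * V), fun y z hy hyz => ?_⟩
      have hy0 : 0 ≤ y := (le_max_left _ _).trans hy
      have hyV : 2 * V ≤ y := (le_max_right _ _).trans hy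
      rw [max_eq_left hy0, max_eq_left (hy0.trans hyz)]
      have h2 := hV (y / 2) (by linarith)
      have h3 := GX_mono_b (x := x + δ) (b := y / 2) (c := z / 2) (by linarith)
      have h4 := erf_le_one (z / 2)
      linarith)
    (fun y hy κ hκ => by
      filter_upwards [evLaw y (x + δ) (κ / 2) hy (by positivity), evLaw y (max (y / 2) (x + δ)) (κ / 2) hy (by positivity),
        evS, eventually_gt_atTop 1] with T h h' hS hT1
      have hL : 0 < Real.log T := Real.log_pos hT1
      have hT0 : 0 < T := by linarith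
      refine ((meas_mono ?_).trans meas_union).trans ((add_le_add h' h).trans (by linarith))
      intro t _ ht
      rw [max_eq_left hy.le, Mu_sub] at ht
      have h1 := Mu_le_MZ (U := Real.exp (y * Real.sqrt (La T))) (x := x) (t := t) hL hS hδ0 (Real.exp_pos _).le
      have h2 := MZ_le_MM (U := Real.exp (y * Real.sqrt (La T))) (x := max (y / 2) (x + δ)) (t := t) hL.le (Real.exp_pos _).le
      have h3 : MM (Real.exp (y * Real.sqrt (La T))) T t = Mu (fun s => ‖ze s‖ ^ 2) (Real.log T)
        (Real.exp (y * Real.sqrt (La T))) t := rfl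
      rw [GX_hi (le_max_left _ _)]
      by_contra hcon
      rw [not_or, not_lt, not_lt] at hcon
      have h4 := (abs_le.1 hcon.1).1
      have h5 := (abs_le.1 hcon.2).2
      linarith) ha0
  filter_upwards [low1, low2, hM a ha0, evS, eventually_gt_atTop 1] with T h1 h2 h3 hS hT1 U hU1 hUT
  have hL : 0 < Real.log T := Real.log_pos hT1
  have hT0 : 0 < T := by linarith
  have hU0 : 0 < U := by linarith
  specialize h1 U hU1 hUT
  specialize h2 U hU1 hUT
  specialize h3 U hU1 hUT
  have hy0 : 0 ≤ Real.log U / Real.sqrt (La T) := div_nonneg (Real.log_nonneg hU1) hS.le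
  have hb : Real.log U / Real.sqrt (La T) / 2 = Real.log U / (2 * Real.sqrt (La T)) := by
    field_simp
  rw [max_eq_left hy0, hb] at h1 h2
  set b := Real.log U / (2 * Real.sqrt (La T)) with hbd
  have hsum : (volume {t : ℝ | t ∈ Set.Icc T (2 * T) ∧ ε < |MZ U T x t - GX b x|}).toReal ≤ a * T + (a * T + a * T) := by
    refine le_trans ?_ (add_le_add h1 (add_le_add h2 h3))
    refine le_trans ?_ (add_le_add_right meas_union _)
    refine le_trans ?_ meas_union
    apply meas_mono
    intro t _ ht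
    by_contra hcon
    rw [not_or, not_or, not_lt, not_lt, not_lt] at hcon
    obtain ⟨c1, c2, c3⟩ := hcon
    have d1 := Mu_le_MZ (U := U) (x := x - δ) (t := t) hL hS hδ0 hU0.le
    rw [sub_add_cancel] at d1
    have d2 := MZ_le_Mu (U := U) (x := x) (t := t) hL hS hδ0 hU0.le
    rw [Mu_sub] at c2
    have d3 : MM U T t = Mu (fun s => ‖ze s‖ ^ 2) (Real.log T) U t := rfl
    have d4 := (abs_le.1 c3).2
    have d5 := GX_lip_x (b := b) (x := x - δ) (y := x) (by linarith)
    have d6 := GX_lip_x (b := b) (x := x) (y := x + δ) (by linarith)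
    rcases lt_abs.1 ht with h | h
    · linarith
    · linarith
  refine hsum.trans ?_
  rw [ha]
  nlinarith

/-- JOB MAINx. -/
theorem t_MAINx (hLX : J_LAWx) (hM : J_MAIN) : J_MAINx := by
  intro ε hε
  obtain ⟨K, hK0, hK⟩ : ∃ K : ℝ, 0 < K ∧ 1 - ε / 4 < erf K :=
    ((eventually_gt_atTop 0).and (erf_tendsto.eventually (lt_mem_nhds (by linarith)))).exists
  set δ : ℝ := ε / 8 with hδ
  have hδ0 : 0 < δ := by positivity
  obtain ⟨m, hm⟩ : ∃ m : ℕ, 2 * K ≤ (m : ℝ) * δ := by
    refine ⟨⌈2 * K / δ⌉₊, ?_⟩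
    have h1 := Nat.le_ceil (2 * K / δ)
    rwa [div_le_iff₀ hδ0] at h1
  set e1 : ℝ := ε / (4 * (m + 1)) with he1
  have he10 : 0 < e1 := by positivity
  have he1ε : e1 ≤ ε / 4 := by
    rw [he1]
    apply div_le_div_of_nonneg_left hε.le (by norm_num)
    have : (0 : ℝ) ≤ m := Nat.cast_nonneg m
    linarith
  have ev1 : ∀ᶠ T : ℝ in atTop, ∀ j ∈ Finset.range (m + 1), ∀ U : ℝ, 1 ≤ U → U ≤ T →
    (volume {t : ℝ | t ∈ Set.Icc T (2 * T) ∧
      e1 < |MZ U T (-K + j * δ) t - GX (Real.log U / (2 * Real.sqrt (La T))) (-K + j * δ)|}).toReal ≤ e1 * T := by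
    rw [eventually_all_finset]
    intro j _
    exact perx hLX hM _ he10
  have evS : ∀ᶠ T : ℝ in atTop, 0 < Real.sqrt (La T) := tendsto_S.eventually (eventually_gt_atTop 0)
  filter_upwards [ev1, hM (ε / 4) (by positivity), evS, eventually_gt_atTop 1] with T h1 h2 hS hT1 U hU1 hUT
  have hL : 0 < Real.log T := Real.log_pos hT1
  have hT0 : 0 < T := by linarith
  have hU0 : 0 < U := by linarith
  specialize h2 U hU1 hUT
  set b := Real.log U / (2 * Real.sqrt (La T)) with hbd
  have hb0 : 0 ≤ b := div_nonneg (Real.log_nonneg hU1) (by positivity)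
  -- the union
  have hfin : ∀ s : Finset ℕ, s ⊆ Finset.range (m + 1) → (volume {t : ℝ | t ∈ Set.Icc T (2 * T) ∧ ∃ j ∈ s,
      e1 < |MZ U T (-K + j * δ) t - GX b (-K + j * δ)|}).toReal ≤ (s.card : ℝ) * (e1 * T) := by
    intro s
    induction s using Finset.induction_on with
    | empty =>
      intro _
      simp
    | insert i s his ih =>
      intro hs
      rw [Finset.card_insert_of_notMem his]
      push_cast
      have h3 := ih ((Finset.subset_insert i s).trans hs)
      have h4 := h1 i (hs (Finset.mem_insert_self i s)) U hU1 hUT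
      rw [← hbd] at h4
      refine le_trans (meas_mono ?_) ((meas_union (p := fun t => e1 < |MZ U T (-K + i * δ) t - GX b (-K + i * δ)|)
        (q := fun t => ∃ j ∈ s, e1 < |MZ U T (-K + j * δ) t - GX b (-K + j * δ)|)).trans ?_)
      · rintro t _ ⟨j, hj, hjt⟩
        rcases Finset.mem_insert.1 hj with h | h
        · subst h
          exact Or.inl hjt
        · exact Or.inr ⟨j, h, hjt⟩
      · linarith
  have h3 := hfin (Finset.range (m + 1)) (Finset.Subset.refl _)
  rw [Finset.card_range] at h3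
  have h4 : ((m + 1 : ℕ) : ℝ) * (e1 * T) = ε / 4 * T := by
    rw [he1]
    push_cast
    field_simp
  rw [h4] at h3
  have hsum : (volume {t : ℝ | t ∈ Set.Icc T (2 * T) ∧ ∃ x : ℝ, ε < |MZ U T x t - GX b x|}).toReal ≤
      ε / 4 * T + ε / 4 * T := by
    refine le_trans ?_ (add_le_add h3 h2)
    refine le_trans ?_ meas_union
    apply meas_mono
    rintro t _ ⟨x, hx⟩
    by_contra hcon
    rw [not_or, not_lt] at hcon
    obtain ⟨c1, c2⟩ := hcon
    have c1' : ∀ j : ℕ, j ≤ m → |MZ U T (-K + j * δ) t - GX b (-K + j * δ)| ≤ ε / 4 := by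
      intro j hj
      by_contra h5
      apply c1
      refine ⟨j, Finset.mem_range.2 (by omega), ?_⟩
      linarith
    have c3 := (abs_le.1 c2).2
    rcases lt_or_ge x (-K) with hxK | hxK
    · -- small `x`
      have d0 := c1' 0 (Nat.zero_le m)
      simp only [Nat.cast_zero, zero_mul, add_zero] at d0
      have d1 := MZ_mono (U := U) (t := t) hL.le hU0.le hxK.le
      have d2 := MZ_nonneg (U := U) (x := x) (t := t) hL.le hU0.le
      have d3 := GX_mono_x hb0 hxK.le
      have d4 := GX_nonneg (b := b) (x := x) hb0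
      have d5 := GX_le (b := b) (x := -K)
      rw [erf_neg] at d5
      have d6 := (abs_le.1 d0).2
      rcases lt_abs.1 hx with h | h <;> linarith
    · rcases lt_or_ge x (-K + m * δ) with hxm | hxm
      · -- the grid
        obtain ⟨j, hj⟩ : ∃ j : ℕ, j = ⌊(x + K) / δ⌋₊ := ⟨_, rfl⟩
        have hj1 : (j : ℝ) * δ ≤ x + K := by
          have := Nat.floor_le (show 0 ≤ (x + K) / δ by apply div_nonneg <;> linarith)
          rw [← hj] at this
          rwa [le_div_iff₀ hδ0] at this
        have hj2 : x + K < ((j : ℝ) + 1) * δ := by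
          have := Nat.lt_floor_add_one ((x + K) / δ)
          rw [← hj] at this
          rwa [div_lt_iff₀ hδ0] at this
        have hjm : j + 1 ≤ m := by
          have : (j : ℝ) * δ < m * δ := by linarith
          have h5 : (j : ℝ) < m := lt_of_mul_lt_mul_right this hδ0.le
          exact_mod_cast h5
        have d1 := c1' j (by omega)
        have d2 := c1' (j + 1) hjm
        push_cast at d2
        have d3 := MZ_mono (U := U) (t := t) (x := -K + j * δ) (y := x) hL.le hU0.le (by linarith)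
        have d4 := MZ_mono (U := U) (t := t) (x := x) (y := -K + ((j : ℝ) + 1) * δ) hL.le hU0.le (by linarith)
        have d5 := GX_mono_x (b := b) (x := -K + j * δ) (y := x) hb0 (by linarith)
        have d6 := GX_mono_x (b := b) (x := x) (y := -K + ((j : ℝ) + 1) * δ) hb0 (by linarith)
        have d7 := GX_lip_x (b := b) (x := -K + j * δ) (y := -K + ((j : ℝ) + 1) * δ) (by linarith)
        have d8 := (abs_le.1 d1).1
        have d9 := (abs_le.1 d2).2
        have d10 : -K + ((j : ℝ) + 1) * δ - (-K + j * δ) = δ := by ring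
        rw [d10] at d7
        rcases lt_abs.1 hx with h | h <;> linarith
      · -- large `x`
        have d0 := (abs_le.1 (c1' m le_rfl)).1
        have d1 := MZ_mono (U := U) (t := t) hL.le hU0.le hxm
        have d2 := MZ_le_MM (U := U) (x := x) (t := t) hL.le hU0.le
        have d3 := GX_mono_x hb0 hxm
        have d4 := GX_le_erf (b := b) (x := x) hb0
        have d5 : erf b - ε / 4 ≤ GX b (-K + m * δ) := by
          rcases le_total (-K + m * δ) b with h | h
          · rw [GX_lo h]
            have f1 : erf K ≤ erf (-K + m * δ) := erf_mono (by linarith)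
            have f2 : erf K ≤ erf (2 * b - (-K + m * δ)) := erf_mono (by linarith)
            have f3 := erf_le_one b
            linarith
          · rw [GX_hi h]
            linarith
        rcases lt_abs.1 hx with h | h <;> linarith
  have := mul_pos hε hT0
  linarith

end

end Pool.Agent.Q195.EW
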