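import Pool.Agent.Q195.EW.SUP
import Pool.Agent.TH110.N4_AFP
import Pool.Agent.TH75.N4_AFE
import Pool.Agent.Q237.EW.RedA

set_option autoImplicit false

/-! Project EWX (helper80), job MAXx: the upper bound for the maximum of zeta in windows. -/

open MeasureTheory Complex Filter Topology
open Pool.Agent.Q80.EW
open Pool.Agent.H306R2.SM (cl)
open Pool.Agent.H448R2.GC (cu cs XX)

namespace Pool.Agent.Q195.EW

noncomputable section

/-- the coefficients of the smoothed sums -/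
def gD (k : ℕ) (c D : ℝ) (n : ℕ) : ℂ := ((cu k c (Real.log n - D) / Real.sqrt n : ℝ) : ℂ)

lemma cs_FF {k : ℕ} {c D : ℝ} (hc : 0 < c) {N : ℕ} (hN : Real.exp (D + k * c) ≤ N) (t : ℝ) :
    cs k c D (cl t) = FF N (gD k c D) t := by
  rw [Pool.Agent.TH110.N4_AFP.cs_ext k c D hc N hN]
  unfold Pool.Agent.TH110.N4_AFP.gs FF gD
  refine Finset.sum_congr rfl fun n hn => ?_
  have hn1 := (Finset.mem_Icc.1 hn).1
  have hn0 : n ≠ 0 := by omega
  have hs : (0 : ℝ) < Real.sqrt n := Real.sqrt_pos.2 (by exact_mod_cast hn1)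
  have hs' : ((Real.sqrt n : ℝ) : ℂ) ≠ 0 := by exact_mod_cast hs.ne'
  rw [Complex.cpow_neg, cl, cpow_half n hn0, mul_inv, Complex.exp_neg, Complex.ofReal_div]
  field_simp

lemma gD_sq {k : ℕ} {c D : ℝ} (hc : 0 < c) {n : ℕ} (hn : 1 ≤ n) : ‖gD k c D n‖ ^ 2 ≤ 1 / (n : ℝ) := by
  have h0 := Pool.Agent.H448R2.GC.cu_nonneg k c (Real.log n - D) hc
  have h1 := Pool.Agent.H448R2.GC.cu_le_one k c (Real.log n - D) hc
  have hn0 : (0 : ℝ) < n := by exact_mod_cast hn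
  unfold gD
  rw [Complex.norm_real, Real.norm_eq_abs, sq_abs, div_pow, Real.sq_sqrt hn0.le]
  apply div_le_div_of_nonneg_right _ hn0.le
  exact pow_le_one₀ h0 h1

lemma gD_NN {k : ℕ} {c D : ℝ} (hc : 0 < c) (N : ℕ) : NN N (gD k c D) ≤ 1 + Real.log N := by
  unfold NN
  refine (Finset.sum_le_sum fun n hn => gD_sq hc (Finset.mem_Icc.1 hn).1).trans ?_
  have := harmonic_le_one_add_log N
  rw [harmonic_eq_sum_Icc] at this
  push_cast at this
  simpa only [one_div] using this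

/-- joint continuity -/
lemma FF_cont2 (N k : ℕ) {c : ℝ} (hc : 0 < c) (a : ℝ) :
    Continuous (fun p : ℝ × ℝ => FF N (gD (k + 1) c (a + p.2)) p.1) := by
  unfold FF gD
  have h := Pool.Agent.H448R2.GC.cu_cont k c hc
  refine continuous_finsetSum _ fun n _ => ?_
  refine Continuous.mul (Complex.continuous_ofReal.comp (Continuous.div_const (h.comp (by fun_prop)) _)) (by fun_prop)

lemma FFdc_cont2 (N k : ℕ) {c : ℝ} (hc : 0 < c) (a : ℝ) :
    Continuous (fun p : ℝ × ℝ => FF N (dc (gD (k + 1) c (a + p.2))) p.1) := by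
  unfold FF dc gD
  have h := Pool.Agent.H448R2.GC.cu_cont k c hc
  refine continuous_finsetSum _ fun n _ => ?_
  refine Continuous.mul (Continuous.mul continuous_const
    (Complex.continuous_ofReal.comp (Continuous.div_const (h.comp (by fun_prop)) _))) (by fun_prop)

lemma FF_contu (N k : ℕ) {c : ℝ} (hc : 0 < c) (a s : ℝ) :
    Continuous (fun u : ℝ => FF N (gD (k + 1) c (a + u)) s) := by
  unfold FF gD
  have h := Pool.Agent.H448R2.GC.cu_cont k c hc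
  refine continuous_finsetSum _ fun n _ => ?_
  refine Continuous.mul (Complex.continuous_ofReal.comp (Continuous.div_const (h.comp (by fun_prop)) _)) (by fun_prop)

lemma ww_cont2 (N k : ℕ) {c : ℝ} (hc : 0 < c) (a : ℝ) :
    Continuous (fun p : ℝ × ℝ => ww N (gD (k + 1) c (a + p.2)) p.1) := by
  unfold ww
  have h1 := FF_cont2 N k hc a
  have h2 := FFdc_cont2 N k hc a
  fun_prop

/-- the window integral of the majorant -/
def Gw (N k : ℕ) (c D U t : ℝ) : ℝ := ∫ x in t..(t + U), ww N (gD k c D) x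

lemma Gw_eq (N k : ℕ) (c D U t : ℝ) : Gw N k c D U t = ∫ v in (0 : ℝ)..U, ww N (gD k c D) (t + v) := by
  unfold Gw
  rw [intervalIntegral.integral_comp_add_left (fun x => ww N (gD k c D) x) t, add_zero]

lemma Gw_nonneg (N k : ℕ) (c D : ℝ) {U : ℝ} (hU : 0 ≤ U) (t : ℝ) : 0 ≤ Gw N k c D U t :=
  intervalIntegral.integral_nonneg (by linarith) fun x _ => ww_nonneg _ _ _

lemma Gw_cont (N k : ℕ) (c D : ℝ) {U : ℝ} (hU : 0 ≤ U) : Continuous (Gw N k c D U) :=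
  (slide (ww_cont N (gD k c D)) (ww_nonneg N (gD k c D)) (A := 0) (B := 0) le_rfl hU).1

lemma Gw_cont2 (N k : ℕ) {c : ℝ} (hc : 0 < c) (a U : ℝ) :
    Continuous (fun p : ℝ × ℝ => Gw N (k + 1) c (a + p.2) U p.1) := by
  simp only [Gw_eq]
  have h := ww_cont2 N k hc a
  refine intervalIntegral.continuous_parametric_intervalIntegral_of_continuous' ?_ 0 U
  have e : Function.uncurry (fun (p : ℝ × ℝ) (v : ℝ) => ww N (gD (k + 1) c (a + p.2)) (p.1 + v)) =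
      (fun p : ℝ × ℝ => ww N (gD (k + 1) c (a + p.2)) p.1) ∘ (fun q : (ℝ × ℝ) × ℝ => (q.1.1 + q.2, q.1.2)) := by
    funext q
    rfl
  rw [e]
  exact h.comp (by fun_prop)

lemma Gw_sup (N k : ℕ) (c D : ℝ) {U t h : ℝ} (hU : 1 ≤ U) (h0 : 0 ≤ h) (h1 : h ≤ U) :
    ‖FF N (gD k c D) (t + h)‖ ^ 2 ≤ Gw N k c D U t := sup_le N (gD k c D) hU h0 h1

lemma Gw_int {N : ℕ} (hN : 1 ≤ N) (k : ℕ) {c : ℝ} (hc : 0 < c) (D : ℝ) {U T : ℝ} (hU : 0 ≤ U) (hUT : U ≤ T) (hNT : (N : ℝ) ≤ T) :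
    ∫ t in T..(2 * T), Gw N k c D U t ≤ U * (189 * (T * (1 + Real.log T) ^ 2)) := by
  have hT1 : (1 : ℝ) ≤ T := le_trans (by exact_mod_cast hN) hNT
  have hN1 : (1 : ℝ) ≤ N := by exact_mod_cast hN
  have hw0 := ww_nonneg N (gD k c D)
  have hwc := ww_cont N (gD k c D)
  have h1 := (slide hwc hw0 (A := T) (B := 2 * T) (U := U) (by linarith) hU).2
  have h2 : ∫ x in T..(2 * T + U), ww N (gD k c D) x ≤ ∫ x in T..(4 * T), ww N (gD k c D) x := by
    apply intervalIntegral.integral_mono_interval le_rfl (by linarith) (by linarith)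
    · exact Eventually.of_forall fun x => hw0 x
    · exact hwc.intervalIntegrable _ _
  have h3 := ww_int N hN (gD k c D) hNT
  have h4 := gD_NN (k := k) (D := D) hc N
  have h5 : Real.log N ≤ Real.log T := Real.log_le_log (by linarith) hNT
  have h6 : 0 ≤ Real.log N := Real.log_nonneg hN1
  have h7 : T * (1 + Real.log N) * NN N (gD k c D) ≤ T * (1 + Real.log T) ^ 2 := by
    have h8 : 0 ≤ NN N (gD k c D) := Finset.sum_nonneg fun _ _ => sq_nonneg _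
    calc T * (1 + Real.log N) * NN N (gD k c D) ≤ T * (1 + Real.log T) * (1 + Real.log T) := by
          apply mul_le_mul _ (h4.trans (by linarith)) h8 (mul_nonneg (by linarith) (by linarith))
          apply mul_le_mul_of_nonneg_left _ (by linarith)
          linarith
      _ = _ := by ring
  refine h1.trans (mul_le_mul_of_nonneg_left ?_ hU)
  linarith

/-- the integral over the shifts -/
def Qf (N k : ℕ) (c D U t : ℝ) : ℝ :=
  ∫ u in (-3 : ℝ)..3, (Gw N (k + 1) c ((D + c) + u) U t + Gw N (k + 1) c (D + u) U t)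

lemma G2_cont (N k : ℕ) {c : ℝ} (hc : 0 < c) (D U : ℝ) :
    Continuous (fun p : ℝ × ℝ => Gw N (k + 1) c ((D + c) + p.2) U p.1 + Gw N (k + 1) c (D + p.2) U p.1) :=
  (Gw_cont2 N k hc (D + c) U).add (Gw_cont2 N k hc D U)

lemma G2_contu (N k : ℕ) {c : ℝ} (hc : 0 < c) (D U t : ℝ) :
    Continuous (fun u : ℝ => Gw N (k + 1) c ((D + c) + u) U t + Gw N (k + 1) c (D + u) U t) := by
  have e : (fun u : ℝ => Gw N (k + 1) c ((D + c) + u) U t + Gw N (k + 1) c (D + u) U t) =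
      (fun p : ℝ × ℝ => Gw N (k + 1) c ((D + c) + p.2) U p.1 + Gw N (k + 1) c (D + p.2) U p.1) ∘
        (fun u : ℝ => ((t, u) : ℝ × ℝ)) := by
    funext u
    rfl
  rw [e]
  exact (G2_cont N k hc D U).comp (by fun_prop)

lemma G2_swap (N k : ℕ) {c : ℝ} (hc : 0 < c) (D U : ℝ) :
    Continuous (Function.uncurry (fun u t : ℝ => Gw N (k + 1) c ((D + c) + u) U t + Gw N (k + 1) c (D + u) U t)) := by
  have e : Function.uncurry (fun u t : ℝ => Gw N (k + 1) c ((D + c) + u) U t + Gw N (k + 1) c (D + u) U t) =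
      (fun p : ℝ × ℝ => Gw N (k + 1) c ((D + c) + p.2) U p.1 + Gw N (k + 1) c (D + p.2) U p.1) ∘
        (fun q : ℝ × ℝ => ((q.2, q.1) : ℝ × ℝ)) := by
    funext u
    rfl
  rw [e]
  exact (G2_cont N k hc D U).comp (by fun_prop)

/-- the mean of the integral over the shifts -/
lemma Qf_int (N k : ℕ) {c : ℝ} (hc : 0 < c) (D : ℝ) {U T R : ℝ} (hU0 : 0 ≤ U)
    (hK : ∀ D : ℝ, ∫ t in T..(2 * T), Gw N (k + 1) c D U t ≤ R) :
    ∫ t in T..(2 * T), Qf N k c D U t ≤ 12 * R := by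
  unfold Qf
  have h0 := Pool.Agent.Q237.EW.Red.swap_cont (F := fun t u => Gw N (k + 1) c ((D + c) + u) U t + Gw N (k + 1) c (D + u) U t)
    (G2_cont N k hc D U) T (2 * T) (-3) 3
  refine h0.le.trans ?_
  have h1 : ∫ u in (-3 : ℝ)..3, ∫ t in T..(2 * T), (Gw N (k + 1) c ((D + c) + u) U t + Gw N (k + 1) c (D + u) U t) ≤
      ∫ u in (-3 : ℝ)..3, (2 * R) := by
    have hcc := intervalIntegral.continuous_parametric_intervalIntegral_of_continuous' (μ := volume)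
      (f := fun u t => Gw N (k + 1) c ((D + c) + u) U t + Gw N (k + 1) c (D + u) U t) (G2_swap N k hc D U) T (2 * T)
    refine intervalIntegral.integral_mono_on (by norm_num) (hcc.intervalIntegrable _ _) intervalIntegrable_const
      fun u _ => ?_
    have h2 : ∫ t in T..(2 * T), (Gw N (k + 1) c ((D + c) + u) U t + Gw N (k + 1) c (D + u) U t) =
        (∫ t in T..(2 * T), Gw N (k + 1) c ((D + c) + u) U t) + ∫ t in T..(2 * T), Gw N (k + 1) c (D + u) U t :=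
      intervalIntegral.integral_add ((Gw_cont N (k + 1) c ((D + c) + u) hU0).intervalIntegrable _ _)
        ((Gw_cont N (k + 1) c (D + u) hU0).intervalIntegrable _ _)
    rw [h2]
    have h3 := hK ((D + c) + u)
    have h4 := hK (D + u)
    linarith
  refine h1.trans (le_of_eq ?_)
  rw [intervalIntegral.integral_const, smul_eq_mul]
  ring

lemma Qf_cont (N k : ℕ) {c : ℝ} (hc : 0 < c) (D U : ℝ) : Continuous (Qf N k c D U) :=
  intervalIntegral.continuous_parametric_intervalIntegral_of_continuous' (G2_cont N k hc D U) _ _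

lemma Q_ge (N k : ℕ) {c : ℝ} (hc : 0 < c) (D : ℝ) {U t h : ℝ} (hU : 1 ≤ U) (h0 : 0 ≤ h) (h1 : h ≤ U) :
    ∫ u in (-3 : ℝ)..3, (‖FF N (gD (k + 1) c ((D + c) + u)) (t + h)‖ ^ 2 +
      ‖FF N (gD (k + 1) c (D + u)) (t + h)‖ ^ 2) ≤ Qf N k c D U t := by
  have c3 := FF_contu N k hc (D + c) (t + h)
  have c4 := FF_contu N k hc D (t + h)
  have c5 := G2_contu N k hc D U t
  have c6 : Continuous fun u : ℝ => (‖FF N (gD (k + 1) c ((D + c) + u)) (t + h)‖ ^ 2 +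
      ‖FF N (gD (k + 1) c (D + u)) (t + h)‖ ^ 2) := (c3.norm.pow 2).add (c4.norm.pow 2)
  unfold Qf
  refine intervalIntegral.integral_mono_on (by norm_num) (c6.intervalIntegrable _ _) (c5.intervalIntegrable _ _) fun u _ => ?_
  have s1 := Gw_sup N (k + 1) c ((D + c) + u) (t := t) hU h0 h1
  have s2 := Gw_sup N (k + 1) c (D + u) (t := t) hU h0 h1
  exact add_le_add s1 s2

lemma three (z A X B : ℂ) {a b e : ℝ} (hX : ‖X‖ = 1) (hE : ‖z - A - X * (starRingEnd ℂ) B‖ ^ 2 ≤ e)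
    (ha : ‖A‖ ^ 2 ≤ a) (hb : ‖B‖ ^ 2 ≤ b) : ‖z‖ ^ 2 ≤ 3 * (a + b + e) := by
  have h8 : ‖X * (starRingEnd ℂ) B‖ = ‖B‖ := by rw [norm_mul, hX, one_mul, RCLike.norm_conj]
  have h9 : ‖z‖ ≤ ‖A‖ + ‖B‖ + ‖z - A - X * (starRingEnd ℂ) B‖ := by
    calc ‖z‖ = ‖A + X * (starRingEnd ℂ) B + (z - A - X * (starRingEnd ℂ) B)‖ := by congr 1; ring
      _ ≤ ‖A‖ + ‖X * (starRingEnd ℂ) B‖ + ‖z - A - X * (starRingEnd ℂ) B‖ := norm_add₃_le
      _ = _ := by rw [h8]
  have h10 : ‖z‖ ^ 2 ≤ (‖A‖ + ‖B‖ + ‖z - A - X * (starRingEnd ℂ) B‖) ^ 2 := pow_le_pow_left₀ (norm_nonneg _) h9 2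
  have h11 : (‖A‖ + ‖B‖ + ‖z - A - X * (starRingEnd ℂ) B‖) ^ 2 ≤
      3 * (‖A‖ ^ 2 + ‖B‖ ^ 2 + ‖z - A - X * (starRingEnd ℂ) B‖ ^ 2) := by
    nlinarith [sq_nonneg (‖A‖ - ‖B‖), sq_nonneg (‖A‖ - ‖z - A - X * (starRingEnd ℂ) B‖),
      sq_nonneg (‖B‖ - ‖z - A - X * (starRingEnd ℂ) B‖)]
  linarith

lemma int3 {f g q : ℝ → ℝ} (hf : Continuous f) (hg : Continuous g) (hq : Continuous q) (a b e : ℝ) :
    ∫ t in a..b, 3 * (f t + g t + (1 + e * q t)) =
      3 * ((∫ t in a..b, f t) + (∫ t in a..b, g t) + ((b - a) + e * ∫ t in a..b, q t)) := by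
  have h1 : IntervalIntegrable f volume a b := hf.intervalIntegrable _ _
  have h2 : IntervalIntegrable g volume a b := hg.intervalIntegrable _ _
  have h3 : IntervalIntegrable (fun t => e * q t) volume a b := (continuous_const.mul hq).intervalIntegrable _ _
  have h4 : IntervalIntegrable (fun t => f t + g t) volume a b := h1.add h2
  have h5 : IntervalIntegrable (fun t => 1 + e * q t) volume a b := intervalIntegrable_const.add h3
  rw [intervalIntegral.integral_const_mul, intervalIntegral.integral_add h4 h5, intervalIntegral.integral_add h1 h2,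
    intervalIntegral.integral_add intervalIntegrable_const h3, intervalIntegral.integral_const,
    intervalIntegral.integral_const_mul, smul_eq_mul, mul_one]

/-- the maximum in windows, upper bound in measure -/
theorem sup_upper : ∃ C : ℝ, 0 < C ∧ ∀ᶠ T : ℝ in atTop, ∀ U V : ℝ, 1 ≤ U → U ≤ T → 0 < V →
    (volume {t : ℝ | t ∈ Set.Icc T (2 * T) ∧ ∃ h ∈ Set.Icc 0 U, V ≤ ‖ze (t + h)‖}).toReal ≤
      C * U * T * Real.log T ^ 2 / V ^ 2 := by
  obtain ⟨k₀, hk₀⟩ := (Pool.Agent.TH110.N4_AFP.t_AFP Pool.Agent.TH75.N4_AFE.t_AFE) (1 / 100) (by norm_num) le_rfl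
  obtain ⟨Ck, T₀, hCk, hAF⟩ := hk₀ (k₀ + 1) (by omega)
  refine ⟨3 * (2 * (189 * 4) + 1 + Ck * (12 * (189 * 4))), by positivity, ?_⟩
  have evL := Real.tendsto_log_atTop.eventually_ge_atTop (100 : ℝ)
  filter_upwards [eventually_ge_atTop T₀, evL, eventually_ge_atTop 8] with T hT₀ hL hT8 U V hU1 hUT hV
  have hT0 : 0 < T := by linarith
  obtain ⟨L, hLd⟩ : ∃ L, L = Real.log T := ⟨_, rfl⟩
  rw [← hLd] at hL ⊢
  have hTL : T = Real.exp L := by rw [hLd, Real.exp_log hT0]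
  obtain ⟨c, hc⟩ : ∃ c, c = 1 / 100 * L / (((k₀ + 1 : ℕ) : ℝ) + 1) := ⟨_, rfl⟩
  have hc0 : 0 < c := by rw [hc]; positivity
  have hkc : (((k₀ + 1 : ℕ) : ℝ) + 1) * c = 1 / 100 * L := by
    rw [hc]
    field_simp
  obtain ⟨D1, hD1⟩ : ∃ D1, D1 = (1 / 2 - 2 * (1 / 100)) * L := ⟨_, rfl⟩
  obtain ⟨D2, hD2⟩ : ∃ D2, D2 = Real.log (T / (2 * Real.pi)) - D1 - 1 / 100 * L := ⟨_, rfl⟩
  have hD2' : D2 ≤ (1 / 2 + 1 / 100) * L := by
    have h1 : Real.log (T / (2 * Real.pi)) ≤ L := by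
      rw [hLd]
      apply Real.log_le_log (by positivity)
      apply div_le_self hT0.le
      have := Real.pi_gt_three
      linarith
    rw [hD2, hD1]
    linarith
  obtain ⟨N, hN⟩ : ∃ N, N = ⌊T⌋₊ := ⟨_, rfl⟩
  have hNT : (N : ℝ) ≤ T := by rw [hN]; exact Nat.floor_le hT0.le
  have hNge : Real.exp (L - 1) ≤ N := by
    have h1 : T < (N : ℝ) + 1 := by rw [hN]; exact Nat.lt_floor_add_one T
    have h2 : Real.exp (L - 1) * 2 ≤ T := by
      rw [hTL]
      have h3 : Real.exp L = Real.exp (L - 1) * Real.exp 1 := by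
        rw [← Real.exp_add]; congr 1; ring
      rw [h3]
      apply mul_le_mul_of_nonneg_left _ (Real.exp_pos _).le
      linarith [Real.add_one_le_exp (1 : ℝ)]
    linarith
  have hN1 : 1 ≤ N := by
    have h1 : (1 : ℝ) ≤ Real.exp (L - 1) := Real.one_le_exp (by linarith)
    exact_mod_cast h1.trans hNge
  have hext : ∀ (k : ℕ) (D : ℝ), D + k * c ≤ L - 1 → ∀ t, cs k c D (cl t) = FF N (gD k c D) t := fun k D hD t =>
    cs_FF hc0 ((Real.exp_le_exp.2 hD).trans hNge) t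
  have hk1c : (((k₀ + 1 : ℕ) : ℝ)) * c ≤ 1 / 100 * L := by nlinarith
  have hcL : c ≤ 1 / 100 * L := by
    have : (0 : ℝ) ≤ ((k₀ + 1 : ℕ) : ℝ) * c := by positivity
    linarith
  have e1 : ∀ t, cs (k₀ + 1 + 1) c D1 (cl t) = FF N (gD (k₀ + 1 + 1) c D1) t := hext _ _ (by
    push_cast at hkc ⊢
    rw [hD1]
    linarith)
  have e2 : ∀ t, cs (k₀ + 1 + 1) c D2 (cl t) = FF N (gD (k₀ + 1 + 1) c D2) t := hext _ _ (by
    push_cast at hkc ⊢
    linarith)
  have e3 : ∀ u ∈ Set.Icc (-3 : ℝ) 3, ∀ t, cs (k₀ + 1) c (D2 + u + c) (cl t) = FF N (gD (k₀ + 1) c ((D2 + c) + u)) t := by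
    intro u hu t
    rw [hext (k₀ + 1) (D2 + u + c) (by linarith [hu.2]) t, show D2 + u + c = D2 + c + u by ring]
  have e4 : ∀ u ∈ Set.Icc (-3 : ℝ) 3, ∀ t, cs (k₀ + 1) c (D2 + u) (cl t) = FF N (gD (k₀ + 1) c (D2 + u)) t := by
    intro u hu t
    exact hext (k₀ + 1) (D2 + u) (by linarith [hu.2]) t
  -- the majorant
  have hU0 : 0 ≤ U := by linarith
  have hG2 := G2_cont N k₀ hc0 D2 U
  obtain ⟨Q, hQ⟩ : ∃ Q, Q = Qf N k₀ c D2 U := ⟨_, rfl⟩
  have hQc : Continuous Q := by rw [hQ]; exact Qf_cont N k₀ hc0 D2 U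
  obtain ⟨M, hM⟩ : ∃ M : ℝ → ℝ, M = fun t => 3 * (Gw N (k₀ + 1 + 1) c D1 U t + Gw N (k₀ + 1 + 1) c D2 U t + (1 + Ck / L ^ 2 * Q t)) := ⟨_, rfl⟩
  have hM1 := Gw_cont N (k₀ + 1 + 1) c D1 hU0
  have hM2 := Gw_cont N (k₀ + 1 + 1) c D2 hU0
  have hMc : Continuous M := by
    rw [hM]
    fun_prop
  have hQ0 : ∀ t, 0 ≤ Q t := fun t => by
    rw [hQ]
    exact intervalIntegral.integral_nonneg (by norm_num) fun u _ =>
      add_nonneg (Gw_nonneg _ _ _ _ hU0 _) (Gw_nonneg _ _ _ _ hU0 _)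
  have hL0 : 0 < L := by linarith
  have hM0 : ∀ t, 0 ≤ M t := by
    intro t
    have h1 := Gw_nonneg N (k₀ + 1 + 1) c D1 hU0 t
    have h2 := Gw_nonneg N (k₀ + 1 + 1) c D2 hU0 t
    have h3 := hQ0 t
    rw [hM]
    positivity
  -- pointwise
  have hpt : ∀ t ∈ Set.Icc T (2 * T), ∀ h ∈ Set.Icc 0 U, ‖ze (t + h)‖ ^ 2 ≤ M t := by
    intro t ht h hh
    have h1 := hAF T hT₀ (t + h) (by linarith [ht.1, hh.1]) (by linarith [ht.2, hh.2]) c D1 D2
      (by rw [hc, hLd]) (by rw [hD1, hLd]) (by rw [hD2, hLd])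
    rw [← hLd] at h1
    have h2 : T ^ (-(1 / 3) : ℝ) ≤ 1 := Real.rpow_le_one_of_one_le_of_nonpos (by linarith) (by norm_num)
    have h3 : ∫ u in (-3 : ℝ)..3, (‖cs (k₀ + 1) c (D2 + u + c) (cl (t + h))‖ ^ 2 + ‖cs (k₀ + 1) c (D2 + u) (cl (t + h))‖ ^ 2) ≤ Q t := by
      have i1 : ∫ u in (-3 : ℝ)..3, (‖cs (k₀ + 1) c (D2 + u + c) (cl (t + h))‖ ^ 2 + ‖cs (k₀ + 1) c (D2 + u) (cl (t + h))‖ ^ 2) =
          ∫ u in (-3 : ℝ)..3, (‖FF N (gD (k₀ + 1) c ((D2 + c) + u)) (t + h)‖ ^ 2 +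
            ‖FF N (gD (k₀ + 1) c (D2 + u)) (t + h)‖ ^ 2) := by
        refine intervalIntegral.integral_congr fun u hu => ?_
        rw [Set.uIcc_of_le (by norm_num)] at hu
        have e3' := e3 u hu (t + h)
        have e4' := e4 u hu (t + h)
        show ‖cs (k₀ + 1) c (D2 + u + c) (cl (t + h))‖ ^ 2 + ‖cs (k₀ + 1) c (D2 + u) (cl (t + h))‖ ^ 2 = _
        rw [e3', e4']
      rw [i1]
      rw [hQ]
      exact Q_ge N k₀ hc0 D2 hU1 hh.1 hh.2
    have hze : ze (t + h) = riemannZeta (cl (t + h)) := rfl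
    have h4 := Gw_sup N (k₀ + 1 + 1) c D1 (t := t) hU1 hh.1 hh.2
    have h5 := Gw_sup N (k₀ + 1 + 1) c D2 (t := t) hU1 hh.1 hh.2
    rw [← e1] at h4
    rw [← e2] at h5
    rw [← hze] at h1
    have h6 : ‖ze (t + h) - cs (k₀ + 1 + 1) c D1 (cl (t + h)) -
        XX (1 - cl (t + h)) * (starRingEnd ℂ) (cs (k₀ + 1 + 1) c D2 (cl (t + h)))‖ ^ 2 ≤ 1 + Ck / L ^ 2 * Q t := by
      refine h1.trans (add_le_add h2 ?_)
      exact mul_le_mul_of_nonneg_left h3 (by positivity)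
    rw [hM]
    exact three _ _ _ _ (Pool.Agent.TH110.N4_AFP.norm_XX_cl (t + h)) h6 h4 h5
  -- the mean
  have hK : ∀ (k : ℕ) (D : ℝ), ∫ t in T..(2 * T), Gw N k c D U t ≤ U * (189 * 4 * (T * L ^ 2)) := by
    intro k D
    refine (Gw_int hN1 k hc0 D hU0 hUT hNT).trans ?_
    rw [← hLd]
    refine mul_le_mul_of_nonneg_left ?_ hU0
    have h1 : (1 + L) ^ 2 ≤ 4 * L ^ 2 := by nlinarith
    nlinarith
  have hQi : ∫ t in T..(2 * T), Q t ≤ 12 * (U * (189 * 4 * (T * L ^ 2))) := by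
    rw [hQ]
    exact Qf_int N k₀ hc0 D2 hU0 (hK (k₀ + 1))
  have hMi : ∫ t in T..(2 * T), M t ≤ 3 * (2 * (189 * 4) + 1 + Ck * (12 * (189 * 4))) * U * T * L ^ 2 := by
    rw [hM]
    have hI := int3 hM1 hM2 hQc T (2 * T) (Ck / L ^ 2)
    refine hI.le.trans ?_
    have h1 := hK (k₀ + 1 + 1) D1
    have h2 := hK (k₀ + 1 + 1) D2
    have h3 : Ck / L ^ 2 * ∫ t in T..(2 * T), Q t ≤ Ck * (12 * (189 * 4)) * U * T * L ^ 2 := by
      have h4 : Ck / L ^ 2 * ∫ t in T..(2 * T), Q t ≤ Ck / L ^ 2 * (12 * (U * (189 * 4 * (T * L ^ 2)))) :=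
        mul_le_mul_of_nonneg_left hQi (by positivity)
      refine h4.trans ?_
      have h5 : Ck / L ^ 2 * (12 * (U * (189 * 4 * (T * L ^ 2)))) = Ck * (12 * (189 * 4)) * U * T := by
        field_simp
      rw [h5]
      have h6 : 1 ≤ L ^ 2 := by nlinarith
      exact le_mul_of_one_le_right (by positivity) h6
    have h7 : (2 * T - T) ≤ U * T * L ^ 2 := by
      have h6 : 1 ≤ L ^ 2 := by nlinarith
      have h8 : T ≤ U * T := by nlinarith
      have h9 : U * T ≤ U * T * L ^ 2 := le_mul_of_one_le_right (by positivity) h6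
      linarith
    nlinarith
  have hmk := Pool.Agent.Q237.EW.Red.markov hMc (a := T) (b := 2 * T) (r := V ^ 2) (by linarith) hM0 (by positivity)
  refine (Pool.Agent.Q237.EW.Red.meas_mono ?_).trans (hmk.trans ?_)
  · rintro t ht ⟨h, hh, hV2⟩
    exact (pow_le_pow_left₀ hV.le hV2 2).trans (hpt t ht h hh)
  · exact div_le_div_of_nonneg_right hMi (by positivity)

end

end Pool.Agent.Q195.EW
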