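import Pool.Agent.Q195.EW.MAINx
import Pool.Agent.Q195.EW.MXa

set_option autoImplicit false

/-! Project EWX (helper80), job MAXx: the maximum of zeta in windows. -/

open Filter Topology MeasureTheory Set
open Pool.Agent.Q80.EW
open Pool.Agent.Q237.EW.Red (Mu Mu_cont Mu_nonneg lower meas_mono meas_union)
open Pool.Agent.Q237.EW (erf_mono erf_lip erf_zero erf_tendsto erf_le_one erf_nonneg tendsto_S ze_cont)

namespace Pool.Agent.Q195.EW

noncomputable section

lemma erf_cont : Continuous erf := by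
  unfold erf
  exact (intervalIntegral.continuous_primitive (fun a b => Pool.Agent.Q237.EW.gc.intervalIntegrable a b) 0).const_mul _

/-- the mass above the level `b - ε` -/
def gap (ε b : ℝ) : ℝ := erf b - (erf (b - ε) + erf (b + ε)) / 2

lemma gap_eq {ε b : ℝ} (hε : 0 < ε) : erf b - GX b (b - ε) = gap ε b := by
  rw [GX_lo (by linarith), gap, show 2 * b - (b - ε) = b + ε by ring]

lemma gap_pos {ε b : ℝ} (hε : 0 < ε) (hb : 0 < b) : 0 < gap ε b := by
  have e1 := Pool.Agent.Q237.EW.erf_diff (b - ε) b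
  have e2 := Pool.Agent.Q237.EW.erf_diff b (b + ε)
  have e3 : ∫ x in b..(b + ε), Real.exp (-x ^ 2) = ∫ x in (b - ε)..b, Real.exp (-(2 * b - x) ^ 2) := by
    rw [intervalIntegral.integral_comp_sub_left (fun x => Real.exp (-x ^ 2)) (2 * b)]
    congr 1 <;> ring
  have e4 : 0 < ∫ x in (b - ε)..b, (Real.exp (-x ^ 2) - Real.exp (-(2 * b - x) ^ 2)) := by
    refine intervalIntegral.intervalIntegral_pos_of_pos_on (Continuous.intervalIntegrable (by fun_prop) _ _) ?_ (by linarith)
    intro x hx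
    rw [sub_pos]
    apply Real.exp_lt_exp.2
    have : 0 < b * (b - x) := mul_pos hb (by linarith [hx.2])
    nlinarith
  rw [intervalIntegral.integral_sub (Continuous.intervalIntegrable (by fun_prop) _ _)
    (Continuous.intervalIntegrable (by fun_prop) _ _), ← e3] at e4
  have e5 : 0 < 2 / Real.sqrt Real.pi * ((∫ x in (b - ε)..b, Real.exp (-x ^ 2)) - ∫ x in b..(b + ε), Real.exp (-x ^ 2)) :=
    mul_pos (by positivity) e4
  rw [mul_sub] at e5
  unfold gap
  linarith

lemma gap_min {ε K : ℝ} (hε : 0 < ε) : ∃ c : ℝ, 0 < c ∧ ∀ b : ℝ, ε / 2 ≤ b → b ≤ K → c ≤ gap ε b := by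
  rcases lt_or_ge K (ε / 2) with h | h
  · exact ⟨1, one_pos, fun b h1 h2 => absurd (h1.trans h2) (not_le.2 h)⟩
  · have hc : ContinuousOn (gap ε) (Icc (ε / 2) K) := by
      have := erf_cont
      unfold gap
      fun_prop
    obtain ⟨b0, hb0, hmin⟩ := isCompact_Icc.exists_isMinOn ⟨ε / 2, le_rfl, h⟩ hc
    exact ⟨gap ε b0, gap_pos hε (by linarith [hb0.1]), fun b h1 h2 => hmin ⟨h1, h2⟩⟩

lemma exp_le_self (K : ℝ) : ∀ᶠ T : ℝ in atTop, Real.exp (K * Real.sqrt (La T)) ≤ T := by
  have h8 : Tendsto La atTop atTop := Real.tendsto_log_atTop.comp Real.tendsto_log_atTop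
  filter_upwards [h8.eventually_ge_atTop (4 * |K| + 1), eventually_gt_atTop 1] with T hT hT1
  have hlog : 0 < Real.log T := Real.log_pos hT1
  have hT0 : 0 < T := by linarith
  have e1 : Real.exp (La T) = Real.log T := by
    unfold La
    exact Real.exp_log hlog
  have hK := abs_nonneg K
  obtain ⟨x, hx⟩ : ∃ x, x = La T := ⟨_, rfl⟩
  rw [← hx] at hT e1 ⊢
  have h1 : Real.sqrt x ≤ x := by
    rw [Real.sqrt_le_left (by linarith)]
    nlinarith
  have h2 : K * Real.sqrt x ≤ |K| * x :=
    (mul_le_mul_of_nonneg_right (le_abs_self K) (Real.sqrt_nonneg x)).trans (mul_le_mul_of_nonneg_left h1 hK)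
  have h3 : x ^ 2 / 4 ≤ Real.exp x := by
    have h4 := Real.add_one_le_exp (x / 2)
    have h5 : Real.exp x = Real.exp (x / 2) ^ 2 := by
      rw [← Real.exp_nat_mul]; congr 1; push_cast; ring
    rw [h5]
    nlinarith
  have h6 : K * Real.sqrt x ≤ Real.log T := by
    rw [← e1]
    nlinarith
  calc Real.exp (K * Real.sqrt x) ≤ Real.exp (Real.log T) := Real.exp_le_exp.2 h6
    _ = T := Real.exp_log hT0

/-- JOB MAXx. -/
theorem t_MAXx (hMx : J_MAINx) (hM : J_MAIN) : J_MAXx := by
  intro ε K hε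
  obtain ⟨c0, hc0, hgap⟩ := gap_min (K := K / 2) hε
  obtain ⟨C, hC, hup⟩ := sup_upper
  set a : ℝ := min (c0 / 4) (ε / 4) with ha
  have ha0 : 0 < a := lt_min (by positivity) (by positivity)
  have hac : a ≤ c0 / 4 := min_le_left _ _
  have haε : a ≤ ε / 4 := min_le_right _ _
  have evS : ∀ᶠ T : ℝ in atTop, 0 < Real.sqrt (La T) := tendsto_S.eventually (eventually_gt_atTop 0)
  have evC : ∀ᶠ T : ℝ in atTop, C * Real.exp (-(2 * ε * Real.sqrt (La T))) ≤ ε / 4 := by
    have h1 : Tendsto (fun T => -(2 * ε * Real.sqrt (La T))) atTop atBot :=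
      tendsto_neg_atTop_atBot.comp (tendsto_S.const_mul_atTop (by positivity))
    have h2 := (Real.tendsto_exp_atBot.comp h1).const_mul C
    rw [mul_zero] at h2
    exact (h2.eventually (gt_mem_nhds (by positivity : (0 : ℝ) < ε / 4))).mono fun T hT => le_of_lt hT
  filter_upwards [hMx a ha0, hM a ha0, hup, evS, evC, exp_le_self K, eventually_gt_atTop 1] with T h1 h2 h3 hS hCe hKT hT1 U hU1 hU2
  have hT0 : 0 < T := by linarith
  have hL : 0 < Real.log T := Real.log_pos hT1
  obtain ⟨S, hSd⟩ : ∃ S, S = Real.sqrt (La T) := ⟨_, rfl⟩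
  rw [← hSd] at hS hCe hKT hU1 hU2 ⊢
  have hU1' : 1 ≤ U := (Real.one_le_exp (by positivity)).trans hU1
  have hU0 : 0 < U := by linarith
  have hUT : U ≤ T := hU2.trans hKT
  have h1' := h1 U hU1' hUT
  have h2' := h2 U hU1' hUT
  rw [← hSd] at h1' h2'
  obtain ⟨b, hb⟩ : ∃ b, b = Real.log U / (2 * S) := ⟨_, rfl⟩
  rw [← hb] at h1' h2'
  have hlogU : Real.log U = 2 * (b * S) := by
    rw [hb]
    field_simp
  have hUexp : U = Real.exp (2 * (b * S)) := by rw [← hlogU, Real.exp_log hU0]
  have hb1 : ε / 2 ≤ b := by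
    have h4 : ε * S ≤ 2 * (b * S) := by
      rw [← hlogU, ← Real.log_exp (ε * S)]
      exact Real.log_le_log (Real.exp_pos _) hU1
    nlinarith
  have hb2 : b ≤ K / 2 := by
    have h4 : 2 * (b * S) ≤ K * S := by
      rw [← hlogU, ← Real.log_exp (K * S)]
      exact Real.log_le_log hU0 hU2
    nlinarith
  have hb0 : 0 < b := by linarith
  obtain ⟨V, hV⟩ : ∃ V, V = Real.exp ((b + ε) * S) * Real.log T := ⟨_, rfl⟩
  have hV0 : 0 < V := by rw [hV]; positivity
  have h3' := h3 U V hU1' hUT hV0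
  have h3e : C * U * T * Real.log T ^ 2 / V ^ 2 ≤ ε / 4 * T := by
    have e1 : C * U * T * Real.log T ^ 2 / V ^ 2 = C * Real.exp (-(2 * ε * S)) * T := by
      rw [hV, div_eq_iff (by positivity), mul_pow, ← Real.exp_nat_mul]
      have e2 : Real.exp (-(2 * ε * S)) * Real.exp (((2 : ℕ) : ℝ) * ((b + ε) * S)) = U := by
        rw [hUexp, ← Real.exp_add]
        congr 1
        push_cast
        ring
      calc C * U * T * Real.log T ^ 2 = C * (Real.exp (-(2 * ε * S)) * Real.exp (((2 : ℕ) : ℝ) * ((b + ε) * S))) * T *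
            Real.log T ^ 2 := by rw [e2]
        _ = _ := by ring
    rw [e1]
    exact mul_le_mul_of_nonneg_right hCe hT0.le
  have hsum : (volume {t : ℝ | t ∈ Set.Icc T (2 * T) ∧
      ε * S < |Real.log (⨆ u : Set.Icc t (t + U), ‖ze u‖) - La T - Real.log U / 2|}).toReal ≤
      a * T + (a * T + ε / 4 * T) := by
    refine le_trans ?_ (add_le_add h1' (add_le_add h2' (h3'.trans h3e)))
    refine le_trans ?_ (add_le_add_right meas_union _)
    refine le_trans ?_ meas_union
    apply meas_mono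
    intro t _ ht
    by_contra hcon
    rw [not_or, not_or] at hcon
    obtain ⟨c1, c2, c3⟩ := hcon
    have c1' : ∀ x : ℝ, |MZ U T x t - GX b x| ≤ a := by
      intro x
      by_contra h5
      exact c1 ⟨x, not_le.1 h5⟩
    have c2' : |MM U T t - erf b| ≤ a := not_lt.1 c2
    have c3' : ∀ u ∈ Icc t (t + U), ‖ze u‖ < V := by
      intro u hu
      by_contra h5
      apply c3
      refine ⟨u - t, ⟨by linarith [hu.1], by linarith [hu.2]⟩, ?_⟩
      rw [add_sub_cancel]
      exact not_lt.1 h5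
    -- a large value
    have hlarge : ∃ u ∈ Icc t (t + U), Real.exp ((b - ε) * S) * Real.log T < ‖ze u‖ := by
      by_contra hno
      push_neg at hno
      have h5 : MZ U T (b - ε) t = MM U T t := by
        rw [MZ_eq]
        unfold MM
        congr 1
        refine intervalIntegral.integral_congr fun u hu => ?_
        rw [Set.uIcc_of_le (by linarith)] at hu
        unfold gi
        rw [Set.indicator_of_mem]
        show ‖ze u‖ ≤ Real.exp ((b - ε) * Real.sqrt (La T)) * Real.log T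
        rw [← hSd]
        exact hno u hu
      have h6 := (abs_le.1 (c1' (b - ε))).2
      have h7 := (abs_le.1 c2').1
      have h8 := hgap b hb1 hb2
      have h9 := gap_eq (b := b) hε
      linarith
    obtain ⟨u0, hu0, hu0'⟩ := hlarge
    have hbdd : BddAbove (Set.range fun u : Set.Icc t (t + U) => ‖ze u‖) := by
      refine ⟨V, ?_⟩
      rintro _ ⟨u, rfl⟩
      exact (c3' u u.2).le
    have hne : Nonempty (Set.Icc t (t + U)) := ⟨⟨t, le_rfl, by linarith⟩⟩
    have s1 : ⨆ u : Set.Icc t (t + U), ‖ze u‖ ≤ V := ciSup_le fun u => (c3' u u.2).le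
    have s2 : Real.exp ((b - ε) * S) * Real.log T < ⨆ u : Set.Icc t (t + U), ‖ze u‖ :=
      hu0'.trans_le (le_ciSup hbdd ⟨u0, hu0⟩)
    obtain ⟨R, hR⟩ : ∃ R, R = ⨆ u : Set.Icc t (t + U), ‖ze u‖ := ⟨_, rfl⟩
    rw [← hR] at s1 s2 ht
    have hR0 : 0 < R := lt_trans (by positivity) s2
    have l1 : Real.log R ≤ (b + ε) * S + La T := by
      have := Real.log_le_log hR0 s1
      rwa [hV, Real.log_mul (Real.exp_pos _).ne' hL.ne', Real.log_exp] at this
    have l2 : (b - ε) * S + La T ≤ Real.log R := by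
      have := Real.log_le_log (by positivity) s2.le
      rwa [Real.log_mul (Real.exp_pos _).ne' hL.ne', Real.log_exp] at this
    rw [hlogU] at ht
    rcases lt_abs.1 ht with h | h
    · linarith
    · linarith
  refine hsum.trans ?_
  have := mul_le_mul_of_nonneg_right haε hT0.le
  have := mul_pos hε hT0
  linarith

end

end Pool.Agent.Q195.EW
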