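import Pool.Agent.Q80.EW.Stm
import Pool.Agent.Helper559.Mertens

set_option autoImplicit false

/-! Project EW (helper80), job MERT: the theorem of Mertens at the levels `zc y`. -/

open Pool.Agent.Q80.EW

namespace Pool.Agent.Q195.EW

noncomputable section

lemma log_two_le : Real.log 2 ≤ 3 / 4 := by
  have := Real.log_two_lt_d9
  linarith

/-- `S (zc y - 1) = VV y` -/
lemma VV_eq (y : ℝ) : VV y = Pool.Agent.Helper559.S (zc y - 1) := by
  unfold VV Pool.Agent.Helper559.S
  refine Finset.sum_congr ?_ fun _ _ => rfl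
  ext p
  simp only [Nat.mem_primesBelow, Finset.mem_filter, Finset.mem_Icc]
  constructor
  · rintro ⟨h1, h2⟩
    exact ⟨⟨h2.one_lt.le, by omega⟩, h2⟩
  · rintro ⟨⟨h0, h1⟩, h2⟩
    exact ⟨by omega, h2⟩

lemma loglog_zc {y : ℝ} (hy : 0 ≤ y) : 2 ≤ zc y - 1 ∧ |Real.log (Real.log ((zc y - 1 : ℕ) : ℝ)) - y| ≤ 2 := by
  have h1 : (1 : ℝ) ≤ Real.exp y := Real.one_le_exp hy
  set E : ℝ := Real.exp (Real.exp y) with hE
  have hE2 : (2.7 : ℝ) < E := by
    have := Real.exp_one_gt_d9
    have h2 : Real.exp 1 ≤ E := Real.exp_le_exp.2 h1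
    linarith
  have hz1 : E ≤ (zc y : ℝ) := Nat.le_ceil _
  have hz2 : (zc y : ℝ) < E + 1 := Nat.ceil_lt_add_one (by linarith)
  have hz3 : 3 ≤ zc y := by
    have h : (2 : ℝ) < (zc y : ℝ) := by linarith
    have : 2 < zc y := by exact_mod_cast h
    omega
  refine ⟨by omega, ?_⟩
  have hn : (((zc y - 1 : ℕ)) : ℝ) = (zc y : ℝ) - 1 := by
    rw [Nat.cast_sub (by omega)]
    simp
  rw [hn]
  set n : ℝ := (zc y : ℝ) - 1 with hn'
  have hn1 : n < E := by linarith
  have hn2 : E / 2 ≤ n := by linarith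
  have hn0 : 0 < n := by linarith
  have hl1 : Real.log n ≤ Real.exp y := by
    have := Real.log_le_log hn0 hn1.le
    rwa [hE, Real.log_exp] at this
  have hl2 : Real.exp y - Real.log 2 ≤ Real.log n := by
    have := Real.log_le_log (by positivity) hn2
    rwa [Real.log_div (by positivity) (by norm_num), hE, Real.log_exp] at this
  have hl3 : Real.exp y / 4 ≤ Real.log n := by
    have := log_two_le
    linarith
  have hl0 : 0 < Real.log n := by linarith
  rw [abs_le]
  constructor
  · have h5 := Real.log_le_log (by positivity) hl3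
    rw [Real.log_div (by positivity) (by norm_num), Real.log_exp] at h5
    have h6 : Real.log 4 ≤ 2 := by
      have : (4 : ℝ) = 2 ^ 2 := by norm_num
      rw [this, Real.log_pow]
      have := log_two_le
      push_cast
      linarith
    linarith
  · have h5 := Real.log_le_log hl0 hl1
    rw [Real.log_exp] at h5
    linarith

theorem t_MERT : J_MERT := by
  obtain ⟨C, _, hC⟩ := Pool.Agent.Helper559.mertens
  refine ⟨C + 2, fun y hy => ?_⟩
  obtain ⟨h1, h2⟩ := loglog_zc hy
  have h3 := hC _ h1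
  rw [VV_eq]
  rw [abs_le] at h2 h3 ⊢
  constructor <;> linarith [h2.1, h2.2, h3.1, h3.2]

end

end Pool.Agent.Q195.EW
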