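import Pool.Agent.Q80.EW.Stm6
import Pool.Agent.Q237.EW.Red

set_option autoImplicit false

/-! Project EWX (helper80), job MAINx: abstract part (lower bounds for all windows) and the limit function. -/

open Filter Topology MeasureTheory Set
open Pool.Agent.Q80.EW
open Pool.Agent.Q237.EW.Red (Mu Mu_cont Mu_nonneg lower meas_mono meas_union)
open Pool.Agent.Q237.EW (erf_mono erf_lip erf_zero erf_tendsto erf_le_one erf_nonneg tendsto_S)

namespace Pool.Agent.Q195.EW

noncomputable section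

/-! ### the limit function -/

lemma erf_neg (b : ℝ) : erf (-b) = -erf b := by
  unfold erf
  have h := intervalIntegral.integral_comp_neg (a := 0) (b := b) (fun x => Real.exp (-x ^ 2))
  have e : ∀ x : ℝ, Real.exp (-(-x) ^ 2) = Real.exp (-x ^ 2) := fun x => by rw [neg_sq]
  simp only [e, neg_zero] at h
  rw [intervalIntegral.integral_symm, ← h]
  ring

lemma GX_eq (b x : ℝ) : GX b x = (erf (min x b) + erf (2 * b - min x b)) / 2 := by
  unfold GX
  rw [show min x b - 2 * b = -(2 * b - min x b) by ring, erf_neg]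
  ring

lemma GX_hi {b x : ℝ} (h : b ≤ x) : GX b x = erf b := by
  rw [GX_eq, min_eq_right h]
  ring_nf

lemma GX_lo {b x : ℝ} (h : x ≤ b) : GX b x = (erf x + erf (2 * b - x)) / 2 := by
  rw [GX_eq, min_eq_left h]

lemma GX_lip_x {b x y : ℝ} (h : x ≤ y) : GX b y - GX b x ≤ 1.2 * (y - x) := by
  unfold GX
  have h1 : min x b ≤ min y b := min_le_min_right b h
  have h2 : min y b - min x b ≤ y - x := by
    rcases le_total y b with h3 | h3
    · rw [min_eq_left h3, min_eq_left (h.trans h3)]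
    · rw [min_eq_right h3]
      rcases le_total x b with h4 | h4
      · rw [min_eq_left h4]; linarith
      · rw [min_eq_right h4]; linarith
  have h3 := erf_lip h1
  have h4 : erf (min x b - 2 * b) ≤ erf (min y b - 2 * b) := erf_mono (by linarith)
  linarith

lemma GX_mono_x {b x y : ℝ} (hb : 0 ≤ b) (h : x ≤ y) : GX b x ≤ GX b y := by
  -- the density is nonnegative: `erf` on the shifted intervals
  have key : ∀ u v : ℝ, u ≤ v → v ≤ b → erf u - erf (u - 2 * b) ≤ erf v - erf (v - 2 * b) := by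
    intro u v huv hv
    have e1 := Pool.Agent.Q237.EW.erf_diff u v
    have e2 := Pool.Agent.Q237.EW.erf_diff (u - 2 * b) (v - 2 * b)
    have e3 : ∫ s in (u - 2 * b)..(v - 2 * b), Real.exp (-s ^ 2) ≤ ∫ s in u..v, Real.exp (-s ^ 2) := by
      rw [← intervalIntegral.integral_comp_sub_right (fun s => Real.exp (-s ^ 2)) (2 * b)]
      refine intervalIntegral.integral_mono_on huv (Continuous.intervalIntegrable (by fun_prop) _ _)
        (Continuous.intervalIntegrable (by fun_prop) _ _) ?_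
      intro s hs
      apply Real.exp_le_exp.2
      have h1 : 0 ≤ b * (b - s) := mul_nonneg hb (by linarith [hs.2])
      nlinarith
    have e4 : 2 / Real.sqrt Real.pi * (∫ s in (u - 2 * b)..(v - 2 * b), Real.exp (-s ^ 2)) ≤
        2 / Real.sqrt Real.pi * ∫ s in u..v, Real.exp (-s ^ 2) := mul_le_mul_of_nonneg_left e3 (by positivity)
    linarith
  unfold GX
  have := key (min x b) (min y b) (min_le_min_right b h) (min_le_right _ _)
  linarith

lemma GX_nonneg {b x : ℝ} (hb : 0 ≤ b) : 0 ≤ GX b x := by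
  unfold GX
  have h : erf (min x b - 2 * b) ≤ erf (min x b) := erf_mono (by linarith)
  linarith

lemma GX_le_erf {b x : ℝ} (hb : 0 ≤ b) : GX b x ≤ erf b := by
  rw [← GX_hi (le_max_right x b)]
  exact GX_mono_x hb (le_max_left x b)

lemma GX_le {b x : ℝ} : GX b x ≤ (1 + erf x) / 2 := by
  rw [GX_eq]
  have h1 : erf (min x b) ≤ erf x := erf_mono (min_le_left _ _)
  have h2 := erf_le_one (2 * b - min x b)
  linarith

lemma GX_mono_b {b c x : ℝ} (h : b ≤ c) : GX b x ≤ GX c x := by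
  rcases le_total x b with h1 | h1
  · rw [GX_lo h1, GX_lo (h1.trans h)]
    have : erf (2 * b - x) ≤ erf (2 * c - x) := erf_mono (by linarith)
    linarith
  · rw [GX_hi h1]
    rcases le_total c x with h2 | h2
    · rw [GX_hi h2]
      exact erf_mono h
    · rw [GX_lo h2]
      have h3 : erf b ≤ erf x := erf_mono h1
      have h4 : erf b ≤ erf (2 * c - x) := erf_mono (by linarith)
      linarith

lemma GX_lip_b {b c x : ℝ} (h : b ≤ c) : GX c x - GX b x ≤ 1.2 * (c - b) := by
  rcases le_total x b with h1 | h1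
  · rw [GX_lo h1, GX_lo (h1.trans h)]
    have := erf_lip (a := 2 * b - x) (b := 2 * c - x) (by linarith)
    linarith
  · rw [GX_hi h1]
    rcases le_total c x with h2 | h2
    · rw [GX_hi h2]
      exact erf_lip h
    · rw [GX_lo h2]
      have h3 := erf_lip h1
      have h4 := erf_lip (a := b) (b := 2 * c - x) (by linarith)
      linarith

/-! ### lower bounds for all windows -/

/-- the deficit in the mean -/
lemma deficit {g : ℝ → ℝ} (hg : Continuous g) (h0 : ∀ t, 0 ≤ g t) {N W T c κ : ℝ} (hN : 0 < N) (hW : 0 < W) (hT : 0 < T)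
    (hc1 : c ≤ 1) (hκ : 0 < κ)
    (h : (volume {t : ℝ | t ∈ Icc T (3 * T) ∧ Mu g N W t < c - κ}).toReal ≤ κ * T) :
    ∫ t in T..(3 * T), max (c - Mu g N W t) 0 ≤ 3 * κ * T := by
  have hMc : Continuous (Mu g N W) := Mu_cont hg N W
  have hM0 : ∀ t, 0 ≤ Mu g N W t := Mu_nonneg h0 hN hW
  set A : Set ℝ := {t : ℝ | Mu g N W t < c - κ} with hA
  have hAm : MeasurableSet A := measurableSet_lt hMc.measurable measurable_const
  have hpt : ∀ t, max (c - Mu g N W t) 0 ≤ κ + indicator A (fun _ => (1 : ℝ)) t := by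
    intro t
    by_cases ht : t ∈ A
    · rw [indicator_of_mem ht]
      exact max_le (by linarith [hM0 t]) (by linarith)
    · rw [indicator_of_notMem ht, add_zero]
      have a1 : c - κ ≤ Mu g N W t := not_lt.1 ht
      exact max_le (by linarith) hκ.le
  have i1 : IntegrableOn (indicator A (fun _ => (1 : ℝ))) (Icc T (3 * T)) :=
    (integrableOn_const (by simp)).indicator hAm
  have i0 : IntegrableOn (fun _ : ℝ => κ) (Icc T (3 * T)) := integrableOn_const (by simp)
  have h2 : ∫ t in T..(3 * T), max (c - Mu g N W t) 0 ≤ ∫ t in T..(3 * T), (κ + indicator A (fun _ => (1 : ℝ)) t) := by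
    apply intervalIntegral.integral_mono_on (by linarith)
    · exact Continuous.intervalIntegrable (by fun_prop) _ _
    · rw [intervalIntegrable_iff_integrableOn_Icc_of_le (by linarith)]
      exact i0.add i1
    · intro t _
      exact hpt t
  have h3 : ∫ t in T..(3 * T), (κ + indicator A (fun _ => (1 : ℝ)) t) =
      2 * T * κ + (volume {t : ℝ | t ∈ Set.Icc T (3 * T) ∧ Mu g N W t < c - κ}).toReal := by
    rw [intervalIntegral.integral_of_le (by linarith), ← integral_Icc_eq_integral_Ioc,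
      integral_add i0 i1, setIntegral_indicator hAm, setIntegral_const, setIntegral_const,
      smul_eq_mul, smul_eq_mul, mul_one, measureReal_def, measureReal_def, Real.volume_Icc,
      ENNReal.toReal_ofReal (by linarith)]
    have e1 : Icc T (3 * T) ∩ A = {t : ℝ | t ∈ Set.Icc T (3 * T) ∧ Mu g N W t < c - κ} := rfl
    rw [e1]
    ring
  rw [h3] at h2
  nlinarith

/-- **lower bounds for all windows from lower bounds for the windows `exp(y √Λ)`** -/
theorem low_all {g : ℝ → ℝ → ℝ} (hg : ∀ᶠ T : ℝ in atTop, Continuous (g T)) (h0 : ∀ᶠ T : ℝ in atTop, ∀ t, 0 ≤ g T t) {H : ℝ → ℝ}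
    (H0 : H 0 = 0) (H1 : ∀ y, 0 ≤ y → 0 ≤ H y) (H1' : ∀ y, H y ≤ 1) (H2 : ∀ y z, y ≤ z → H z - H y ≤ 2 * (z - y))
    (H3 : ∀ a : ℝ, 0 < a → ∃ Y : ℝ, ∀ y z, Y ≤ y → y ≤ z → H z ≤ H y + a)
    (hlaw : ∀ y : ℝ, 0 < y → ∀ κ : ℝ, 0 < κ → ∀ᶠ T : ℝ in atTop, (volume {t : ℝ | t ∈ Icc T (3 * T) ∧
      Mu (g T) (Real.log T) (Real.exp (y * Real.sqrt (La T))) t < H y - κ}).toReal ≤ κ * T) {a : ℝ} (ha : 0 < a) :
    ∀ᶠ T : ℝ in atTop, ∀ U : ℝ, 1 ≤ U → U ≤ T →
      (volume {t : ℝ | t ∈ Icc T (2 * T) ∧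
        Mu (g T) (Real.log T) U t < H (Real.log U / Real.sqrt (La T)) - a}).toReal ≤ a * T := by
  wlog ha1 : a ≤ 1 with hw
  · have h := hw hg h0 H0 H1 H1' H2 H3 hlaw one_pos le_rfl
    filter_upwards [h, eventually_gt_atTop 0] with T hT hT0 U hU1 hU2
    refine (meas_mono ?_).trans ((hT U hU1 hU2).trans (by nlinarith))
    intro t _ ht
    linarith
  set δ : ℝ := a / 8 with hδ
  have hδ0 : 0 < δ := by positivity
  set κ : ℝ := a / 8 with hκ
  have hκ0 : 0 < κ := by positivity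
  obtain ⟨Y, hY⟩ := H3 (a / 4) (by positivity)
  obtain ⟨n, hn1, hn⟩ : ∃ n : ℕ, 1 ≤ n ∧ Y ≤ (n : ℝ) * δ := by
    refine ⟨⌈Y / δ⌉₊ + 1, by omega, ?_⟩
    have h1 := Nat.le_ceil (Y / δ)
    rw [div_le_iff₀ hδ0] at h1
    push_cast
    nlinarith
  have ev1 : ∀ᶠ T : ℝ in atTop, ∀ j ∈ Finset.Icc 1 n, (volume {t : ℝ | t ∈ Icc T (3 * T) ∧
      Mu (g T) (Real.log T) (Real.exp ((j : ℝ) * δ * Real.sqrt (La T))) t < H ((j : ℝ) * δ) - a ^ 2 / 64}).toReal ≤ a ^ 2 / 64 * T := by
    rw [eventually_all_finset]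
    intro j hj
    have hj1 : (1 : ℝ) ≤ j := by exact_mod_cast (Finset.mem_Icc.1 hj).1
    exact hlaw _ (by positivity) _ (by positivity)
  have ev2 : ∀ᶠ T : ℝ in atTop, Real.exp (-(δ * Real.sqrt (La T))) ≤ κ := by
    have h1 : Tendsto (fun T => -(δ * Real.sqrt (La T))) atTop atBot :=
      tendsto_neg_atTop_atBot.comp (tendsto_S.const_mul_atTop hδ0)
    exact ((Real.tendsto_exp_atBot.comp h1).eventually (gt_mem_nhds hκ0)).mono fun T hT => le_of_lt hT
  have ev5 : ∀ᶠ T : ℝ in atTop, 0 < Real.sqrt (La T) := tendsto_S.eventually (eventually_gt_atTop 0)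
  filter_upwards [ev1, ev2, ev5, eventually_ge_atTop 3, hg, h0] with T e1 e2 e5 e6 hgc hg0 U hU1 hUT
  have hT0 : 0 < T := by linarith
  have hU0 : 0 < U := by linarith
  have hN : 0 < Real.log T := Real.log_pos (by linarith)
  set S := Real.sqrt (La T) with hSd
  set y : ℝ := Real.log U / S with hy
  have hlogU : 0 ≤ Real.log U := Real.log_nonneg hU1
  have hy0 : 0 ≤ y := by positivity
  have hUy : U = Real.exp (y * S) := by
    rw [hy, div_mul_cancel₀ _ e5.ne', Real.exp_log hU0]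
  have hMc : Continuous (fun t => Mu (g T) (Real.log T) U t) := Mu_cont hgc _ _
  have hM0 : ∀ t, 0 ≤ Mu (g T) (Real.log T) U t := Mu_nonneg hg0 hN hU0
  rcases lt_or_ge y (2 * δ) with hs | hs
  · have h1 : {t : ℝ | t ∈ Icc T (2 * T) ∧ Mu (g T) (Real.log T) U t < H y - a} = ∅ := by
      ext t
      simp only [mem_setOf_eq, mem_empty_iff_false, iff_false, not_and, not_lt]
      intro _
      have h2 := H2 0 y hy0
      rw [H0] at h2
      linarith [hM0 t]
    rw [h1]
    simp
    positivity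
  set i : ℕ := ⌊y / δ⌋₊ with hi
  have hi1 : (i : ℝ) * δ ≤ y := by
    have := Nat.floor_le (show 0 ≤ y / δ by positivity)
    rwa [le_div_iff₀ hδ0] at this
  have hi2 : y < ((i : ℝ) + 1) * δ := by
    have := Nat.lt_floor_add_one (y / δ)
    rwa [div_lt_iff₀ hδ0] at this
  have hi3 : 2 ≤ i := by
    have : 2 ≤ y / δ := by rwa [le_div_iff₀ hδ0]
    exact Nat.le_floor (by exact_mod_cast this)
  obtain ⟨j, hj1, hjn, hji, hjH⟩ : ∃ j : ℕ, 1 ≤ j ∧ j ≤ n ∧ (j : ℝ) * δ + δ ≤ y ∧ H y ≤ H ((j : ℝ) * δ) + a / 2 := by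
    rcases le_total (i - 1) n with hin | hin
    · have hc1 : (((i - 1 : ℕ) : ℝ)) = (i : ℝ) - 1 := by
        rw [Nat.cast_sub (by omega)]
        simp
      refine ⟨i - 1, by omega, hin, by rw [hc1]; linarith, ?_⟩
      have h1 := H2 (((i - 1 : ℕ) : ℝ) * δ) y (by rw [hc1]; linarith)
      rw [hc1] at h1 ⊢
      have h2 : y - ((i : ℝ) - 1) * δ ≤ 2 * δ := by linarith
      linarith
    · have hin' : (n : ℝ) + 1 ≤ i := by exact_mod_cast (by omega : n + 1 ≤ i)
      have h3 : (n : ℝ) * δ + δ ≤ y := by nlinarith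
      refine ⟨n, hn1, le_rfl, h3, ?_⟩
      have := hY ((n : ℝ) * δ) y hn (by linarith)
      linarith
  have hj0 : (1 : ℝ) ≤ j := by exact_mod_cast hj1
  have hW : Real.exp ((j : ℝ) * δ * S) ≤ κ * U := by
    have h1 : Real.exp ((j : ℝ) * δ * S) ≤ Real.exp (-(δ * S)) * U := by
      rw [hUy, ← Real.exp_add]
      apply Real.exp_le_exp.2
      nlinarith
    refine h1.trans ?_
    gcongr
  have hdef := deficit hgc hg0 (N := Real.log T) (W := Real.exp ((j : ℝ) * δ * S)) (T := T) (c := H ((j : ℝ) * δ))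
    (κ := a ^ 2 / 64) hN (Real.exp_pos _) hT0 (H1' _) (by positivity) (e1 j (Finset.mem_Icc.2 ⟨hj1, hjn⟩))
  have hfc : Continuous (fun t => max (H ((j : ℝ) * δ) - Mu (g T) (Real.log T) (Real.exp ((j : ℝ) * δ * S)) t) 0) := by
    have : Continuous (Mu (g T) (Real.log T) (Real.exp ((j : ℝ) * δ * S))) := Mu_cont hgc _ _
    fun_prop
  have hlow := lower (g := g T) (N := Real.log T) hgc hg0 hN hfc (fun t => le_max_right _ _)
    (W := Real.exp ((j : ℝ) * δ * S)) (U := U) (T := T) (c := H ((j : ℝ) * δ)) (κ := κ) (r := a / 8)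
    (Real.exp_pos _) hW (by linarith) hU0 hUT (H1 _ (by positivity)) (H1' _) (by positivity)
    (fun t => by
      have := le_max_left (H ((j : ℝ) * δ) - Mu (g T) (Real.log T) (Real.exp ((j : ℝ) * δ * S)) t) 0
      linarith)
  calc (volume {t : ℝ | t ∈ Icc T (2 * T) ∧ Mu (g T) (Real.log T) U t < H y - a}).toReal
      ≤ (volume {t : ℝ | t ∈ Icc T (2 * T) ∧ Mu (g T) (Real.log T) U t < H ((j : ℝ) * δ) - κ - a / 8}).toReal := by
        apply meas_mono
        intro t _ ht
        linarith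
    _ ≤ _ := hlow
    _ ≤ (3 * (a ^ 2 / 64) * T) / (a / 8) := by gcongr
    _ = 3 / 8 * a * T := by
        field_simp
        ring
    _ ≤ a * T := by nlinarith

end

end Pool.Agent.Q195.EW
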