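import Pool.Agent.Q195.EW.Dec
import Pool.Agent.Q195.EW.MERT

set_option autoImplicit false

/-! Project EW (helper80): Rankin bound for the missing terms. -/

open Pool.Agent.Q80.EW

namespace Pool.Agent.Q195.EW

noncomputable section

/-- the Rankin weight -/
def rf : ℕ →* ℝ where
  toFun n := (5 / 4 : ℝ) ^ ArithmeticFunction.cardFactors n / n
  map_one' := by simp
  map_mul' m n := by
    rcases eq_or_ne m 0 with rfl | hm
    · simp
    rcases eq_or_ne n 0 with rfl | hn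
    · simp
    rw [ArithmeticFunction.cardFactors_mul hm hn, pow_add]
    push_cast
    rw [mul_div_mul_comm]

lemma rf_apply (n : ℕ) : rf n = (5 / 4 : ℝ) ^ ArithmeticFunction.cardFactors n / n := rfl

lemma rf_prime {p : ℕ} (hp : p.Prime) : rf p = 5 / 4 / p := by
  rw [rf_apply, ArithmeticFunction.cardFactors_apply_prime hp, pow_one]

lemma local_le {p : ℕ} (hp : p.Prime) : (1 - rf p)⁻¹ ≤ Real.exp (5 / 4 * (1 / p) + 5 * ((p : ℝ) ^ 2)⁻¹) ∧ 0 ≤ (1 - rf p)⁻¹ := by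
  have hp2 : (2 : ℝ) ≤ p := by exact_mod_cast hp.two_le
  have hp0 : (0 : ℝ) < p := by linarith
  rw [rf_prime hp]
  set x : ℝ := 5 / 4 / p with hx
  have hx1 : x ≤ 5 / 8 := by
    rw [hx, div_le_iff₀ hp0]
    linarith
  have hx0 : 0 ≤ x := by positivity
  refine ⟨?_, by rw [inv_nonneg]; linarith⟩
  have h1 : (1 - x)⁻¹ = 1 + x / (1 - x) := by
    have : 1 - x ≠ 0 := by linarith
    field_simp
    ring
  have h2 : x / (1 - x) ≤ 5 / 4 * (1 / p) + 5 * ((p : ℝ) ^ 2)⁻¹ := by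
    have e : x / (1 - x) = x + x ^ 2 / (1 - x) := by
      have : 1 - x ≠ 0 := by linarith
      field_simp
      ring
    have h3 : x ^ 2 / (1 - x) ≤ x ^ 2 / (3 / 8) := by
      apply div_le_div_of_nonneg_left (by positivity) (by norm_num) (by linarith)
    have h4 : x ^ 2 / (3 / 8) ≤ 5 * ((p : ℝ) ^ 2)⁻¹ := by
      have : x ^ 2 = 25 / 16 * ((p : ℝ) ^ 2)⁻¹ := by
        rw [hx]; field_simp; norm_num
      rw [this]
      have : 0 < ((p : ℝ) ^ 2)⁻¹ := by positivity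
      linarith
    have h5 : x = 5 / 4 * (1 / p) := by rw [hx]; field_simp
    linarith
  rw [h1]
  have := Real.add_one_le_exp (x / (1 - x))
  have h6 := Real.exp_le_exp.2 h2
  linarith

lemma prod_le (Z : ℕ) : ∏ p ∈ Z.primesBelow, (1 - rf p)⁻¹ ≤
    Real.exp (5 / 4 * ∑ p ∈ Z.primesBelow, (1 : ℝ) / p + 5) := by
  have h1 : ∏ p ∈ Z.primesBelow, (1 - rf p)⁻¹ ≤
      ∏ p ∈ Z.primesBelow, Real.exp (5 / 4 * (1 / p) + 5 * ((p : ℝ) ^ 2)⁻¹) :=
    Finset.prod_le_prod (fun p hp => (local_le (Nat.prime_of_mem_primesBelow hp)).2)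
      fun p hp => (local_le (Nat.prime_of_mem_primesBelow hp)).1
  refine h1.trans ?_
  rw [← Real.exp_sum]
  apply Real.exp_le_exp.2
  rw [Finset.sum_add_distrib, ← Finset.mul_sum, ← Finset.mul_sum]
  have h2 : ∑ p ∈ Z.primesBelow, ((p : ℝ) ^ 2)⁻¹ ≤ ∑ p ∈ Finset.Ioc 1 (Z + 1), ((p : ℝ) ^ 2)⁻¹ := by
    refine Finset.sum_le_sum_of_subset_of_nonneg ?_ fun _ _ _ => by positivity
    intro p hp
    have h3 := Nat.prime_of_mem_primesBelow hp
    have h4 := Nat.lt_of_mem_primesBelow hp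
    rw [Finset.mem_Ioc]
    exact ⟨h3.one_lt, by omega⟩
  have h3 := sum_Ioc_inv_sq_le_sub (α := ℝ) (k := 1) (n := Z + 1) one_ne_zero (by omega)
  have h4 : (0 : ℝ) ≤ ((Z + 1 : ℕ) : ℝ)⁻¹ := by positivity
  have h5 : ((1 : ℕ) : ℝ)⁻¹ = 1 := by simp
  linarith

lemma rankin (Z l : ℕ) (s : Finset ℕ) (hs : ∀ a ∈ s, a ∈ Nat.smoothNumbers Z ∧ l < ArithmeticFunction.cardFactors a) :
    ∑ a ∈ s, (1 : ℝ) / a ≤ (4 / 5 : ℝ) ^ l * Real.exp (5 / 4 * ∑ p ∈ Z.primesBelow, (1 : ℝ) / p + 5) := by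
  classical
  have hf0 : ∀ n, 0 ≤ rf n := fun n => by rw [rf_apply]; positivity
  obtain ⟨h1, h2⟩ := EulerProduct.summable_and_hasSum_smoothNumbers_prod_primesBelow_geometric (f := rf) (fun {p} hp => by
    rw [rf_prime hp, Real.norm_of_nonneg (by positivity)]
    have : (2 : ℝ) ≤ p := by exact_mod_cast hp.two_le
    rw [div_lt_one (by linarith)]
    linarith) Z
  have h3 : ∑ a ∈ s, rf a ≤ ∏ p ∈ Z.primesBelow, (1 - rf p)⁻¹ := by
    have h4 := sum_le_hasSum (s.subtype (· ∈ Nat.smoothNumbers Z)) (fun i _ => hf0 i) h2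
    rwa [Finset.sum_subtype_of_mem (fun n => rf n) (fun a ha => (hs a ha).1)] at h4
  have h5 : ∑ a ∈ s, (1 : ℝ) / a ≤ (4 / 5 : ℝ) ^ l * ∑ a ∈ s, rf a := by
    rw [Finset.mul_sum]
    refine Finset.sum_le_sum fun a ha => ?_
    rw [rf_apply, mul_div_assoc']
    apply div_le_div_of_nonneg_right _ (Nat.cast_nonneg a)
    have h6 : (5 / 4 : ℝ) ^ l ≤ (5 / 4 : ℝ) ^ ArithmeticFunction.cardFactors a :=
      pow_le_pow_right₀ (by norm_num) (hs a ha).2.le
    have h7 : (4 / 5 : ℝ) ^ l * (5 / 4 : ℝ) ^ l = 1 := by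
      rw [← mul_pow]; norm_num
    have h8 : (0 : ℝ) < (4 / 5 : ℝ) ^ l := by positivity
    nlinarith
  refine h5.trans (mul_le_mul_of_nonneg_left (h3.trans (prod_le Z)) (by positivity))

/-- the harmonic sum of the missing terms -/
lemma missing (l Z X : ℕ) : ∑ n ∈ Finset.Icc 1 X, (1 - ‖DD l Z X n‖) / (n : ℝ) ≤
    (4 / 5 : ℝ) ^ l * Real.exp (5 / 4 * ∑ p ∈ Z.primesBelow, (1 : ℝ) / p + 5) * (1 + Real.log X) := by
  classical
  set S : Finset ℕ := (Finset.Icc 1 X).filter (fun n => DD l Z X n = 0) with hS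
  have e1 : ∑ n ∈ Finset.Icc 1 X, (1 - ‖DD l Z X n‖) / (n : ℝ) = ∑ n ∈ S, (1 : ℝ) / n := by
    rw [hS, Finset.sum_filter]
    refine Finset.sum_congr rfl fun n _ => ?_
    rcases DD_01 l Z X n with h | h
    · rw [if_pos h, h]; simp
    · rw [if_neg (by rw [h]; exact one_ne_zero), h]; simp
  rw [e1]
  have hch : ∀ n ∈ S, ∃ x : ℕ × ℕ, x.1 * x.2 = n ∧ x.1 ∈ (Finset.Icc 1 X).filter
      (fun a => a ∈ Nat.smoothNumbers Z ∧ l < ArithmeticFunction.cardFactors a) ∧ x.2 ∈ Finset.Icc 1 X := by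
    intro n hn
    rw [hS, Finset.mem_filter, Finset.mem_Icc] at hn
    obtain ⟨a, b, ha, hb, hab⟩ := dec Z n (by omega)
    have hb0 := hb.1
    have ha0 := ha.1
    have haX : a ≤ X := by
      have : a ≤ n := Nat.le_of_dvd (by omega) ⟨b, hab.symm⟩
      omega
    have hbX : b ≤ X := by
      have : b ≤ n := Nat.le_of_dvd (by omega) ⟨a, by rw [mul_comm]; exact hab.symm⟩
      omega
    refine ⟨(a, b), hab, ?_, ?_⟩
    · rw [Finset.mem_filter, Finset.mem_Icc]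
      refine ⟨⟨by omega, haX⟩, ha, ?_⟩
      have h := hn.2
      rw [← hab, DD_val ha hb] at h
      by_contra hc
      simp only at hc
      rw [if_pos ⟨by omega, hbX⟩] at h
      exact one_ne_zero h
    · rw [Finset.mem_Icc]
      exact ⟨by omega, hbX⟩
  choose! c hc1 hc2 hc3 using hch
  set A : Finset ℕ := (Finset.Icc 1 X).filter
      (fun a => a ∈ Nat.smoothNumbers Z ∧ l < ArithmeticFunction.cardFactors a) with hA
  have h1 : ∑ n ∈ S, (1 : ℝ) / n ≤ (∑ a ∈ A, (1 : ℝ) / a) * ∑ b ∈ Finset.Icc 1 X, (1 : ℝ) / b := by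
    rw [Finset.sum_mul_sum, ← Finset.sum_product']
    have e2 : ∑ n ∈ S, (1 : ℝ) / n = ∑ x ∈ S.image c, (1 : ℝ) / x.1 * (1 / x.2) := by
      rw [Finset.sum_image]
      · refine Finset.sum_congr rfl fun n hn => ?_
        rw [one_div_mul_one_div, ← Nat.cast_mul, hc1 n hn]
      · intro m hm n hn h
        rw [← hc1 m hm, ← hc1 n hn, h]
    rw [e2]
    refine Finset.sum_le_sum_of_subset_of_nonneg ?_ fun _ _ _ => by positivity
    intro x hx
    rw [Finset.mem_image] at hx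
    obtain ⟨n, hn, rfl⟩ := hx
    rw [Finset.mem_product]
    exact ⟨hc2 n hn, hc3 n hn⟩
  refine h1.trans ?_
  have h2 := rankin Z l A (fun a ha => by
    rw [hA, Finset.mem_filter] at ha
    exact ha.2)
  have h3 : ∑ b ∈ Finset.Icc 1 X, (1 : ℝ) / b ≤ 1 + Real.log X := by
    have h := harmonic_le_one_add_log X
    rw [harmonic_eq_sum_Icc] at h
    push_cast at h ⊢
    simpa using h
  refine mul_le_mul h2 h3 (Finset.sum_nonneg fun _ _ => by positivity) (by positivity)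

end

end Pool.Agent.Q195.EW
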