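import Pool.Agent.Q80.EW.Stm5

set_option autoImplicit false

/-! Project EWD (helper80), job TRG: trigonometric approximation of the indicator of a half line. -/

open MeasureTheory Complex Filter Topology
open Pool.Agent.Q80.EW

namespace Pool.Agent.Q195.EW

noncomputable section

/-- tightness and no atoms -/
lemma tight (b ε : ℝ) (hε : 0 < ε) : ∃ A r : ℝ, 0 < A ∧ 0 < r ∧
    (gm 1 (Fin 1)).real {x | A < |x 0| ∨ |x 0 - b| < r} ≤ ε := by
  set v : NNReal := Real.toNNReal (1 / (2 * ((1 : ℕ) : ℝ))) with hv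
  have hv0 : v ≠ 0 := by
    rw [hv, Ne, Real.toNNReal_eq_zero, not_le]
    norm_num
  set μ : Measure ℝ := ProbabilityTheory.gaussianReal 0 v with hμ
  have hmp : MeasurePreserving (Function.eval (0 : Fin 1)) (gm 1 (Fin 1)) μ :=
    measurePreserving_eval (fun _ : Fin 1 => μ) 0
  set S : ℕ → Set ℝ := fun n => {y : ℝ | ((n : ℝ) + 1) < |y| ∨ |y - b| < 1 / ((n : ℝ) + 1)} with hS
  have hSm : ∀ n, MeasurableSet (S n) := by
    intro n
    have c1 : Continuous fun y : ℝ => |y| := by fun_prop
    have c2 : Continuous fun y : ℝ => |y - b| := by fun_prop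
    exact ((isOpen_lt continuous_const c1).union (isOpen_lt c2 continuous_const)).measurableSet
  have hanti : Antitone S := by
    intro m n hmn y hy
    have h1 : (m : ℝ) ≤ n := by exact_mod_cast hmn
    rcases hy with hy | hy
    · left
      show (m : ℝ) + 1 < |y|
      have : (n : ℝ) + 1 < |y| := hy
      linarith
    · right
      show |y - b| < 1 / ((m : ℝ) + 1)
      have h2 : |y - b| < 1 / ((n : ℝ) + 1) := hy
      have h3 : 1 / ((n : ℝ) + 1) ≤ 1 / ((m : ℝ) + 1) := one_div_le_one_div_of_le (by positivity) (by linarith)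
      linarith
  have hinter : ⋂ n, S n ⊆ {b} := by
    intro y hy
    rw [Set.mem_iInter] at hy
    by_contra hne
    have hne' : 0 < |y - b| := abs_pos.2 (sub_ne_zero.2 hne)
    obtain ⟨n, hn⟩ := exists_nat_gt (max |y| (1 / |y - b|))
    rcases hy n with h | h
    · have : (n : ℝ) + 1 < |y| := h
      have := le_max_left |y| (1 / |y - b|)
      linarith
    · have h2 : |y - b| < 1 / ((n : ℝ) + 1) := h
      have h3 : 1 / |y - b| < n := (le_max_right _ _).trans_lt hn
      rw [div_lt_iff₀ hne'] at h3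
      rw [lt_div_iff₀ (by positivity)] at h2
      nlinarith
  have hlim := tendsto_measure_iInter_atTop (μ := μ) (fun n => (hSm n).nullMeasurableSet) hanti ⟨0, measure_ne_top _ _⟩
  have h0 : μ (⋂ n, S n) = 0 := by
    have hna : NullSingletonClass μ := ProbabilityTheory.nullSingletonClass_gaussianReal hv0
    exact measure_mono_null hinter (measure_singleton b)
  rw [h0] at hlim
  have hev : ∀ᶠ n in atTop, (μ ∘ S) n < ENNReal.ofReal ε :=
    hlim.eventually_lt_const (ENNReal.ofReal_pos.2 hε)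
  obtain ⟨n, hn⟩ := hev.exists
  refine ⟨(n : ℝ) + 1, 1 / ((n : ℝ) + 1), by positivity, by positivity, ?_⟩
  have e : {x : Fin 1 → ℝ | (n : ℝ) + 1 < |x 0| ∨ |x 0 - b| < 1 / ((n : ℝ) + 1)} =
      Function.eval (0 : Fin 1) ⁻¹' S n := rfl
  rw [e, measureReal_def, hmp.measure_preimage (hSm n).nullMeasurableSet]
  exact ENNReal.toReal_le_of_le_ofReal hε.le hn.le

/-- the profile -/
def Hp (A b r s : ℝ) : ℝ := max 0 (min 1 ((b + r - s) / (2 * r))) * max 0 (min 1 (A + 1 - |s|))

lemma Hp_cont (A b r : ℝ) : Continuous (Hp A b r) := by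
  unfold Hp
  fun_prop

lemma clamp01 (x : ℝ) : 0 ≤ max 0 (min 1 x) ∧ max 0 (min 1 x) ≤ 1 :=
  ⟨le_max_left _ _, max_le zero_le_one (min_le_left _ _)⟩

lemma Hp_01 (A b r s : ℝ) : 0 ≤ Hp A b r s ∧ Hp A b r s ≤ 1 := by
  have h1 := clamp01 ((b + r - s) / (2 * r))
  have h2 := clamp01 (A + 1 - |s|)
  unfold Hp
  exact ⟨mul_nonneg h1.1 h2.1, mul_le_one₀ h1.2 h2.1 h2.2⟩

lemma Hp_edge (A b r : ℝ) (hA : 0 < A) (s : ℝ) (hs : |s| = A + 1) : Hp A b r s = 0 := by
  unfold Hp
  rw [hs]
  have : max (0 : ℝ) (min 1 (A + 1 - (A + 1))) = 0 := by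
    rw [sub_self]; simp
  rw [this, mul_zero]

lemma Hp_val (A b r : ℝ) (hr : 0 < r) (s : ℝ) (hs : |s| ≤ A) (hb : r ≤ |s - b|) :
    Hp A b r s = if s ≤ b then 1 else 0 := by
  unfold Hp
  have h1 : max (0 : ℝ) (min 1 (A + 1 - |s|)) = 1 := by
    rw [min_eq_left (by linarith)]; simp
  rw [h1, mul_one]
  split_ifs with h
  · rw [abs_of_nonpos (by linarith)] at hb
    rw [min_eq_left]
    · simp
    · rw [le_div_iff₀ (by positivity)]; linarith
  · push Not at h
    rw [abs_of_pos (by linarith)] at hb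
    apply max_eq_left
    refine (min_le_right _ _).trans ?_
    apply div_nonpos_of_nonpos_of_nonneg
    · linarith
    · positivity

theorem t_TRG : J_TRG := by
  intro b ε hε
  obtain ⟨A, r, hA, hr, hm⟩ := tight b ε hε
  set P : ℝ := 2 * (A + 1) with hP
  have hP0 : 0 < P := by positivity
  have : Fact (0 < P) := ⟨hP0⟩
  set a : ℝ := -(A + 1) with ha
  have haP : a + P = A + 1 := by rw [ha, hP]; ring
  set f : ℝ → ℂ := fun s => ((Hp A b r s : ℝ) : ℂ) with hf
  have hfc : Continuous f := Complex.continuous_ofReal.comp (Hp_cont A b r)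
  have hfe : f a = f (a + P) := by
    have h1 : Hp A b r a = 0 := Hp_edge A b r hA a (by rw [ha, abs_neg, abs_of_pos (by linarith)])
    have h2 : Hp A b r (a + P) = 0 := Hp_edge A b r hA _ (by rw [haP, abs_of_pos (by linarith)])
    simp only [hf, h1, h2]
  have hlc : Continuous (AddCircle.liftIco P a f) := AddCircle.liftIco_continuous hfe hfc.continuousOn
  set h : C(AddCircle P, ℂ) := ⟨AddCircle.liftIco P a f, hlc⟩ with hh
  have hbd : ∀ x : AddCircle P, ‖h x‖ ≤ 1 := by
    intro x
    have hx : x ∈ ((↑) : ℝ → AddCircle P) '' Set.Ico a (a + P) := by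
      rw [AddCircle.coe_image_Ico_eq]; exact Set.mem_univ x
    obtain ⟨y, hy, rfl⟩ := hx
    have h0 : h (y : AddCircle P) = f y := by
      show AddCircle.liftIco P a f (y : AddCircle P) = f y
      exact AddCircle.liftIco_coe_apply hy
    rw [h0, hf]
    simp only [Complex.norm_real, Real.norm_eq_abs]
    obtain ⟨h1, h2⟩ := Hp_01 A b r y
    rw [abs_of_nonneg h1]
    exact h2
  have hδ : 0 < min ε 1 := lt_min hε one_pos
  have hcl : h ∈ (Submodule.span ℂ (Set.range (@fourier P))).topologicalClosure := by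
    rw [span_fourier_closure_eq_top]; exact Submodule.mem_top
  have hcl2 : h ∈ closure ((Submodule.span ℂ (Set.range (@fourier P)) : Submodule ℂ C(AddCircle P, ℂ)) : Set C(AddCircle P, ℂ)) := by
    rwa [← Submodule.topologicalClosure_coe]
  obtain ⟨g, hg, hgd⟩ := Metric.mem_closure_iff.1 hcl2 (min ε 1) hδ
  obtain ⟨c, hc⟩ := (Finsupp.mem_span_range_iff_exists_finsupp).1 hg
  have hpt : ∀ x : AddCircle P, ‖h x - g x‖ ≤ min ε 1 := by
    intro x
    rw [← dist_eq_norm]
    exact (ContinuousMap.dist_apply_le_dist x).trans hgd.le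
  -- the frequencies
  set fr : ℤ → ℝ := fun n => 2 * Real.pi * n / P with hfr
  have hinj : Function.Injective fr := by
    intro m n hmn
    simp only [hfr] at hmn
    have hpi := Real.pi_pos
    have h1 : (2 * Real.pi * m : ℝ) = 2 * Real.pi * n := by
      have h0 := (div_left_inj' hP0.ne').1 hmn
      exact h0
    have h2 : (m : ℝ) = n := mul_left_cancel₀ (by positivity) h1
    exact_mod_cast h2
  set F : Finset ℝ := c.support.image fr with hF
  set c' : ℝ → ℂ := fun u => c (round (u * P / (2 * Real.pi))) with hc'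
  have hc'v : ∀ n : ℤ, c' (fr n) = c n := by
    intro n
    simp only [hc', hfr]
    have : 2 * Real.pi * (n : ℝ) / P * P / (2 * Real.pi) = (n : ℝ) := by
      have := Real.pi_pos
      field_simp
    rw [this, round_intCast]
  have hsum : ∀ s : ℝ, ∑ u ∈ F, c' u * Complex.exp (((u * s : ℝ) : ℂ) * Complex.I) = g (s : AddCircle P) := by
    intro s
    rw [hF, Finset.sum_image (fun x _ y _ hxy => hinj hxy), ← hc, Finsupp.sum, ContinuousMap.sum_apply]
    refine Finset.sum_congr rfl fun n _ => ?_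
    rw [hc'v, ContinuousMap.smul_apply, smul_eq_mul, fourier_coe_apply]
    congr 2
    simp only [hfr]
    push_cast
    ring
  refine ⟨A, r, F, c', hA, hr, fun s => ?_, fun s hs hsb => ?_, hm⟩
  · rw [hsum]
    have h1 := hpt (s : AddCircle P)
    have h2 := hbd (s : AddCircle P)
    have h3 : ‖g (s : AddCircle P)‖ ≤ ‖h (s : AddCircle P)‖ + ‖h (s : AddCircle P) - g (s : AddCircle P)‖ := by
      have : g (s : AddCircle P) = h (s : AddCircle P) - (h (s : AddCircle P) - g (s : AddCircle P)) := by ring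
      calc ‖g (s : AddCircle P)‖ = ‖h (s : AddCircle P) - (h (s : AddCircle P) - g (s : AddCircle P))‖ := by rw [← this]
        _ ≤ _ := norm_sub_le _ _
    have h4 := min_le_right ε 1
    linarith
  · rw [hsum]
    have h1 := hpt (s : AddCircle P)
    have hsI : s ∈ Set.Ico a (a + P) := by
      rw [haP, ha]
      obtain ⟨h2, h3⟩ := abs_le.1 hs
      exact ⟨by linarith, by linarith⟩
    have h2 : h (s : AddCircle P) = f s := by
      show AddCircle.liftIco P a f (s : AddCircle P) = f s
      exact AddCircle.liftIco_coe_apply hsI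
    rw [h2] at h1
    simp only [hf] at h1
    rw [Hp_val A b r hr s hs hsb] at h1
    refine le_trans (le_of_eq ?_) (h1.trans (min_le_left _ _))
    congr 2
    split_ifs <;> simp

end

end Pool.Agent.Q195.EW
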